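import Pool.Agent.MP_06f5ad_nt.Q2.Defs

/-!
Algebra of pairs of quadratics.
-/

namespace Pool.Agent.MP_06f5ad_nt.Q2

theorem Tr.NS.sq {P : Tr} (h : P.NS) {k q : ℤ} (hk : k ^ 2 = P.n * q ^ 2) : q = 0 := by
  by_contra hq
  obtain ⟨j, rfl⟩ : q ∣ k := (Int.pow_dvd_pow_iff two_ne_zero).1 ⟨P.n, by rw [hk]; ring⟩
  have h1 : P.n = j ^ 2 := by
    have : q ^ 2 * (P.n - j ^ 2) = 0 := by linear_combination -hk
    have := (mul_eq_zero.1 this).resolve_left (pow_ne_zero 2 hq)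
    linarith
  unfold Tr.NS at h
  rw [h1] at h
  have h5 : j % 5 = 0 ∨ j % 5 = 1 ∨ j % 5 = 2 ∨ j % 5 = 3 ∨ j % 5 = 4 := by omega
  have h6 := Int.emod_eq_zero_of_dvd h
  rcases h5 with h5 | h5 | h5 | h5 | h5 <;>
    simp [pow_succ, Int.add_emod, Int.mul_emod, h5] at h6

namespace QF

variable (P : QF)

theorem Apos : (0 : ℝ) < P.A := by exact_mod_cast P.pos

theorem one_le_A : (1 : ℝ) ≤ P.A := by exact_mod_cast P.pos

theorem B_eq : (P.B : ℝ) = -(P.A * (P.a + P.b)) / 2 := by have := P.sum; linarith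

theorem C_eq : (P.C : ℝ) = P.A * (P.a * P.b) := P.prod.symm

theorem ev_eq (x : ℝ) : P.ev x = P.A * (x - P.a) * (x - P.b) := by
  unfold Tr.ev; rw [P.B_eq, P.C_eq]; ring

theorem r_sq : P.r ^ 2 = P.n := by
  unfold r Tr.n; push_cast; rw [P.B_eq, P.C_eq]; ring

theorem n_eq : (P.n : ℝ) = P.A ^ 2 * (P.a - P.b) ^ 2 / 4 := by
  rw [← P.r_sq]; unfold r; ring

theorem r_a : P.A * P.a + P.B = P.r := by unfold r; rw [P.B_eq]; ring

theorem r_b : P.A * P.b + P.B = -P.r := by unfold r; rw [P.B_eq]; ring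

theorem n_ne : P.n ≠ 0 := fun h => one_ne_zero (P.ns.sq (k := 0) (q := 1) (by simp [h]))

theorem r_ne : P.r ≠ 0 := fun h => P.n_ne (by
  have := P.r_sq
  rw [h] at this
  exact_mod_cast (by linarith : (P.n : ℝ) = 0))

theorem a_ne_b : P.a ≠ P.b := fun h => P.r_ne (by unfold r; rw [h]; ring)

theorem n_pos : 0 < P.n := by
  have : (0 : ℝ) < P.n := by rw [← P.r_sq]; exact sq_pos_of_ne_zero P.r_ne
  exact_mod_cast this

theorem one_le_n : (1 : ℝ) ≤ P.n := by exact_mod_cast P.n_pos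

theorem res_eq (Q : Tr) : (res P.toTr Q : ℝ) = (P.A * Q.ev P.a) * (P.A * Q.ev P.b) := by
  unfold res Tr.ev; push_cast; rw [P.B_eq, P.C_eq]; ring

/-- The norm bound. -/
theorem norm {q p : ℤ} (h : q ≠ 0 ∨ p ≠ 0) :
    1 ≤ P.A * (|q * P.a + p| * |q * P.b + p|) := by
  have e : ((P.C * q ^ 2 - 2 * P.B * p * q + P.A * p ^ 2 : ℤ) : ℝ) =
      P.A * ((q * P.a + p) * (q * P.b + p)) := by
    push_cast; rw [P.B_eq, P.C_eq]; ring
  have h0 : P.C * q ^ 2 - 2 * P.B * p * q + P.A * p ^ 2 ≠ 0 := by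
    intro h0
    have hq : q = 0 := P.ns.sq (k := P.A * p - P.B * q) (by
      unfold Tr.n; linear_combination P.A * h0)
    subst hq
    have hp : p ≠ 0 := by simpa using h
    have : P.A * p ^ 2 = 0 := by simpa using h0
    exact (mul_ne_zero P.pos.ne' (pow_ne_zero 2 hp)) this
  have h1 : (1 : ℝ) ≤ |((P.C * q ^ 2 - 2 * P.B * p * q + P.A * p ^ 2 : ℤ) : ℝ)| := by
    exact_mod_cast Int.one_le_abs h0
  rwa [e, abs_mul, abs_mul, abs_of_pos P.Apos] at h1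

theorem lin_a_ne {q p : ℤ} (h : q ≠ 0 ∨ p ≠ 0) : q * P.a + p ≠ 0 := fun e => by
  have := P.norm h
  rw [e] at this
  norm_num at this

theorem lin_b_ne {q p : ℤ} (h : q ≠ 0 ∨ p ≠ 0) : q * P.b + p ≠ 0 := fun e => by
  have := P.norm h
  rw [e] at this
  norm_num at this

end QF

theorem res_symm (P Q : Tr) : res P Q = res Q P := by unfold res; ring

/-- The map `u + v D` attached to `O`. -/
theorem hmap {O : Tr} {u v : ℤ} (hd : u ^ 2 - O.n * v ^ 2 ≠ 0) {q p : ℤ} (h : q ≠ 0 ∨ p ≠ 0) :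
    ∃ q' p' : ℤ, (q' ≠ 0 ∨ p' ≠ 0) ∧ ∀ x : ℝ,
      q' * x + p' = (u + v * (O.A * x + O.B)) * (q * x + p) - v * q * O.ev x := by
  refine ⟨u * q + v * (O.A * p - O.B * q), u * p + v * (O.B * p - O.C * q), ?_, fun x => ?_⟩
  · by_contra hc
    push Not at hc
    obtain ⟨h1, h2⟩ := hc
    have e1 : (u ^ 2 - O.n * v ^ 2) * q = 0 := by
      unfold Tr.n; linear_combination (u + v * O.B) * h1 - v * O.A * h2
    have e2 : (u ^ 2 - O.n * v ^ 2) * p = 0 := by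
      unfold Tr.n; linear_combination (u - v * O.B) * h2 + v * O.C * h1
    rcases h with h | h
    · exact h ((mul_eq_zero.1 e1).resolve_left hd)
    · exact h ((mul_eq_zero.1 e2).resolve_left hd)
  · unfold Tr.ev; push_cast; ring

/-- The action of a unit. -/
theorem QF.unit (P : QF) {U V : ℤ} (hU : U ^ 2 - P.n * V ^ 2 = 1) {q p : ℤ}
    (h : q ≠ 0 ∨ p ≠ 0) : ∃ q' p' : ℤ, (q' ≠ 0 ∨ p' ≠ 0) ∧
      q' * P.a + p' = (U + V * P.r) * (q * P.a + p) ∧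
      q' * P.b + p' = (U - V * P.r) * (q * P.b + p) := by
  obtain ⟨q', p', h0, h1⟩ := hmap (O := P.toTr) (u := U) (v := V) (by rw [hU]; exact one_ne_zero) h
  refine ⟨q', p', h0, ?_, ?_⟩
  · rw [h1, P.r_a, P.ev_eq]; ring
  · rw [h1, P.r_b, P.ev_eq]; ring

/-- The reflection attached to a pair with resultant one. -/
theorem QF.refl (P : QF) {O : Tr} (hr : res P.toTr O = 1) {q p : ℤ}
    (h : q ≠ 0 ∨ p ≠ 0) : ∃ q' p' : ℤ, (q' ≠ 0 ∨ p' ≠ 0) ∧
      q' * P.a + p' = P.A * O.ev P.a * (q * P.b + p) ∧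
      q' * P.b + p' = P.A * O.ev P.b * (q * P.a + p) := by
  have e1 : ((2 * (P.A * O.B - O.A * P.B) * p - (P.A * O.C - O.A * P.C) * q : ℤ) : ℝ) * P.a +
      (((P.A * O.C - O.A * P.C) * p + 2 * (O.B * P.C - P.B * O.C) * q : ℤ) : ℝ) =
      P.A * O.ev P.a * (q * P.b + p) := by
    unfold Tr.ev; push_cast; rw [P.B_eq, P.C_eq]; ring
  have e2 : ((2 * (P.A * O.B - O.A * P.B) * p - (P.A * O.C - O.A * P.C) * q : ℤ) : ℝ) * P.b +
      (((P.A * O.C - O.A * P.C) * p + 2 * (O.B * P.C - P.B * O.C) * q : ℤ) : ℝ) =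
      P.A * O.ev P.b * (q * P.a + p) := by
    unfold Tr.ev; push_cast; rw [P.B_eq, P.C_eq]; ring
  refine ⟨_, _, ?_, e1, e2⟩
  by_contra hc
  push Not at hc
  rw [hc.1, hc.2] at e1
  have h2 := P.res_eq O
  rw [hr] at h2
  have h3 : P.A * O.ev P.a ≠ 0 := fun e => by rw [e] at h2; simp at h2
  exact mul_ne_zero h3 (P.lin_b_ne h) (by simpa using e1.symm)

/-- Every integer cubic is a combination of two quadratics with resultant one. -/
theorem sylvester {P Q : Tr} (hr : res P Q = 1) (c : ℕ → ℤ) : ∃ q p q' p' : ℤ,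
    c 3 = P.A * q + Q.A * q' ∧ c 2 = P.A * p + 2 * P.B * q + (Q.A * p' + 2 * Q.B * q') ∧
      c 1 = 2 * P.B * p + P.C * q + (2 * Q.B * p' + Q.C * q') ∧ c 0 = P.C * p + Q.C * p' := by
  let M : Matrix (Fin 4) (Fin 4) ℤ :=
    !![P.A, 0, Q.A, 0; 2 * P.B, P.A, 2 * Q.B, Q.A; P.C, 2 * P.B, Q.C, 2 * Q.B; 0, P.C, 0, Q.C]
  have hd : M.det = 1 := by
    rw [← hr]
    simp [M, Matrix.det_succ_row_zero, Fin.sum_univ_succ, Fin.succAbove, res]
    ring
  have h := congrArg (fun N => N.mulVec ![c 3, c 2, c 1, c 0]) (Matrix.mul_adjugate M)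
  simp only [hd, one_smul, Matrix.one_mulVec, ← Matrix.mulVec_mulVec] at h
  set w := M.adjugate.mulVec ![c 3, c 2, c 1, c 0]
  have h0 := congrFun h 0
  have h1 := congrFun h 1
  have h2 := congrFun h 2
  have h3 := congrFun h 3
  simp [M, Matrix.mulVec, dotProduct, Fin.sum_univ_succ] at h0 h1 h2 h3
  exact ⟨w 0, w 1, w 2, w 3, by linarith, by linarith, by linarith, by linarith⟩

/-- The new quadratic `e (U O - 2 V G + k P)`. -/
def St (P O : Tr) (e U V k : ℤ) : Tr where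
  A := e * (U * O.A - 2 * V * (P.A * O.B - O.A * P.B) + k * P.A)
  B := e * (U * O.B - V * (P.A * O.C - O.A * P.C) + k * P.B)
  C := e * (U * O.C - 2 * V * (P.B * O.C - O.B * P.C) + k * P.C)

theorem St_res (P O : Tr) (e U V k : ℤ) :
    res P (St P O e U V k) = e ^ 2 * (U ^ 2 - P.n * (2 * V) ^ 2) * res P O := by
  unfold res St Tr.n; ring

theorem St_n (P O : Tr) (e U V k : ℤ) :
    (St P O e U V k).n = e ^ 2 * (U ^ 2 * O.n + k ^ 2 * P.n +
      U * k * (2 * P.B * O.B - P.A * O.C - O.A * P.C) + V ^ 2 * res P O) := by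
  unfold res St Tr.n; ring

theorem St_unit {P O : Tr} (hr : res P O = 1) {e U w u v : ℤ} (he : e ^ 2 = 1)
    (hU : U ^ 2 - P.n * (2 * (v * w)) ^ 2 = 1) (hu : u ^ 2 - O.n * v ^ 2 = 1) :
    ∃ U' : ℤ, U' ^ 2 - (St P O e U (v * w) (-2 * w * u)).n * v ^ 2 = 1 := by
  refine ⟨U * u - v ^ 2 * w * (2 * P.B * O.B - P.A * O.C - O.A * P.C), ?_⟩
  have hd : res P O = (2 * P.B * O.B - P.A * O.C - O.A * P.C) ^ 2 - 4 * P.n * O.n := by
    unfold res Tr.n; ring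
  rw [St_n, he, hr]
  rw [hr] at hd
  linear_combination hU + (U ^ 2 - 4 * w ^ 2 * v ^ 2 * P.n) * hu - v ^ 4 * w ^ 2 * hd

theorem St_ns {P O : Tr} (hO : O.NS) {e U V k : ℤ} (he : e ^ 2 = 1)
    (hU : U ^ 2 - P.n * (2 * V) ^ 2 = 1) (hV : 5 ∣ V) (hk : 5 ∣ k) : (St P O e U V k).NS := by
  obtain ⟨V, rfl⟩ := hV
  obtain ⟨k, rfl⟩ := hk
  obtain ⟨t, ht⟩ := hO
  have : ∃ g : ℤ, (St P O e U (5 * V) (5 * k)).n = O.n + 5 * g := by
    refine ⟨20 * P.n * V ^ 2 * O.n + 5 * k ^ 2 * P.n +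
      U * k * (2 * P.B * O.B - P.A * O.C - O.A * P.C) + 5 * V ^ 2 * res P O, ?_⟩
    rw [St_n, he]
    linear_combination O.n * hU
  obtain ⟨g, hg⟩ := this
  exact ⟨t + 2 * O.n * g + 5 * g ^ 2, by rw [hg]; linear_combination ht⟩

theorem res_disc (P O : Tr) :
    res P O = (2 * P.B * O.B - P.A * O.C - O.A * P.C) ^ 2 - 4 * P.n * O.n := by
  unfold res Tr.n; ring

end Pool.Agent.MP_06f5ad_nt.Q2
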