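import Pool.Agent.MP_06f5ad_nt.Q2.Alg

/-!
Passing Diophantine bounds to nearby points.
-/

namespace Pool.Agent.MP_06f5ad_nt.Q2

open Filter Topology

theorem Approx_one_le {q : ℤ} (hq : q ≠ 0) : (1 : ℝ) ≤ |(q : ℝ)| := by
  exact_mod_cast Int.one_le_abs hq

theorem Approx_tri (q p x y : ℝ) : |q * y + p| ≤ |q * x + p| + |q| * |x - y| := by
  rw [← abs_mul]
  have : q * y + p = (q * x + p) - q * (x - y) := by ring
  rw [this]
  exact abs_sub _ _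

theorem Approx_ba {A a b : ℝ} (hA : 1 ≤ A)
    (h : ∀ q p : ℤ, q ≠ 0 → 1 ≤ A * (|q * a + p| * |q * b + p|)) : BA a := by
  have hd : 0 ≤ |a - b| := abs_nonneg _
  have hpos : 0 < A * (1 + |a - b|) := by positivity
  refine ⟨1 / (A * (1 + |a - b|)), by positivity, fun q p hq => ?_⟩
  have h1 := Approx_one_le hq
  have h2 := h q p hq
  have h3 := Approx_tri q p a b
  set X := |q * a + p|
  set Y := |q * b + p|
  set Q := |(q : ℝ)|
  have hX : 0 ≤ X := abs_nonneg _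
  rw [div_le_iff₀ hpos]
  by_cases hc : 1 ≤ X * Q
  · have : 1 ≤ A * (1 + |a - b|) := by nlinarith
    nlinarith
  · have h4 : X ≤ Q := by nlinarith
    have h5 : Y ≤ Q * (1 + |a - b|) := by linarith
    have h6 : X * Y ≤ X * (Q * (1 + |a - b|)) := mul_le_mul_of_nonneg_left h5 hX
    have h7 := mul_le_mul_of_nonneg_left h6 (by linarith : 0 ≤ A)
    nlinarith

theorem QF.ba_a (P : QF) : BA P.a :=
  Approx_ba P.one_le_A fun _ _ hq => P.norm (.inl hq)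

theorem QF.ba_b (P : QF) : BA P.b :=
  Approx_ba (b := P.a) P.one_le_A fun _ _ hq => by
    rw [mul_comm |_|]; exact P.norm (.inl hq)

theorem BA.dio {x : ℝ} (h : BA x) : ∃ κ : ℝ, 0 < κ ∧ Dio x κ := by
  obtain ⟨c, hc, h⟩ := h
  refine ⟨c, hc, fun q p hq => (h q p hq).trans ?_⟩
  exact mul_le_mul_of_nonneg_left (le_self_pow₀ (Approx_one_le hq) (by norm_num)) (abs_nonneg _)

theorem Dio.mono {x κ κ' : ℝ} (h : Dio x κ) (hκ : κ' ≤ κ) : Dio x κ' :=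
  fun q p hq => hκ.trans (h q p hq)

theorem Conv.tendsto {T x : ℕ → ℝ} {x₀ : ℝ} (h : Conv T x x₀) : Tendsto x atTop (𝓝 x₀) := by
  obtain ⟨C, hC⟩ := h.close
  rw [tendsto_iff_dist_tendsto_zero]
  have h1 : Tendsto (fun k => C / T k ^ 2) atTop (𝓝 0) :=
    tendsto_const_nhds.div_atTop ((tendsto_pow_atTop two_ne_zero).comp h.top)
  refine squeeze_zero' (Eventually.of_forall fun _ => dist_nonneg) ?_ h1
  filter_upwards [hC, h.top.eventually_gt_atTop 0] with k hk h0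
  rw [Real.dist_eq, le_div_iff₀ (by positivity)]
  exact hk

theorem Conv.far {T x : ℕ → ℝ} {x₀ : ℝ} (h : Conv T x x₀) (Λ : ℝ) : ∃ Q₀ : ℝ,
    ∀ᶠ k in atTop, ∀ q p : ℤ, Q₀ ≤ |(q : ℝ)| → Λ ≤ |q * x k + p| * |(q : ℝ)| ^ 3 := by
  obtain ⟨C₀, hC⟩ := h.close
  obtain ⟨c, hc, hba⟩ := h.ba
  obtain ⟨c', hc', hlow⟩ := h.low
  obtain ⟨C, hC1, hC2⟩ : ∃ C : ℝ, 0 < C ∧ C₀ ≤ C :=
    ⟨max 1 C₀, lt_max_of_lt_left one_pos, le_max_right _ _⟩
  refine ⟨max 1 (2 * Λ / c), ?_⟩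
  filter_upwards [hC, hlow, h.top.eventually_gt_atTop 0,
    h.top.eventually_ge_atTop (2 * C * Λ / (c' * c))] with k hk hl h0 hT q p hq
  have hQ1 : 1 ≤ |(q : ℝ)| := (le_max_left _ _).trans hq
  have hQ2 : 2 * Λ ≤ |(q : ℝ)| * c := (div_le_iff₀ hc).1 ((le_max_right _ _).trans hq)
  have hq0 : q ≠ 0 := by
    rintro rfl
    norm_num at hQ1
  have h1 := hba q p hq0
  have h2 := hl q p hq0
  have h3 := Approx_tri q p (x k) x₀
  have hT' : 2 * C * Λ ≤ T k * (c' * c) := (div_le_iff₀ (mul_pos hc' hc)).1 hT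
  set L := |q * x k + p|
  set L₀ := |q * x₀ + p|
  set Q := |(q : ℝ)|
  set e := |x k - x₀|
  set t := T k
  have hL : 0 ≤ L := abs_nonneg _
  have he : 0 ≤ e := abs_nonneg _
  have ht2 : 0 < t ^ 2 := by positivity
  by_cases hcase : Q ^ 2 * C ≤ c * t ^ 2 / 2
  · have h4 : Q ^ 2 * e ≤ c / 2 := by
      refine le_of_mul_le_mul_right ?_ ht2
      have : Q ^ 2 * (e * t ^ 2) ≤ Q ^ 2 * C :=
        mul_le_mul_of_nonneg_left (hk.trans hC2) (sq_nonneg _)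
      linarith
    have h5 : c / 2 ≤ L * Q := by
      have := mul_le_mul_of_nonneg_right h3 (by linarith : 0 ≤ Q)
      nlinarith
    have h6 : c / 2 * Q ^ 2 ≤ L * Q * Q ^ 2 := mul_le_mul_of_nonneg_right h5 (sq_nonneg _)
    have h7 : c * Q ≤ c * Q ^ 2 := mul_le_mul_of_nonneg_left (by nlinarith) hc.le
    nlinarith
  · push Not at hcase
    have h4 : c' * Q ^ 2 ≤ t * (L * Q) * Q ^ 2 := mul_le_mul_of_nonneg_right h2 (sq_nonneg _)
    have h5 : c' * (c * t ^ 2 / 2) ≤ c' * (Q ^ 2 * C) := mul_le_mul_of_nonneg_left hcase.le hc'.le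
    have h6 := mul_le_mul_of_nonneg_right h4 hC1.le
    have h7 := mul_le_mul_of_nonneg_right hT' h0.le
    refine le_of_mul_le_mul_right ?_ (mul_pos hC1 h0)
    nlinarith

theorem Conv.dio {T x : ℕ → ℝ} {x₀ κ κ' : ℝ} (h : Conv T x x₀) (hκ : Dio x₀ κ) (hlt : κ' < κ) :
    ∀ᶠ k in atTop, Dio (x k) κ' := by
  obtain ⟨Q₀, hQ⟩ := h.far κ'
  have h1 : Tendsto (fun k => |x k - x₀| * Q₀ ^ 4) atTop (𝓝 (|x₀ - x₀| * Q₀ ^ 4)) :=
    ((h.tendsto.sub_const x₀).abs).mul_const _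
  rw [sub_self, abs_zero, zero_mul] at h1
  filter_upwards [hQ, h1.eventually (gt_mem_nhds (sub_pos.2 hlt))] with k hk hs q p hq
  by_cases hc : Q₀ ≤ |(q : ℝ)|
  · exact hk q p hc
  · push Not at hc
    have h2 := hκ q p hq
    have h3 := Approx_tri q p (x k) x₀
    have h4 : |(q : ℝ)| ^ 4 ≤ Q₀ ^ 4 := pow_le_pow_left₀ (abs_nonneg _) hc.le 4
    have h5 := mul_le_mul_of_nonneg_left h4 (abs_nonneg (x k - x₀))
    have h6 := mul_le_mul_of_nonneg_right h3 (by positivity : 0 ≤ |(q : ℝ)| ^ 3)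
    nlinarith

end Pool.Agent.MP_06f5ad_nt.Q2
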