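import Mathlib

/-!
Definitions for the counterexample to Q2 in degree three.
-/

namespace Pool.Agent.MP_06f5ad_nt.Q2

open Filter

/-- The integer quadratic `A x ^ 2 + 2 B x + C`. -/
structure Tr where
  A : ℤ
  B : ℤ
  C : ℤ

/-- The reduced discriminant. -/
def Tr.n (P : Tr) : ℤ := P.B ^ 2 - P.A * P.C

/-- The value at a real point. -/
def Tr.ev (P : Tr) (x : ℝ) : ℝ := P.A * x ^ 2 + 2 * P.B * x + P.C

/-- The discriminant is `2` or `3` modulo `5`; in particular it is not a square. -/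
def Tr.NS (P : Tr) : Prop := 5 ∣ P.n ^ 2 + 1

/-- The resultant. -/
def res (P Q : Tr) : ℤ :=
  (P.A * Q.C - Q.A * P.C) ^ 2 - 4 * (P.A * Q.B - Q.A * P.B) * (P.B * Q.C - Q.B * P.C)

/-- An irreducible integer quadratic with its two real roots `a`, `b`. -/
structure QF extends Tr where
  a : ℝ
  b : ℝ
  pos : 0 < A
  sum : (A : ℝ) * (a + b) = -2 * B
  prod : (A : ℝ) * (a * b) = C
  ns : toTr.NS

/-- The signed square root of the discriminant. -/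
noncomputable def QF.r (P : QF) : ℝ := P.A * (P.a - P.b) / 2

/-- The pointwise condition on the two values `X`, `Y` of a linear form. -/
def Ok (W : ℝ) (l : ℕ) (X Y : ℝ) : Prop :=
  W ^ l * X ≤ W ^ 85 → W ^ 25 ≤ W ^ l * X * Y ^ 3 ∨ (1 ≤ W ^ (55 + l) * X ∧ W ^ 24 * Y ≤ W ^ l)

/-- The pair of points `x`, `y` is good at scale `σ` and level `l`. -/
def Gd (W : ℝ) (l : ℕ) (x y σ : ℝ) : Prop :=
  ∀ q p : ℤ, (q ≠ 0 ∨ p ≠ 0) → Ok W l (σ * |q * x + p|) (|q * y + p| / σ)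

/-- A lower bound with exponent three. -/
def Dio (x κ : ℝ) : Prop := ∀ q p : ℤ, q ≠ 0 → κ ≤ |q * x + p| * |(q : ℝ)| ^ 3

/-- Badly approximable. -/
def BA (x : ℝ) : Prop := ∃ c : ℝ, 0 < c ∧ ∀ q p : ℤ, q ≠ 0 → c ≤ |q * x + p| * |(q : ℝ)|

/-- The points `x k` tend quickly to a badly approximable point `x₀`. -/
structure Conv (T x : ℕ → ℝ) (x₀ : ℝ) : Prop where
  top : Tendsto T atTop atTop
  close : ∃ C : ℝ, ∀ᶠ k in atTop, |x k - x₀| * T k ^ 2 ≤ C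
  ba : BA x₀
  low : ∃ c : ℝ, 0 < c ∧ ∀ᶠ k in atTop, ∀ q p : ℤ, q ≠ 0 →
    c ≤ T k * (|q * x k + p| * |(q : ℝ)|)

/-- The coefficients are bounded by `H`. -/
def Tr.Bd (P : Tr) (H : ℝ) : Prop := |(P.A : ℝ)| ≤ H ∧ |(P.B : ℝ)| ≤ H ∧ |(P.C : ℝ)| ≤ H

/-- The invariant of the construction: `P` is the current quadratic, `O` the previous one. -/
structure Inv (W : ℕ) (s : ℝ) (P : QF) (O : Tr) : Prop where
  big : (2 : ℝ) ^ 100 ≤ W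
  sgn : s = 1 ∨ s = -1
  nsO : O.NS
  res1 : res P.toTr O = 1
  ht : ∃ H : ℝ, 1 ≤ H ∧ O.Bd H ∧ H ^ 2 * (W : ℝ) ^ 700 ≤ P.A
  evO : 1 ≤ (W : ℝ) ^ 41 * |O.ev P.b|
  loc : |P.a| + 1 / (W : ℝ) ≤ 1 / 3
  dlo : 2 ≤ (W : ℝ) ^ 20 * (s * (P.b - P.a))
  dhi : (W : ℝ) ^ 20 * (s * (P.b - P.a)) ≤ 4
  rat : ∃ j : ℤ, (W : ℝ) ^ 250 * |P.b - (1 + W * j) / (W : ℝ) ^ 22| ≤ 1
  dio : Dio P.a (1 / W)

/-- All five distances between the roots of `P` and `Q` are of the size `W ^ (-20)`. -/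
structure Shape (W : ℝ) (P Q : QF) : Prop where
  pa : |P.a| ≤ 1 / 2
  pb : |P.b| ≤ 1 / 2
  qa : |Q.a| ≤ 1 / 2
  qb : |Q.b| ≤ 1 / 2
  l1 : 1 / 2 ≤ W ^ 20 * |P.a - P.b|
  u1 : W ^ 20 * |P.a - P.b| ≤ 10
  l2 : 1 / 2 ≤ W ^ 20 * |Q.a - Q.b|
  u2 : W ^ 20 * |Q.a - Q.b| ≤ 10
  l3 : 1 / 2 ≤ W ^ 20 * |P.a - Q.b|
  u3 : W ^ 20 * |P.a - Q.b| ≤ 10
  l4 : 1 / 2 ≤ W ^ 20 * |P.b - Q.a|
  u4 : W ^ 20 * |P.b - Q.a| ≤ 10
  l5 : 1 / 2 ≤ W ^ 20 * |P.b - Q.b|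
  u5 : W ^ 20 * |P.b - Q.b| ≤ 10

/-- The integer cubic with coefficients `c 3, c 2, c 1, c 0` is `P` times a linear form. -/
def Fac (P : Tr) (c : ℕ → ℤ) : Prop :=
  ∃ q p : ℤ, c 3 = P.A * q ∧ c 2 = P.A * p + 2 * P.B * q ∧ c 1 = 2 * P.B * p + P.C * q ∧
    c 0 = P.C * p

/-- Every integer cubic with a root close to `Q.a` is divisible by `P` or by `Q`. -/
def PairOK (K : ℝ) (P Q : QF) : Prop :=
  ∀ (c : ℕ → ℤ) (X x : ℝ), 0 < X → (∀ i, |(c i : ℝ)| ≤ X) →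
    (c 3 : ℝ) * x ^ 3 + c 2 * x ^ 2 + c 1 * x + c 0 = 0 →
    |x - Q.a| ≤ |P.a - Q.a| / 2 → |x - Q.a| * X ^ 4 ≤ K → Fac P.toTr c ∨ Fac Q.toTr c

end Pool.Agent.MP_06f5ad_nt.Q2
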