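import Pool.Agent.MP_06f5ad_nt.Q2.Alg

/-!
The limit and its transcendence.
-/

namespace Pool.Agent.MP_06f5ad_nt.Q2

open Filter Topology

theorem Transc_geo {a : ℕ → ℝ} (h : ∀ m, |a (m + 1) - a (m + 2)| ≤ |a m - a (m + 1)| / 8)
    (m n : ℕ) : dist (a (n + m)) (a (n + 1 + m)) ≤ |a m - a (m + 1)| * (1 / 8) ^ n := by
  rw [Real.dist_eq]
  induction n with
  | zero => simp [add_comm]
  | succ n ih =>
    have := h (n + m)
    rw [show n + m + 1 = n + 1 + m by ring, show n + m + 2 = n + 1 + 1 + m by ring] at this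
    rw [pow_succ, ← mul_assoc]
    linarith

theorem exists_lim {a : ℕ → ℝ} (h : ∀ m, |a (m + 1) - a (m + 2)| ≤ |a m - a (m + 1)| / 8) :
    ∃ ζ : ℝ, Tendsto a atTop (𝓝 ζ) ∧ ∀ m, |ζ - a (m + 1)| ≤ 2 * |a (m + 1) - a (m + 2)| ∧
      |ζ - a m| ≤ 2 * |a m - a (m + 1)| ∧ |a m - a (m + 1)| ≤ 2 * |ζ - a m| := by
  have hc : CauchySeq a :=
    cauchySeq_of_le_geometric (1 / 8) _ (by norm_num) fun n => Transc_geo h 0 n
  obtain ⟨ζ, hζ⟩ := cauchySeq_tendsto_of_complete hc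
  have key : ∀ m, |ζ - a m| ≤ 8 / 7 * |a m - a (m + 1)| := by
    intro m
    have := dist_le_of_le_geometric_of_tendsto₀ (f := fun n => a (n + m)) (1 / 8) _ (by norm_num)
      (Transc_geo h m) ((tendsto_add_atTop_iff_nat m).2 hζ)
    rw [Real.dist_eq, zero_add, abs_sub_comm] at this
    exact this.trans_eq (by ring)
  refine ⟨ζ, hζ, fun m => ⟨?_, ?_, ?_⟩⟩
  · have := key (m + 1)
    have := abs_nonneg (a (m + 1) - a (m + 2))
    linarith
  · have := key m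
    have := abs_nonneg (a m - a (m + 1))
    linarith
  · have h1 := key (m + 1)
    have h2 := h m
    have h3 := abs_sub_le (a m) ζ (a (m + 1))
    rw [abs_sub_comm (a m) ζ] at h3
    have h4 := abs_nonneg (ζ - a m)
    linarith

theorem Transc_pow (P : QF) (k : ℕ) : ∃ u v : ℤ,
    ((P.A : ℝ) * P.a) ^ k = u + v * P.r ∧ ((P.A : ℝ) * P.b) ^ k = u - v * P.r := by
  induction k with
  | zero => exact ⟨1, 0, by simp, by simp⟩
  | succ k ih =>
    obtain ⟨u, v, h1, h2⟩ := ih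
    refine ⟨v * P.n - u * P.B, u - v * P.B, ?_, ?_⟩
    · rw [pow_succ, h1]
      push_cast
      linear_combination (u + v * P.r) * P.r_a + v * P.r_sq
    · rw [pow_succ, h2]
      push_cast
      linear_combination (u - v * P.r) * P.r_b + v * P.r_sq

theorem Transc_eval (P : QF) (F : Polynomial ℤ) : ∃ u v : ℤ,
    (P.A : ℝ) ^ F.natDegree * Polynomial.aeval P.a F = u + v * P.r ∧
      (P.A : ℝ) ^ F.natDegree * Polynomial.aeval P.b F = u - v * P.r := by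
  choose u v hu hv using Transc_pow P
  have e : ∀ x : ℝ, (P.A : ℝ) ^ F.natDegree * Polynomial.aeval x F =
      ∑ k ∈ Finset.range (F.natDegree + 1),
        (F.coeff k : ℝ) * (P.A : ℝ) ^ (F.natDegree - k) * ((P.A : ℝ) * x) ^ k := by
    intro x
    rw [Polynomial.aeval_eq_sum_range, Finset.mul_sum]
    refine Finset.sum_congr rfl fun k hk => ?_
    have hk' : k ≤ F.natDegree := Nat.lt_succ_iff.1 (Finset.mem_range.1 hk)
    have : (P.A : ℝ) ^ F.natDegree = (P.A : ℝ) ^ (F.natDegree - k) * (P.A : ℝ) ^ k := by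
      rw [← pow_add, Nat.sub_add_cancel hk']
    rw [this, zsmul_eq_mul]
    ring
  refine ⟨∑ k ∈ Finset.range (F.natDegree + 1), F.coeff k * P.A ^ (F.natDegree - k) * u k,
    ∑ k ∈ Finset.range (F.natDegree + 1), F.coeff k * P.A ^ (F.natDegree - k) * v k, ?_, ?_⟩
  · rw [e]
    push_cast
    rw [Finset.sum_mul, ← Finset.sum_add_distrib]
    exact Finset.sum_congr rfl fun k _ => by rw [hu]; ring
  · rw [e]
    push_cast
    rw [Finset.sum_mul, ← Finset.sum_sub_distrib]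
    exact Finset.sum_congr rfl fun k _ => by rw [hv]; ring

theorem Transc_norm (P : QF) (F : Polynomial ℤ) (ha : Polynomial.aeval P.a F ≠ 0)
    (hb : Polynomial.aeval P.b F ≠ 0) :
    1 ≤ (P.A : ℝ) ^ (2 * F.natDegree) * (|Polynomial.aeval P.a F| * |Polynomial.aeval P.b F|) := by
  obtain ⟨u, v, hu, hv⟩ := Transc_eval P F
  have e : ((u ^ 2 - P.n * v ^ 2 : ℤ) : ℝ) =
      (P.A : ℝ) ^ (2 * F.natDegree) * (Polynomial.aeval P.a F * Polynomial.aeval P.b F) := by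
    have : (P.A : ℝ) ^ (2 * F.natDegree) * (Polynomial.aeval P.a F * Polynomial.aeval P.b F) =
        ((P.A : ℝ) ^ F.natDegree * Polynomial.aeval P.a F) *
          ((P.A : ℝ) ^ F.natDegree * Polynomial.aeval P.b F) := by ring
    rw [this, hu, hv]
    push_cast
    rw [← P.r_sq]
    ring
  have hp : 0 < (P.A : ℝ) ^ (2 * F.natDegree) := pow_pos P.Apos _
  have h0 : u ^ 2 - P.n * v ^ 2 ≠ 0 := by
    intro h0
    rw [h0, Int.cast_zero] at e
    exact mul_ne_zero hp.ne' (mul_ne_zero ha hb) e.symm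
  have h1 : (1 : ℝ) ≤ |((u ^ 2 - P.n * v ^ 2 : ℤ) : ℝ)| := by
    exact_mod_cast Int.one_le_abs h0
  rwa [e, abs_mul, abs_mul, abs_of_pos hp] at h1

theorem Transc_ne {G : Polynomial ℝ} (hG : G ≠ 0) {x : ℕ → ℝ} {ζ : ℝ}
    (hx : Tendsto x atTop (𝓝 ζ)) (h : ∀ m, x m ≠ ζ) : ∀ᶠ m in atTop, G.eval (x m) ≠ 0 := by
  have hf : ({y | G.IsRoot y} \ {ζ}).Finite := (Polynomial.finite_setOfPred_isRoot hG).sdiff
  have hn : ({y | G.IsRoot y} \ {ζ})ᶜ ∈ 𝓝 ζ := hf.isClosed.isOpen_compl.mem_nhds (by simp)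
  filter_upwards [hx hn] with m hm h0
  exact hm ⟨h0, h m⟩

theorem transc {P : ℕ → QF} {ζ : ℝ} (ha : Tendsto (fun m => (P m).a) atTop (𝓝 ζ))
    (hb : Tendsto (fun m => (P m).b) atTop (𝓝 ζ)) (h1 : ∀ m, (P m).a ≠ ζ) (h2 : ∀ m, (P m).b ≠ ζ)
    (h3 : ∀ m, |ζ - (P m).a| * ((P m).A : ℝ) ^ m ≤ 2 / (m + 1)) : Transcendental ℚ ζ := by
  intro halg
  obtain ⟨F, hF, hz⟩ := (IsFractionRing.isAlgebraic_iff ℤ ℚ ℝ).2 halg
  set G := F.map (algebraMap ℤ ℝ) with hGd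
  have hG : G ≠ 0 := (Polynomial.map_ne_zero_iff (algebraMap ℤ ℝ).injective_int).2 hF
  have ev : ∀ x : ℝ, Polynomial.aeval x F = G.eval x := fun x => by
    rw [hGd, Polynomial.eval_map_algebraMap]
  obtain ⟨G1, hG1⟩ : Polynomial.X - Polynomial.C ζ ∣ G :=
    Polynomial.dvd_iff_isRoot.2 (by rw [Polynomial.IsRoot, ← ev, hz])
  have t1 : Tendsto (fun m => 2 * (|G1.eval (P m).a| * |G.eval (P m).b|)) atTop
      (𝓝 (2 * (|G1.eval ζ| * |G.eval ζ|))) :=
    ((((G1.continuous.tendsto ζ).comp ha).abs).mul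
      (((G.continuous.tendsto ζ).comp hb).abs)).const_mul 2
  rw [← ev ζ, hz, abs_zero, mul_zero, mul_zero] at t1
  obtain ⟨m, ⟨⟨hma, hmb⟩, hm1⟩, hmd⟩ := ((((Transc_ne hG ha h1).and (Transc_ne hG hb h2)).and
    (t1.eventually (gt_mem_nhds one_pos))).and (eventually_ge_atTop (2 * F.natDegree))).exists
  have hn := Transc_norm (P m) F (by rwa [ev]) (by rwa [ev])
  rw [ev, ev] at hn
  have e1 : |G.eval (P m).a| = |ζ - (P m).a| * |G1.eval (P m).a| := by
    rw [hG1, abs_sub_comm, ← abs_mul]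
    simp
  have e2 : ((P m).A : ℝ) ^ (2 * F.natDegree) ≤ ((P m).A : ℝ) ^ m :=
    pow_le_pow_right₀ (P m).one_le_A hmd
  have e3 : |ζ - (P m).a| * ((P m).A : ℝ) ^ m ≤ 2 := by
    refine (h3 m).trans (div_le_self (by norm_num) ?_)
    have : (0 : ℝ) ≤ m := Nat.cast_nonneg m
    linarith
  have e4 : |ζ - (P m).a| * ((P m).A : ℝ) ^ (2 * F.natDegree) ≤ 2 :=
    (mul_le_mul_of_nonneg_left e2 (abs_nonneg _)).trans e3
  have e5 := mul_le_mul_of_nonneg_right e4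
    (mul_nonneg (abs_nonneg (G1.eval (P m).a)) (abs_nonneg (G.eval (P m).b)))
  rw [e1] at hn
  nlinarith

end Pool.Agent.MP_06f5ad_nt.Q2
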