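import Pool.Agent.MP_06f5ad_nt.Q2.Seq
import Pool.Agent.MP_06f5ad_nt.Q2.Transc

/-!
The counterexample.
-/

namespace Pool.Agent.MP_06f5ad_nt.Q2

open Filter Topology

open Polynomial

theorem Final_cubic {R : ℤ[X]} (h3 : R.natDegree = 3) :
    R = C (R.coeff 3) * X ^ 3 + C (R.coeff 2) * X ^ 2 + C (R.coeff 1) * X + C (R.coeff 0) := by
  conv_lhs => rw [R.as_sum_range_C_mul_X_pow, h3]
  simp only [Finset.sum_range_succ, Finset.range_zero, Finset.sum_empty]
  ring

theorem Final_cross {p : ℕ → Prop} (m₀ : ℕ) (h0 : ¬ p m₀) (h1 : ∃ m, m₀ ≤ m ∧ p m) :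
    ∃ m, m₀ ≤ m ∧ ¬ p m ∧ p (m + 1) := by
  by_contra hc
  obtain ⟨m, hm, hp⟩ := h1
  have : ∀ k, m₀ ≤ k → ¬ p k := by
    intro k hk
    induction k, hk using Nat.le_induction with
    | base => exact h0
    | succ k hk ih => exact fun h => hc ⟨k, hk, ih, h⟩
  exact this m hm hp

theorem Final_coeff (R : ℤ[X]) (i : ℕ) : |((R.coeff i : ℤ) : ℝ)| ≤ R.supNorm := by
  have := R.le_supNorm i
  rwa [Int.norm_eq_abs] at this

theorem not_fac {R : ℤ[X]} (hR : Irreducible R) (h3 : R.natDegree = 3) {P : Tr} (hA : P.A ≠ 0) :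
    ¬ Fac P (fun i => R.coeff i) := by
  rintro ⟨q, p, e3, e2, e1, e0⟩
  simp only at e3 e2 e1 e0
  have hR0 : R ≠ 0 := hR.ne_zero
  have hl : R.coeff 3 ≠ 0 := by
    rw [← h3]
    exact leadingCoeff_ne_zero.mpr hR0
  have hq : q ≠ 0 := by
    rintro rfl
    exact hl (by simpa using e3)
  have hfac : R = (C P.A * X ^ 2 + C (2 * P.B) * X + C P.C) * (C q * X + C p) := by
    conv_lhs => rw [Final_cubic h3, e3, e2, e1, e0]
    simp only [map_add, map_mul]
    ring
  rcases hR.isUnit_or_isUnit hfac with h | h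
  · have := natDegree_eq_zero_of_isUnit h
    rw [natDegree_quadratic hA] at this
    exact absurd this (by norm_num)
  · have := natDegree_eq_zero_of_isUnit h
    rw [natDegree_linear hq] at this
    exact absurd this (by norm_num)

theorem finite_bdd (B : ℝ) : Set.Finite {α : ℝ | ∃ R : ℤ[X], R.natDegree = 3 ∧
    aeval α R = 0 ∧ R.supNorm ≤ B} := by
  classical
  have hU : (Set.Icc (-⌈B⌉) ⌈B⌉ : Set ℤ).Finite := Set.finite_Icc _ _
  refine (bUnion_roots_finite (algebraMap ℤ ℝ) 3 hU).subset ?_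
  rintro α ⟨R, h3, hα, hB⟩
  have hR0 : R ≠ 0 := by
    rintro rfl
    simp at h3
  simp only [Set.mem_iUnion]
  refine ⟨R, ⟨h3.le, fun i => ?_⟩, ?_⟩
  · have h1 := (Final_coeff R i).trans (hB.trans (Int.le_ceil B))
    rw [← Int.cast_abs, Int.cast_le] at h1
    exact abs_le.mp h1
  · rw [Finset.mem_coe, Multiset.mem_toFinset, mem_roots_map_of_injective
      (algebraMap ℤ ℝ).injective_int hR0]
    exact hα

theorem cubic_counter : ∃ ζ : ℝ, Transcendental ℚ ζ ∧ ∀ c : ℝ, 0 < c →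
    Set.Finite {α : ℝ | ∃ R : ℤ[X], Irreducible R ∧ R.natDegree = 3 ∧ 0 < R.leadingCoeff ∧
      aeval α R = 0 ∧ |ζ - α| ≤ c / R.supNorm ^ 4} := by
  obtain ⟨P, K, hK, hP, hpos, hdec, hsm, hab, hb0⟩ := exists_seq
  obtain ⟨ζ, hζ, hlim⟩ := exists_lim (a := fun m => (P m).a) hdec
  have hA : ∀ m, (1 : ℝ) ≤ (P m).A := fun m => by exact_mod_cast (P m).pos
  have hη : ∀ m : ℕ, |(P m).a - (P (m + 1)).a| ≤ 1 / ((m : ℝ) + 1) := fun m =>
    (le_mul_of_one_le_right (abs_nonneg _) (one_le_pow₀ (hA m))).trans (hsm m)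
  have hη0 : Tendsto (fun m : ℕ => |(P m).a - (P (m + 1)).a|) atTop (𝓝 0) :=
    squeeze_zero (fun _ => abs_nonneg _) hη tendsto_one_div_add_atTop_nhds_zero_nat
  refine ⟨ζ, transc hζ ?_ ?_ ?_ ?_, fun c hc => ?_⟩
  · have h1 : Tendsto (fun m => (P m).a - (P m).b) atTop (𝓝 0) :=
      (tendsto_zero_iff_abs_tendsto_zero _).mpr hb0
    have h2 := hζ.sub h1
    simpa using h2
  · intro m hm
    have h1 := (hlim m).2.2
    have h2 := hpos m
    rw [← hm] at h1
    simp only [sub_self, abs_zero, mul_zero] at h1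
    linarith
  · intro m hm
    have h1 := (hlim m).2.1
    have h2 := hpos m
    have h3 := hab m
    rw [← hm, abs_sub_comm] at h1
    linarith
  · intro m
    have h1 := (hlim m).2.1
    have h2 := hsm m
    have h3 : (0 : ℝ) ≤ ((P m).A : ℝ) ^ m := pow_nonneg (by linarith [hA m]) _
    calc |ζ - (P m).a| * ((P m).A : ℝ) ^ m
        ≤ 2 * |(P m).a - (P (m + 1)).a| * ((P m).A : ℝ) ^ m := mul_le_mul_of_nonneg_right h1 h3
      _ = 2 * (|(P m).a - (P (m + 1)).a| * ((P m).A : ℝ) ^ m) := by ring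
      _ ≤ 2 * (1 / ((m : ℝ) + 1)) := by linarith
      _ = 2 / ((m : ℝ) + 1) := by ring
  · obtain ⟨m₀, hm₀⟩ := eventually_atTop.mp (hK.eventually_ge_atTop (9 * c))
    refine (finite_bdd (4 * c / |(P m₀).a - (P (m₀ + 1)).a|)).subset ?_
    rintro α ⟨R, hR, h3, hl, hα, hclose⟩
    refine ⟨R, h3, hα, ?_⟩
    have hX1 : (1 : ℝ) ≤ R.supNorm := by
      have h1 := Final_coeff R R.natDegree
      have h2 : (1 : ℝ) ≤ ((R.coeff R.natDegree : ℤ) : ℝ) := by exact_mod_cast hl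
      exact h2.trans ((le_abs_self _).trans h1)
    set X₀ := R.supNorm with hX₀
    have hX0 : 0 < X₀ := by linarith
    have hX4 : 0 < X₀ ^ 4 := by positivity
    by_cases hcase : X₀ ^ 4 * |(P m₀).a - (P (m₀ + 1)).a| < 4 * c
    · rw [le_div_iff₀ (hpos m₀)]
      have h1 : X₀ ≤ X₀ ^ 4 := le_self_pow₀ hX1 (by norm_num)
      have h2 := mul_le_mul_of_nonneg_right h1 (hpos m₀).le
      linarith
    · exfalso
      have hev : ∀ᶠ m : ℕ in atTop, X₀ ^ 4 * |(P m).a - (P (m + 1)).a| < 4 * c := by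
        have h1 := hη0.const_mul (X₀ ^ 4)
        rw [mul_zero] at h1
        exact h1.eventually_lt_const (by linarith)
      obtain ⟨m, hm, hlo, hhi⟩ := Final_cross
        (p := fun m => X₀ ^ 4 * |(P m).a - (P (m + 1)).a| < 4 * c) m₀ hcase
        ((eventually_ge_atTop m₀).and hev).exists
      have hlo' : 4 * c ≤ X₀ ^ 4 * |(P m).a - (P (m + 1)).a| := not_lt.mp hlo
      have hhi' : X₀ ^ 4 * |(P (m + 1)).a - (P (m + 2)).a| < 4 * c := hhi
      have htri : |α - (P (m + 1)).a| ≤ |ζ - α| + |ζ - (P (m + 1)).a| := by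
        have e : α - (P (m + 1)).a = (ζ - (P (m + 1)).a) - (ζ - α) := by ring
        rw [e]
        have := abs_sub (ζ - (P (m + 1)).a) (ζ - α)
        linarith
      have h1 := (hlim m).1
      have h2 := hdec m
      have h4 : |ζ - α| * X₀ ^ 4 ≤ c := by rwa [le_div_iff₀ hX4] at hclose
      have h5 : |ζ - α| ≤ |(P m).a - (P (m + 1)).a| / 4 := by
        by_contra hcon
        have := mul_lt_mul_of_pos_right (not_le.mp hcon) hX4
        linarith
      have h6 : |α - (P (m + 1)).a| ≤ |(P m).a - (P (m + 1)).a| / 2 := by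
        linarith
      have h7 : |α - (P (m + 1)).a| * X₀ ^ 4 ≤ K m := by
        have h8 := hm₀ m hm
        have h9 : |α - (P (m + 1)).a| ≤ |ζ - α| + 2 * |(P (m + 1)).a - (P (m + 2)).a| := by
          linarith
        have h10 := mul_le_mul_of_nonneg_right h9 hX4.le
        nlinarith
      have hroot : ((R.coeff 3 : ℤ) : ℝ) * α ^ 3 + (R.coeff 2 : ℤ) * α ^ 2 +
          (R.coeff 1 : ℤ) * α + (R.coeff 0 : ℤ) = 0 := by
        rw [Final_cubic h3] at hα
        simpa using hα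
      rcases hP m (fun i => R.coeff i) X₀ α hX0 (Final_coeff R) hroot h6 h7 with h | h
      · exact not_fac hR h3 (P m).pos.ne' h
      · exact not_fac hR h3 (P (m + 1)).pos.ne' h

end Pool.Agent.MP_06f5ad_nt.Q2
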