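import Pool.Agent.MP_06f5ad_nt.Q2.Pell
import Pool.Agent.MP_06f5ad_nt.Q2.Approx

/-!
The family of new quadratics.
-/

namespace Pool.Agent.MP_06f5ad_nt.Q2

open Filter Topology

theorem Gs_lip {f : ℝ → ℝ} (h : DifferentiableAt ℝ f 0) :
    ∃ C : ℝ, ∀ᶠ τ in 𝓝 (0 : ℝ), |f τ - f 0| ≤ C * |τ| := by
  obtain ⟨C, hC⟩ := h.isBigO_sub.bound
  exact ⟨C, hC.mono fun τ h => by simpa using h⟩

/-- Roots of a perturbed quadratic. -/
theorem roots {a x₀ y₀ : ℝ} (b₂ b₁ b₀ : ℝ) (ha : a ≠ 0) (hxy : x₀ ≠ y₀) :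
    ∃ (x y : ℝ → ℝ) (C : ℝ), ∀ᶠ τ in 𝓝 (0 : ℝ), |x τ - x₀| ≤ C * |τ| ∧ |y τ - y₀| ≤ C * |τ| ∧
      (a + τ * b₂) * (x τ + y τ) = a * (x₀ + y₀) - τ * b₁ ∧
      (a + τ * b₂) * (x τ * y τ) = a * (x₀ * y₀) + τ * b₀ := by
  set s : ℝ → ℝ := fun τ => (a * (x₀ + y₀) - τ * b₁) / (a + τ * b₂) with hs
  set p : ℝ → ℝ := fun τ => (a * (x₀ * y₀) + τ * b₀) / (a + τ * b₂) with hp
  set D : ℝ → ℝ := fun τ => s τ ^ 2 - 4 * p τ with hD
  set g : ℝ := (x₀ - y₀) / |x₀ - y₀| with hg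
  have hd : x₀ - y₀ ≠ 0 := sub_ne_zero.2 hxy
  have hd' : |x₀ - y₀| ≠ 0 := abs_ne_zero.2 hd
  have g2 : g ^ 2 = 1 := by rw [hg, div_pow, sq_abs, div_self (pow_ne_zero 2 hd)]
  have s0 : s 0 = x₀ + y₀ := by simp only [hs, zero_mul, add_zero, sub_zero]; field_simp
  have p0 : p 0 = x₀ * y₀ := by simp only [hp, zero_mul, add_zero]; field_simp
  have D0 : D 0 = (x₀ - y₀) ^ 2 := by simp only [hD]; rw [s0, p0]; ring
  have r0 : g * √(D 0) = x₀ - y₀ := by rw [D0, Real.sqrt_sq_eq_abs, hg, div_mul_cancel₀ _ hd']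
  have a0 : a + 0 * b₂ ≠ 0 := by simpa using ha
  have ds : DifferentiableAt ℝ s 0 := by
    simp only [hs]; exact DifferentiableAt.div (by fun_prop) (by fun_prop) a0
  have dp : DifferentiableAt ℝ p 0 := by
    simp only [hp]; exact DifferentiableAt.div (by fun_prop) (by fun_prop) a0
  have dD : DifferentiableAt ℝ D 0 := (ds.pow 2).sub (dp.const_mul 4)
  have Dpos : 0 < D 0 := by rw [D0]; positivity
  have dr : DifferentiableAt ℝ (fun τ => g * √(D τ)) 0 := (dD.sqrt Dpos.ne').const_mul g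
  obtain ⟨C₁, h₁⟩ := Gs_lip (f := fun τ => (s τ + g * √(D τ)) / 2) ((ds.add dr).div_const 2)
  obtain ⟨C₂, h₂⟩ := Gs_lip (f := fun τ => (s τ - g * √(D τ)) / 2) ((ds.sub dr).div_const 2)
  have h₃ : ∀ᶠ τ in 𝓝 (0 : ℝ), a + τ * b₂ ≠ 0 :=
    (show ContinuousAt (fun τ => a + τ * b₂) 0 by fun_prop).eventually_ne a0
  have h₄ : ∀ᶠ τ in 𝓝 (0 : ℝ), 0 < D τ := dD.continuousAt.eventually (lt_mem_nhds Dpos)
  refine ⟨fun τ => (s τ + g * √(D τ)) / 2, fun τ => (s τ - g * √(D τ)) / 2, max C₁ C₂, ?_⟩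
  filter_upwards [h₁, h₂, h₃, h₄] with τ k₁ k₂ k₃ k₄
  rw [s0, r0] at k₁ k₂
  refine ⟨?_, ?_, ?_, ?_⟩
  · rw [show (x₀ + y₀ + (x₀ - y₀)) / 2 = x₀ by ring] at k₁
    exact k₁.trans (mul_le_mul_of_nonneg_right (le_max_left _ _) (abs_nonneg _))
  · rw [show (x₀ + y₀ - (x₀ - y₀)) / 2 = y₀ by ring] at k₂
    exact k₂.trans (mul_le_mul_of_nonneg_right (le_max_right _ _) (abs_nonneg _))
  · rw [show (s τ + g * √(D τ)) / 2 + (s τ - g * √(D τ)) / 2 = s τ by ring]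
    exact mul_div_cancel₀ _ k₃
  · have h5 := Real.sq_sqrt k₄.le
    have h6 : (s τ + g * √(D τ)) / 2 * ((s τ - g * √(D τ)) / 2) = p τ := by
      have h7 : D τ = s τ ^ 2 - 4 * p τ := rfl
      linear_combination (-(√(D τ)) ^ 2 / 4) * g2 - h5 / 4 - h7 / 4
    rw [h6]
    exact mul_div_cancel₀ _ k₃

theorem Gs_ne {O : Tr} (hO : O.NS) (u : ℤ) {v : ℤ} (hv : v ≠ 0) : u ^ 2 - O.n * v ^ 2 ≠ 0 :=
  fun h => hv (hO.sq (k := u) (by linarith))

/-- The norm bound at the limit of the second root. -/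
theorem low_y (P : QF) {O : Tr} (hO : O.NS) {u v : ℤ} (hv : v ≠ 0) {φ y : ℝ}
    (hφ : φ = O.A * P.b + O.B + u / v) (hφ0 : φ ≠ 0) (hy : y = P.b - O.ev P.b / φ)
    {q p : ℤ} (hq : q ≠ 0) :
    1 ≤ P.A * (v : ℝ) ^ 2 * (|φ| * |q * y + p|) *
      (|O.A * P.a + O.B + u / v| * |q * P.a + p| + |(q : ℝ)| * |O.ev P.a|) := by
  obtain ⟨q', p', h0, h1⟩ := hmap (Gs_ne hO u hv) (p := p) (Or.inl hq)
  have hv' : (v : ℝ) ≠ 0 := by exact_mod_cast hv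
  have h2 := P.norm h0
  have e1 : q' * P.b + p' = v * (φ * (q * y + p)) := by
    have e : φ * (q * y + p) = φ * (q * P.b + p) - q * O.ev P.b := by
      rw [hy]; field_simp; ring
    rw [h1, e, hφ]; field_simp; ring
  have e2 : q' * P.a + p' = v * ((O.A * P.a + O.B + u / v) * (q * P.a + p) - q * O.ev P.a) := by
    rw [h1]; field_simp; ring
  have h3 : |(O.A * P.a + O.B + u / v) * (q * P.a + p) - q * O.ev P.a| ≤
      |O.A * P.a + O.B + u / v| * |q * P.a + p| + |(q : ℝ)| * |O.ev P.a| := by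
    rw [← abs_mul, ← abs_mul]; exact abs_sub _ _
  rw [e1, e2, abs_mul, abs_mul, abs_mul] at h2
  have h4 := mul_le_mul_of_nonneg_left h3
    (show 0 ≤ P.A * (v : ℝ) ^ 2 * (|φ| * |q * y + p|) by have := P.Apos; positivity)
  refine le_trans (h2.trans (le_of_eq ?_)) h4
  rw [← sq_abs (v : ℝ)]; ring

theorem Gs_low {N T X q : ℝ} (hN : 0 < N) (hT : 1 ≤ T) (hq : 1 ≤ q)
    (h : X ≤ 1 → 1 ≤ N * (T * (X * q))) : min 1 (1 / N) ≤ T * (X * q) := by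
  rcases le_total X 1 with h1 | h1
  · exact (min_le_right _ _).trans (by rw [div_le_iff₀ hN]; linarith [h h1])
  · exact (min_le_left _ _).trans (one_le_mul_of_one_le_of_one_le hT
      (one_le_mul_of_one_le_of_one_le h1 hq))

theorem ba_y (P : QF) {O : Tr} (hO : O.NS) {u v : ℤ} (hv : v ≠ 0) {φ y : ℝ}
    (hφ : φ = O.A * P.b + O.B + u / v) (hφ0 : φ ≠ 0) (hy : y = P.b - O.ev P.b / φ) : BA y := by
  have hA := P.Apos
  set ψ := |O.A * P.a + O.B + u / v| with hψ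
  set N : ℝ := P.A * (v : ℝ) ^ 2 * |φ| * (ψ * (1 + |y - P.a|) + |O.ev P.a|) + 1 with hN
  have hN0 : 0 < N := by positivity
  refine ⟨min 1 (1 / N), by positivity, fun q p hq => ?_⟩
  have hq1 := Approx_one_le hq
  have := Gs_low (T := 1) (X := |q * y + p|) hN0 le_rfl hq1 fun h1 => by
    have h2 := low_y P hO hv hφ hφ0 hy (p := p) hq
    have h3 := Approx_tri q p y P.a
    have h4 : |q * P.a + p| ≤ |(q : ℝ)| * (1 + |y - P.a|) := by linarith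
    have h5 := mul_le_mul_of_nonneg_left h4 (show 0 ≤ ψ by positivity)
    have h6 : ψ * |q * P.a + p| + |(q : ℝ)| * |O.ev P.a| ≤
        |(q : ℝ)| * (ψ * (1 + |y - P.a|) + |O.ev P.a|) := by linarith
    have h7 := mul_le_mul_of_nonneg_left h6
      (show 0 ≤ P.A * (v : ℝ) ^ 2 * (|φ| * |q * y + p|) by positivity)
    have h8 : 0 ≤ |q * y + p| * |(q : ℝ)| := by positivity
    rw [hN]
    linarith
  rwa [one_mul] at this

theorem Gs_conv {T x z A : ℕ → ℝ} {x₀ C α D : ℝ} (hT : Tendsto T atTop atTop) (hb : BA x₀)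
    (hα : 0 < α) (hD : 0 ≤ D)
    (h : ∀ᶠ k in atTop, |x k - x₀| * T k ^ 2 ≤ C ∧ A k ≤ α * T k ∧ |x k - z k| ≤ D ∧
      ∀ q p : ℤ, q ≠ 0 → 1 ≤ A k * (|q * x k + p| * |q * z k + p|)) : Conv T x x₀ := by
  refine ⟨hT, ⟨C, h.mono fun k h => h.1⟩, hb, min 1 (1 / (α * (1 + D))), by positivity, ?_⟩
  filter_upwards [h, hT.eventually_ge_atTop 1] with k ⟨_, h2, h3, h4⟩ h5 q p hq
  have hq1 := Approx_one_le hq
  refine Gs_low (by positivity) h5 hq1 fun h1 => ?_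
  have h6 := Approx_tri q p (x k) (z k)
  have h7 := mul_le_mul_of_nonneg_left h3 (abs_nonneg (q : ℝ))
  have h8 : |q * z k + p| ≤ |(q : ℝ)| * (1 + D) := by linarith
  calc (1 : ℝ) ≤ A k * (|q * x k + p| * |q * z k + p|) := h4 q p hq
    _ ≤ α * T k * (|q * x k + p| * |q * z k + p|) :=
      mul_le_mul_of_nonneg_right h2 (by positivity)
    _ ≤ α * T k * (|q * x k + p| * (|(q : ℝ)| * (1 + D))) := by gcongr
    _ = _ := by ring

/-- The real coefficients of the new quadratic. -/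
theorem Gs_coef (P : QF) (O : Tr) {u v : ℤ} (hv : v ≠ 0) {φ y : ℝ}
    (hφ : φ = O.A * P.b + O.B + u / v) (hφ0 : φ ≠ 0) (hy : y = P.b - O.ev P.b / φ) :
    ∃ b₂ b₁ b₀ : ℝ, ∀ (e U w : ℤ) (T : ℝ), 0 < T → U ^ 2 - P.n * (2 * (v * w)) ^ 2 = 1 →
      (U : ℝ) + (2 * (v * w) : ℤ) * P.r = T →
      ((St P.toTr O e U (v * w) (-2 * w * u)).A : ℝ) =
        e * (T / 2) * (-(P.A * φ / P.r) + (T ^ 2)⁻¹ * b₂) ∧
      -2 * ((St P.toTr O e U (v * w) (-2 * w * u)).B : ℝ) =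
        e * (T / 2) * (-(P.A * φ / P.r) * (P.a + y) - (T ^ 2)⁻¹ * b₁) ∧
      ((St P.toTr O e U (v * w) (-2 * w * u)).C : ℝ) =
        e * (T / 2) * (-(P.A * φ / P.r) * (P.a * y) + (T ^ 2)⁻¹ * b₀) := by
  have hv' : (v : ℝ) ≠ 0 := by exact_mod_cast hv
  have hr := P.r_ne
  set μ : ℝ := u / v with hμ
  have hu : (u : ℝ) = μ * v := by rw [hμ]; field_simp
  refine ⟨O.A + (P.A * O.B - O.A * P.B + μ * P.A) / P.r,
    2 * O.B + (P.A * O.C - O.A * P.C + 2 * μ * P.B) / P.r,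
    O.C + (P.B * O.C - O.B * P.C + μ * P.C) / P.r, fun e U w T hT hU hS => ?_⟩
  have hU' : (U : ℝ) ^ 2 - P.r ^ 2 * (2 * (v * w)) ^ 2 = 1 := by
    rw [P.r_sq]; exact_mod_cast hU
  push_cast at hS
  have h1 : (U : ℝ) - 2 * (v * w) * P.r = T⁻¹ := by
    refine eq_inv_of_mul_eq_one_left ?_
    rw [← hS]; linear_combination hU'
  have eU : (U : ℝ) = (T + T⁻¹) / 2 := by linarith
  have eV : (v : ℝ) * w = (T - T⁻¹) / (4 * P.r) := by field_simp; field_simp at h1; nlinarith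
  have f2 : -(P.A * φ / P.r) = O.A - (P.A * O.B - O.A * P.B + μ * P.A) / P.r := by
    have := P.r_b
    rw [hφ]; field_simp; linear_combination (-(O.A : ℝ)) * this
  have ey : φ * y = φ * P.b - O.ev P.b := by rw [hy]; field_simp
  have f1 : -(P.A * φ / P.r) * (P.a + y) =
      -(2 * O.B - (P.A * O.C - O.A * P.C + 2 * μ * P.B) / P.r) := by
    have : -(P.A * φ / P.r) * (P.a + y) = -(P.A * (φ * P.a + φ * y) / P.r) := by ring
    rw [this, ey, hφ]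
    field_simp
    unfold Tr.ev QF.r
    rw [P.B_eq, P.C_eq]; ring
  have f0 : -(P.A * φ / P.r) * (P.a * y) = O.C - (P.B * O.C - O.B * P.C + μ * P.C) / P.r := by
    have : -(P.A * φ / P.r) * (P.a * y) = -(P.A * P.a * (φ * y) / P.r) := by ring
    rw [this, ey, hφ]
    field_simp
    unfold Tr.ev QF.r
    rw [P.B_eq, P.C_eq]; ring
  have ek : (w : ℝ) * u = μ * (v * w) := by rw [hu]; ring
  rw [f1, f0, f2]
  simp only [St]
  push_cast
  refine ⟨?_, ?_, ?_⟩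
  · rw [mul_assoc (-2 : ℝ), ek, eV, eU]; field_simp; ring
  · rw [mul_assoc (-2 : ℝ) (w : ℝ), ek, eV, eU]; field_simp; ring
  · rw [mul_assoc (-2 : ℝ), ek, eV, eU]; field_simp; ring

/-- The family of new quadratics attached to the rational number `u / v`. -/
theorem gs (P : QF) {O : Tr} (hO : O.NS) (hr : res P.toTr O = 1) {u v : ℤ} (hv : v ≠ 0) {φ y : ℝ}
    (hφ : φ = O.A * P.b + O.B + u / v) (hφ0 : φ ≠ 0) (hy : y = P.b - O.ev P.b / φ)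
    (hya : y ≠ P.a) : ∃ (F : ℕ → QF) (T : ℕ → ℝ),
      Conv T (fun k => (F k).a) P.a ∧ Conv T (fun k => (F k).b) y ∧
      Tendsto (fun k => ((F k).A : ℝ)) atTop atTop ∧
      ∀ᶠ k in atTop, res P.toTr (F k).toTr = 1 ∧
        (u ^ 2 - O.n * v ^ 2 = 1 → ∃ U' : ℤ, U' ^ 2 - (F k).n * v ^ 2 = 1) := by
  obtain ⟨b₂, b₁, b₀, hb⟩ := Gs_coef P O hv hφ hφ0 hy
  set a : ℝ := -(P.A * φ / P.r) with ha
  have ha0 : a ≠ 0 := neg_ne_zero.2 (div_ne_zero (mul_ne_zero P.Apos.ne' hφ0) P.r_ne)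
  have hap : 0 < |a| := abs_pos.2 ha0
  obtain ⟨e, he, hea⟩ : ∃ e : ℤ, e ^ 2 = 1 ∧ e * a = |a| := by
    rcases le_total 0 a with h | h
    · exact ⟨1, by norm_num, by simp [abs_of_nonneg h]⟩
    · exact ⟨-1, by norm_num, by simp [abs_of_nonpos h]⟩
  have he1 : |(e : ℝ)| = 1 := by
    have : (e : ℝ) ^ 2 = 1 := by exact_mod_cast he
    exact (sq_eq_sq₀ (abs_nonneg _) zero_le_one).1 (by rw [sq_abs, this]; norm_num)
  obtain ⟨x, z, C, hxz⟩ := roots b₂ b₁ b₀ ha0 hya.symm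
  obtain ⟨ε, U, V, hε, hp⟩ := pell P (M := 10 * v) (mul_ne_zero (by norm_num) hv)
  have hT : Tendsto (fun k : ℕ => ε ^ k) atTop atTop := tendsto_pow_atTop_atTop_of_one_lt hε
  have hτ : Tendsto (fun k : ℕ => ((ε ^ k) ^ 2)⁻¹) atTop (𝓝 0) :=
    ((tendsto_pow_atTop two_ne_zero).comp hT).inv_tendsto_atTop
  have hs : ∀ c d : ℝ, 0 < d → ∀ᶠ k : ℕ in atTop, c * ((ε ^ k) ^ 2)⁻¹ ≤ d := fun c d hd => by
    have := hτ.const_mul c
    rw [mul_zero] at this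
    exact this.eventually (ge_mem_nhds hd)
  have key : ∀ᶠ k : ℕ in atTop, ∃ Q : QF, |Q.a - P.a| * (ε ^ k) ^ 2 ≤ C ∧
      |Q.b - y| * (ε ^ k) ^ 2 ≤ C ∧ |Q.a - Q.b| ≤ |P.a - y| + 2 ∧ |a| / 4 * ε ^ k ≤ Q.A ∧
      Q.A ≤ |a| * ε ^ k ∧ res P.toTr Q.toTr = 1 ∧
      (u ^ 2 - O.n * v ^ 2 = 1 → ∃ U' : ℤ, U' ^ 2 - Q.n * v ^ 2 = 1) := by
    filter_upwards [hτ.eventually hxz, hs |b₂| (|a| / 2) (by positivity), hs C 1 one_pos]
      with k ⟨k1, k2, k3, k4⟩ k5 k6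
    obtain ⟨p1, ⟨w, p2⟩, p3⟩ := hp k
    have hT0 : 0 < ε ^ k := by positivity
    have hV : V k = 2 * (v * (5 * w)) := by rw [p2]; ring
    rw [hV] at p1 p3
    obtain ⟨c2, c1, c0⟩ := hb e (U k) (5 * w) (ε ^ k) hT0 p1 p3
    set τ := ((ε ^ k) ^ 2)⁻¹ with hτd
    have hτ0 : 0 < τ := by positivity
    rw [abs_of_pos hτ0] at k1 k2
    have m1 : |e * (τ * b₂)| ≤ |a| / 2 := by
      rw [abs_mul, he1, one_mul, abs_mul, abs_of_pos hτ0]; linarith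
    rw [abs_le] at m1
    have c3 : ((St P.toTr O e (U k) (v * (5 * w)) (-2 * (5 * w) * u)).A : ℝ) =
        ε ^ k / 2 * (|a| + e * (τ * b₂)) := by rw [c2, ← hea]; ring
    have l1 : |a| / 4 * ε ^ k ≤ (St P.toTr O e (U k) (v * (5 * w)) (-2 * (5 * w) * u)).A := by
      rw [c3]; nlinarith
    have l2 : (St P.toTr O e (U k) (v * (5 * w)) (-2 * (5 * w) * u)).A ≤ |a| * ε ^ k := by
      rw [c3]; nlinarith
    refine ⟨⟨St P.toTr O e (U k) (v * (5 * w)) (-2 * (5 * w) * u), x τ, z τ, ?_, ?_, ?_, ?_⟩,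
      ?_, ?_, ?_, l1, l2, ?_, fun hu => St_unit hr he p1 hu⟩
    · exact_mod_cast lt_of_lt_of_le (show (0 : ℝ) < |a| / 4 * ε ^ k by positivity) l1
    · rw [c1, c2, mul_assoc, k3]
    · rw [c0, c2, mul_assoc, k4]
    · exact St_ns hO he p1 ⟨v * w, by ring⟩ ⟨-2 * w * u, by ring⟩
    · exact (le_div_iff₀ (by positivity)).1 k1
    · exact (le_div_iff₀ (by positivity)).1 k2
    · have h1 := abs_sub_le (x τ) P.a (z τ)
      have h2 := abs_sub_le P.a y (z τ)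
      rw [abs_sub_comm y] at h2
      show |x τ - z τ| ≤ _
      linarith
    · show res P.toTr (St _ _ _ _ _ _) = 1
      rw [St_res, he, p1, hr]; norm_num
  obtain ⟨F, hF⟩ := key.choice
  refine ⟨F, fun k => ε ^ k, ?_, ?_, ?_, hF.mono fun k h => h.2.2.2.2.2⟩
  · refine Gs_conv (z := fun k => (F k).b) (A := fun k => (F k).A) (C := C) hT P.ba_a hap
      (show 0 ≤ |P.a - y| + 2 by positivity) (hF.mono fun k h => ?_)
    exact ⟨h.1, h.2.2.2.2.1, h.2.2.1, fun q p hq => (F k).norm (Or.inl hq)⟩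
  · refine Gs_conv (z := fun k => (F k).a) (A := fun k => (F k).A) (C := C) hT
      (ba_y P hO hv hφ hφ0 hy) hap (show 0 ≤ |P.a - y| + 2 by positivity) (hF.mono fun k h => ?_)
    refine ⟨h.2.1, h.2.2.2.2.1, by rw [abs_sub_comm]; exact h.2.2.1, fun q p hq => ?_⟩
    rw [mul_comm |q * (F k).b + p|]
    exact (F k).norm (Or.inl hq)
  · exact tendsto_atTop_mono' _ (hF.mono fun k h => h.2.2.2.1)
      (hT.const_mul_atTop (by positivity))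

end Pool.Agent.MP_06f5ad_nt.Q2
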