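import Pool.Agent.MP_06f5ad_nt.Q2.Trans

/-!
Transfer of goodness, second part.
-/

namespace Pool.Agent.MP_06f5ad_nt.Q2

open Filter Topology

theorem Next_prod (P Q : QF) (hr : res P.toTr Q.toTr = 1) :
    |Q.A * P.ev Q.a| * |Q.A * P.ev Q.b| = 1 := by
  have h := Q.res_eq P.toTr
  rw [res_symm, hr] at h
  rw [← abs_mul, ← h]
  simp

theorem Next_evb (P Q : QF) :
    |Q.A * P.ev Q.b| = Q.A * P.A * (|P.a - Q.b| * |P.b - Q.b|) := by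
  rw [P.ev_eq, abs_mul, abs_mul, abs_mul, abs_of_pos Q.Apos, abs_of_pos P.Apos,
    abs_sub_comm Q.b P.a, abs_sub_comm Q.b P.b]
  ring

theorem Next_unit (Q : QF) {U v : ℤ} (hU : U ^ 2 - Q.n * v ^ 2 = 1) (hv : v ≠ 0) :
    ∃ U' v' : ℤ, U' ^ 2 - Q.n * v' ^ 2 = 1 ∧ |(v : ℝ)| * |Q.r| ≤ U' + v' * Q.r ∧
      U' + v' * Q.r ≤ 3 * (|(v : ℝ)| * |Q.r|) := by
  obtain ⟨v', h1, h2⟩ : ∃ v' : ℤ, v' ^ 2 = v ^ 2 ∧ (v' : ℝ) * Q.r = |(v : ℝ)| * |Q.r| := by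
    rcases le_total 0 ((v : ℝ) * Q.r) with h | h
    · exact ⟨v, rfl, by rw [← abs_mul, abs_of_nonneg h]⟩
    · exact ⟨-v, by ring, by rw [← abs_mul, abs_of_nonpos h]; push_cast; ring⟩
  have hU' : ((U : ℝ)) ^ 2 - Q.n * (v : ℝ) ^ 2 = 1 := by exact_mod_cast hU
  have hv1 : (1 : ℝ) ≤ (v : ℝ) ^ 2 := by
    have : 0 < v ^ 2 := by positivity
    exact_mod_cast this
  have hn := Q.one_le_n
  have hm : (|(v : ℝ)| * |Q.r|) ^ 2 = Q.n * (v : ℝ) ^ 2 := by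
    rw [mul_pow, sq_abs, sq_abs, Q.r_sq]; ring
  have h1' : (1 : ℝ) ≤ Q.n * (v : ℝ) ^ 2 := by nlinarith
  have h3 : |(U : ℝ)| ≤ 2 * (|(v : ℝ)| * |Q.r|) := by
    apply abs_le_of_sq_le_sq' _ (by positivity) |>.2
    rw [sq_abs, mul_pow, hm]
    nlinarith
  refine ⟨|U|, v', by rw [sq_abs, h1]; exact hU, ?_, ?_⟩
  · rw [h2]; push_cast; linarith [abs_nonneg (U : ℝ)]
  · rw [h2]; push_cast; linarith

/-- The small unit of the new quadratic. -/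
theorem gd_w (P Q : QF) (hr : res P.toTr Q.toTr = 1) {U v : ℤ} (hU : U ^ 2 - Q.n * v ^ 2 = 1)
    (hv : v ≠ 0) : ∃ σ : ℝ, 0 < σ ∧
      2 * (|(v : ℝ)| * P.A * (|P.a - Q.b| * |P.b - Q.b|)) ≤ σ * |Q.a - Q.b| ∧
      σ * |Q.a - Q.b| ≤ 6 * (|(v : ℝ)| * P.A * (|P.a - Q.b| * |P.b - Q.b|)) ∧
      ∀ (W : ℝ) (l : ℕ), Gd W l Q.a Q.b σ → Gd W l Q.b Q.a (Q.n : ℝ)⁻¹ := by
  obtain ⟨U', v', hU', hlo, hhi⟩ := Next_unit Q hU hv
  obtain ⟨T, hT⟩ : ∃ T : ℝ, T = U' + v' * Q.r := ⟨_, rfl⟩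
  rw [← hT] at hlo hhi
  have hr0 : 0 < |Q.r| := abs_pos.2 Q.r_ne
  have hv0 : 0 < |(v : ℝ)| := abs_pos.2 (by exact_mod_cast hv)
  have hT0 : 0 < T := lt_of_lt_of_le (by positivity) hlo
  have hTi : (U' - v' * Q.r) * T = 1 := by
    have : ((U' : ℝ)) ^ 2 - Q.n * (v' : ℝ) ^ 2 = 1 := by exact_mod_cast hU'
    rw [hT, ← Q.r_sq] at *
    linear_combination this
  have hTi' : (U' : ℝ) - v' * Q.r = T⁻¹ := eq_inv_of_mul_eq_one_left hTi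
  have hp := Next_prod P Q hr
  obtain ⟨x, hx⟩ : ∃ x : ℝ, x = |Q.A * P.ev Q.a| := ⟨_, rfl⟩
  obtain ⟨y, hy⟩ : ∃ y : ℝ, y = |Q.A * P.ev Q.b| := ⟨_, rfl⟩
  rw [← hx, ← hy] at hp
  have hx0 : 0 < x := by
    rcases (hx ▸ abs_nonneg _ : 0 ≤ x).eq_or_lt with h | h
    · rw [← h] at hp; simp at hp
    · exact h
  have hy0 : 0 < y := by
    rcases (hy ▸ abs_nonneg _ : 0 ≤ y).eq_or_lt with h | h
    · rw [← h] at hp; simp at hp
    · exact h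
  have hn0 : (0 : ℝ) < Q.n := lt_of_lt_of_le one_pos Q.one_le_n
  have hnr : (Q.n : ℝ) = |Q.r| ^ 2 := by rw [sq_abs, Q.r_sq]
  have hab : Q.A * |Q.a - Q.b| = 2 * |Q.r| := by
    unfold QF.r
    rw [abs_div, abs_mul, abs_of_pos Q.Apos, abs_two]
    ring
  obtain ⟨D, hD⟩ : ∃ D : ℝ, D = P.A * (|P.a - Q.b| * |P.b - Q.b|) := ⟨_, rfl⟩
  have hD0 : 0 ≤ D := by rw [hD]; have := P.Apos; positivity
  have hyD : y = Q.A * D := by rw [hy, Next_evb, hD]; ring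
  have key : T * y / Q.n * |Q.a - Q.b| = 2 * (T / |Q.r|) * D := by
    rw [hyD, hnr]
    field_simp
    linear_combination D * hab
  have hq1 : |(v : ℝ)| ≤ T / |Q.r| := by rw [le_div_iff₀ hr0]; exact hlo
  have hq2 : T / |Q.r| ≤ 3 * |(v : ℝ)| := by rw [div_le_iff₀ hr0]; linarith
  refine ⟨T * y / Q.n, by positivity, ?_, ?_, fun W l hg => ?_⟩
  · rw [key, mul_assoc |(v : ℝ)|, ← hD]; nlinarith
  · rw [key, mul_assoc |(v : ℝ)|, ← hD]; nlinarith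
  · have e : T * y / Q.n * (x / T) = (Q.n : ℝ)⁻¹ := by
      field_simp
      linear_combination hp
    rw [← e]
    refine gd_swap (by positivity) (by positivity) (fun q p h => ?_) hg
    obtain ⟨q1, p1, h1, e1, e2⟩ := Q.refl (O := P.toTr) (by rw [res_symm]; exact hr) h
    obtain ⟨q2, p2, h2, e3, e4⟩ := Q.unit (U := U') (V := -v') (by rw [neg_sq]; exact hU') h1
    refine ⟨q2, p2, h2, ?_, ?_⟩
    · have : (U' : ℝ) + ((-v' : ℤ) : ℝ) * Q.r = T⁻¹ := by rw [← hTi']; push_cast; ring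
      rw [e3, this, e1, abs_mul, abs_mul, ← hx, abs_of_pos (inv_pos.2 hT0)]
      field_simp
    · have : (U' : ℝ) - ((-v' : ℤ) : ℝ) * Q.r = T := by rw [hT]; push_cast; ring
      rw [e4, this, e2, abs_mul, abs_mul, ← hy, abs_of_pos hT0]
      field_simp
      linear_combination |q * Q.a + p| * hp

/-- The distance of the first roots. -/
theorem eta_eq (P Q : QF) (hr : res P.toTr Q.toTr = 1) :
    (P.A : ℝ) ^ 2 * (Q.A : ℝ) ^ 2 * (|P.a - Q.a| * |P.a - Q.b| * |P.b - Q.a| * |P.b - Q.b|) = 1 := by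
  have h := P.res_eq Q.toTr
  rw [hr, Q.ev_eq, Q.ev_eq] at h
  have h2 : (P.A : ℝ) ^ 2 * (Q.A : ℝ) ^ 2 *
      ((P.a - Q.a) * (P.a - Q.b) * (P.b - Q.a) * (P.b - Q.b)) = 1 := by
    push_cast at h
    linear_combination -h
  have h3 := congrArg abs h2
  rw [abs_mul, abs_mul, abs_mul, abs_mul, abs_mul, abs_one, abs_of_nonneg (sq_nonneg _),
    abs_of_nonneg (sq_nonneg _)] at h3
  exact h3

theorem Next_cmp {w x y z : ℝ} (hw : 0 < w) (hx : 1 / 2 ≤ w * x) (hx' : w * x ≤ 10)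
    (hy : 1 / 2 ≤ w * y) (hy' : w * y ≤ 10) (hz : 1 / 2 ≤ w * z) (hz' : w * z ≤ 10) :
    x ^ 2 ≤ 400 * (y * z) ∧ y * z ≤ 400 * x ^ 2 := by
  have hw2 : 0 < w ^ 2 := by positivity
  have a1 : (w * x) ^ 2 ≤ 100 := by nlinarith
  have a2 : 1 / 4 ≤ (w * x) ^ 2 := by nlinarith
  have a3 : 1 / 4 ≤ (w * y) * (w * z) := by nlinarith
  have a4 : (w * y) * (w * z) ≤ 100 := by nlinarith
  constructor
  · refine le_of_mul_le_mul_left ?_ hw2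
    nlinarith
  · refine le_of_mul_le_mul_left ?_ hw2
    nlinarith

theorem Next_pos {w x : ℝ} (hw : 0 < w) (h : 1 / 2 ≤ w * x) : 0 < x := by
  by_contra hc
  push Not at hc
  nlinarith

theorem Next_br1 {W A ν d2 d3 d5 x y q : ℝ} (hW : 2 ^ 100 ≤ W) (hA : W ^ 600 ≤ A)
    (hν : ν = A ^ 2 * (d3 * d5)) (h2 : 1 / 2 ≤ W ^ 20 * d2) (h3 : 1 / 2 ≤ W ^ 20 * d3)
    (h5 : 1 / 2 ≤ W ^ 20 * d5) (hx : 0 ≤ x) (hq : 0 ≤ q) (hd : 1 / A ^ 2 ≤ x * q ^ 3)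
    (hy : q * d2 / 2 ≤ y) : W ^ 25 ≤ W ^ 3 * (ν⁻¹ * x) * (y / ν⁻¹) ^ 3 := by
  have hW1 : (1024 : ℝ) ≤ W := le_trans (by norm_num) hW
  have hW0 : 0 < W := by linarith
  have hA0 : 0 < A := lt_of_lt_of_le (by positivity) hA
  have hw : 0 < W ^ 20 := by positivity
  have p2 : 0 < d2 := Next_pos hw h2
  have p3 : 0 < d3 := Next_pos hw h3
  have p5 : 0 < d5 := Next_pos hw h5
  have hν0 : 0 < ν := by rw [hν]; positivity
  have e : W ^ 3 * (ν⁻¹ * x) * (y / ν⁻¹) ^ 3 = W ^ 3 * ν ^ 2 * (x * y ^ 3) := by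
    field_simp
  rw [e]
  have b1 : (q * d2 / 2) ^ 3 ≤ y ^ 3 := pow_le_pow_left₀ (by positivity) hy 3
  have b2 : 1 / A ^ 2 * (d2 ^ 3 / 8) ≤ x * y ^ 3 := by
    calc 1 / A ^ 2 * (d2 ^ 3 / 8) ≤ x * q ^ 3 * (d2 ^ 3 / 8) := by gcongr
      _ = x * (q * d2 / 2) ^ 3 := by ring
      _ ≤ x * y ^ 3 := by gcongr
  have b3 : (1 / 2) ^ 3 * ((1 / 2) ^ 2 * (1 / 2) ^ 2) ≤
      (W ^ 20 * d2) ^ 3 * ((W ^ 20 * d3) ^ 2 * (W ^ 20 * d5) ^ 2) := by gcongr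
  have b4 : W ^ 1200 ≤ A ^ 2 := by
    calc W ^ 1200 = (W ^ 600) ^ 2 := by ring
      _ ≤ A ^ 2 := by gcongr
  have b5 : 1024 * W ^ 162 ≤ W ^ 1200 := by
    calc 1024 * W ^ 162 ≤ W * W ^ 162 := by gcongr
      _ = W ^ 163 := by ring
      _ ≤ W ^ 1200 := pow_le_pow_right₀ (by linarith) (by norm_num)
  have hw' : 0 < W ^ 140 := by positivity
  calc W ^ 25 ≤ W ^ 3 * ν ^ 2 * (1 / A ^ 2 * (d2 ^ 3 / 8)) := by
        refine le_of_mul_le_mul_left ?_ hw'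
        have e2 : W ^ 140 * (W ^ 3 * ν ^ 2 * (1 / A ^ 2 * (d2 ^ 3 / 8))) = W ^ 3 * A ^ 2 / 8 *
            ((W ^ 20 * d2) ^ 3 * ((W ^ 20 * d3) ^ 2 * (W ^ 20 * d5) ^ 2)) := by
          rw [hν]; field_simp
        rw [e2]
        calc W ^ 140 * W ^ 25 = W ^ 3 * (1024 * W ^ 162) / 8 *
              ((1 / 2) ^ 3 * ((1 / 2) ^ 2 * (1 / 2) ^ 2)) := by ring
          _ ≤ _ := by
            have := b5.trans b4
            gcongr
    _ ≤ _ := by gcongr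

theorem Next_err {W A A' ν η d2 d3 d4 d5 x q : ℝ} (hW : 2 ^ 100 ≤ W) (hA : 1 ≤ A)
    (hAQ : A ^ 2 * W ^ 200 ≤ A') (hν : ν = A ^ 2 * (d3 * d5)) (h2 : 1 / 2 ≤ W ^ 20 * d2)
    (h3 : 1 / 2 ≤ W ^ 20 * d3) (h3' : W ^ 20 * d3 ≤ 10) (h4 : 1 / 2 ≤ W ^ 20 * d4)
    (h5 : 1 / 2 ≤ W ^ 20 * d5) (h5' : W ^ 20 * d5 ≤ 10) (hη : 0 ≤ η) (hq : 0 ≤ q)
    (he : A ^ 2 * A' ^ 2 * (η * d3 * d4 * d5) = 1) (hx : q * d2 / 2 ≤ x)
    (hX : W ^ 3 * (ν⁻¹ * x) ≤ W ^ 85) : W ^ 25 * (ν * (q * η)) ≤ 1 := by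
  have hW1 : (2 : ℝ) ^ 20 ≤ W := le_trans (by norm_num) hW
  have hW0 : 0 < W := lt_of_lt_of_le (by norm_num) hW1
  have hW2 : 1 ≤ W := le_trans (by norm_num) hW1
  have hA0 : 0 < A := by linarith
  have hw : 0 < W ^ 20 := by positivity
  have p2 : 0 < d2 := Next_pos hw h2
  have p3 : 0 < d3 := Next_pos hw h3
  have p4 : 0 < d4 := Next_pos hw h4
  have p5 : 0 < d5 := Next_pos hw h5
  have hν0 : 0 < ν := by rw [hν]; positivity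
  have c1 : x ≤ ν * W ^ 82 := by
    have : W ^ 3 * (ν⁻¹ * x) ≤ W ^ 3 * W ^ 82 := by rw [← pow_add]; exact hX
    have := le_of_mul_le_mul_left this (by positivity)
    rwa [inv_mul_le_iff₀ hν0] at this
  have c2 : q ≤ 4 * ν * W ^ 102 := by
    calc q = 2 * q * (1 / 2) := by ring
      _ ≤ 2 * q * (W ^ 20 * d2) := by gcongr
      _ = 4 * W ^ 20 * (q * d2 / 2) := by ring
      _ ≤ 4 * W ^ 20 * (ν * W ^ 82) := by gcongr; exact hx.trans c1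
      _ = _ := by ring
  have c3 : W ^ 40 * ν ≤ 100 * A ^ 2 := by
    calc W ^ 40 * ν = A ^ 2 * ((W ^ 20 * d3) * (W ^ 20 * d5)) := by rw [hν]; ring
      _ ≤ A ^ 2 * (10 * 10) := by gcongr
      _ = _ := by ring
  have c4 : A ^ 4 * W ^ 400 * η ≤ 8 * W ^ 60 := by
    have hA2 : 1 ≤ A ^ 2 := one_le_pow₀ hA
    calc A ^ 4 * W ^ 400 * η = 8 * (1 * (A ^ 2 * W ^ 200) ^ 2 * (η * (1 / 2) * (1 / 2) * (1 / 2))) := by
          ring
      _ ≤ 8 * (A ^ 2 * A' ^ 2 * (η * (W ^ 20 * d3) * (W ^ 20 * d4) * (W ^ 20 * d5))) := by gcongr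
      _ = 8 * W ^ 60 * (A ^ 2 * A' ^ 2 * (η * d3 * d4 * d5)) := by ring
      _ = _ := by rw [he, mul_one]
  have hw' : 0 < W ^ 480 := by positivity
  refine le_of_mul_le_mul_left ?_ hw'
  calc W ^ 480 * (W ^ 25 * (ν * (q * η))) ≤ W ^ 480 * (W ^ 25 * (ν * (4 * ν * W ^ 102 * η))) := by
        gcongr
    _ = 4 * W ^ 127 * ((W ^ 40 * ν) ^ 2 * (W ^ 400 * η)) := by
        have e : W ^ 480 = W ^ 80 * W ^ 400 := by rw [← pow_add]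
        rw [e]
        generalize W ^ 400 = Z
        ring
    _ ≤ 4 * W ^ 127 * ((100 * A ^ 2) ^ 2 * (W ^ 400 * η)) :=
        mul_le_mul_of_nonneg_left (mul_le_mul_of_nonneg_right
          (pow_le_pow_left₀ (mul_pos (pow_pos hW0 _) hν0).le c3 2)
          (mul_nonneg (pow_pos hW0 _).le hη)) (mul_pos four_pos (pow_pos hW0 _)).le
    _ = 40000 * W ^ 127 * (A ^ 4 * W ^ 400 * η) := by ring
    _ ≤ 40000 * W ^ 127 * (8 * W ^ 60) := by gcongr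
    _ = 320000 * W ^ 187 := by ring
    _ ≤ W * W ^ 187 := by gcongr; exact le_trans (by norm_num) hW1
    _ = W ^ 188 := by ring
    _ ≤ W ^ 480 := pow_le_pow_right₀ hW2 (by norm_num)
    _ = _ := by ring

theorem Next_tri (q p x y : ℝ) : |q * x + p| ≤ |q * y + p| + |q| * |x - y| := by
  rw [← abs_mul]
  have : q * x + p = (q * y + p) + q * (x - y) := by ring
  rw [this]
  exact abs_add_le _ _

theorem Next_first (P Q : QF) {W : ℝ} (hW : 2 ^ 100 ≤ W) (hr : res P.toTr Q.toTr = 1)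
    (hs : Shape W P Q) (hA : W ^ 600 ≤ P.A) (hAQ : (P.A : ℝ) ^ 2 * W ^ 200 ≤ Q.A)
    (hd : Dio Q.b (1 / (P.A : ℝ) ^ 2)) (hg : Gd W 2 P.b P.a (P.n : ℝ)⁻¹) {ν : ℝ}
    (hν : ν = (P.A : ℝ) ^ 2 * (|P.a - Q.b| * |P.b - Q.b|)) (hν0 : 0 < ν) :
    Gd W 3 Q.b Q.a ν⁻¹ := by
  intro q p h hX
  have hW0 : 0 < W := lt_of_lt_of_le (by norm_num) hW
  have hw : 0 < W ^ 20 := by positivity
  have hn0 : (0 : ℝ) < P.n := lt_of_lt_of_le one_pos P.one_le_n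
  have hA2 : (0 : ℝ) < (P.A : ℝ) ^ 2 := by have := P.Apos; positivity
  by_cases hc : |q * Q.b + p| < |(q : ℝ)| * |Q.a - Q.b| / 2
  · left
    have hq : q ≠ 0 := by
      rintro rfl
      simp at hc
      linarith [abs_nonneg (p : ℝ)]
    refine Next_br1 hW hA hν hs.l2 hs.l3 hs.l5 (abs_nonneg _) (abs_nonneg _) (hd q p hq) ?_
    have e : (q : ℝ) * (Q.a - Q.b) = (q * Q.a + p) - (q * Q.b + p) := by ring
    have := abs_sub (q * Q.a + p : ℝ) (q * Q.b + p)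
    rw [← e, abs_mul] at this
    linarith
  · push Not at hc
    obtain ⟨c1, c2⟩ := Next_cmp hw hs.l1 hs.u1 hs.l3 hs.u3 hs.l5 hs.u5
    have hn : (P.n : ℝ) = P.A ^ 2 * |P.a - P.b| ^ 2 / 4 := by rw [sq_abs]; exact P.n_eq
    have n1 : (P.n : ℝ) ≤ 100 * ν := by rw [hn, hν]; nlinarith
    have n2 : ν ≤ 1600 * P.n := by rw [hn, hν]; nlinarith
    have er := Next_err hW P.one_le_A hAQ hν hs.l2 hs.l3 hs.u3 hs.l4 hs.l5 hs.u5 (abs_nonneg _)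
      (abs_nonneg (q : ℝ)) (eta_eq P Q hr) hc hX
    have d5 : |P.b - Q.b| ≤ 20 * |Q.a - Q.b| := by
      refine le_of_mul_le_mul_left ?_ hw
      have := hs.u5
      have := hs.l2
      nlinarith
    have t1 : |q * P.b + p| ≤ 41 * |q * Q.b + p| := by
      have := Next_tri q p P.b Q.b
      have h2 : |(q : ℝ)| * |P.b - Q.b| ≤ |(q : ℝ)| * (20 * |Q.a - Q.b|) := by gcongr
      linarith
    have t2 := Next_tri q p P.a Q.a
    have t3 := Next_tri q p Q.a P.a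
    rw [abs_sub_comm Q.a P.a] at t3
    have hW25 : 0 < W ^ 25 := by positivity
    refine ok_trans (l := 2) hW (by positivity) (by positivity) (by positivity) (by positivity)
      (hg q p h) ?_ ?_ ?_ hX
    · have i1 : (P.n : ℝ)⁻¹ ≤ 1600 * ν⁻¹ := by
        rw [← div_eq_mul_inv, inv_eq_one_div, div_le_div_iff₀ hn0 hν0]; linarith
      calc (P.n : ℝ)⁻¹ * |q * P.b + p| ≤ (1600 * ν⁻¹) * (41 * |q * Q.b + p|) := by gcongr
        _ = 65600 * (ν⁻¹ * |q * Q.b + p|) := by ring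
        _ ≤ _ := by gcongr; norm_num
    · rw [div_inv_eq_mul, div_inv_eq_mul]
      have hb : 0 ≤ W ^ 25 * (|q * Q.a + p| * ν) := by positivity
      calc W ^ 25 * (|q * P.a + p| * P.n)
          ≤ W ^ 25 * ((|q * Q.a + p| + |(q : ℝ)| * |P.a - Q.a|) * (100 * ν)) := by gcongr
        _ = 100 * (W ^ 25 * (|q * Q.a + p| * ν) + W ^ 25 * (ν * (|(q : ℝ)| * |P.a - Q.a|))) := by
          ring
        _ ≤ _ := by linarith
    · rw [div_inv_eq_mul, div_inv_eq_mul]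
      have hb : 0 ≤ W ^ 25 * (|q * P.a + p| * P.n) := by positivity
      have hb2 : W ^ 25 * (|q * P.a + p| * ν) ≤ W ^ 25 * (|q * P.a + p| * (1600 * P.n)) := by
        gcongr
      calc W ^ 25 * (|q * Q.a + p| * ν)
          ≤ W ^ 25 * ((|q * P.a + p| + |(q : ℝ)| * |P.a - Q.a|) * ν) := by gcongr
        _ = W ^ 25 * (|q * P.a + p| * ν) + W ^ 25 * (ν * (|(q : ℝ)| * |P.a - Q.a|)) := by ring
        _ ≤ _ := by linarith

/-- From one quadratic to the next pair. -/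
theorem gd_next (P Q : QF) {W : ℝ} (hW : 2 ^ 100 ≤ W) (hr : res P.toTr Q.toTr = 1)
    (hs : Shape W P Q) (hA : W ^ 600 ≤ P.A) (hAQ : (P.A : ℝ) ^ 2 * W ^ 200 ≤ Q.A)
    (hd : Dio Q.b (1 / (P.A : ℝ) ^ 2)) (hg : Gd W 2 P.b P.a (P.n : ℝ)⁻¹) :
    Gd W 3 Q.a Q.b ((Q.A : ℝ) / P.A) := by
  have hp := Next_prod P Q hr
  have hb := Next_evb P Q
  have hP := P.Apos
  have hQ := Q.Apos
  obtain ⟨D, hD⟩ : ∃ D : ℝ, D = |P.a - Q.b| * |P.b - Q.b| := ⟨_, rfl⟩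
  have hD0 : 0 < D := by
    rcases (by rw [hD]; positivity : 0 ≤ D).eq_or_lt with h | h
    · rw [hb, ← hD, ← h] at hp; simp at hp
    · exact h
  have h1 := Next_first P Q hW hr hs hA hAQ hd hg (ν := (P.A : ℝ) ^ 2 * D) (by rw [hD])
    (by positivity)
  rw [← hD] at hb
  have e : ((P.A : ℝ) ^ 2 * D)⁻¹ * (Q.A * P.A * D) = (Q.A : ℝ) / P.A := by field_simp
  rw [← e]
  refine gd_swap (by positivity) (by positivity) (fun q p h => ?_) h1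
  obtain ⟨q1, p1, h1, e1, e2⟩ := Q.refl (O := P.toTr) (by rw [res_symm]; exact hr) h
  refine ⟨q1, p1, h1, ?_, ?_⟩
  · rw [e2, abs_mul, hb]
  · rw [e1, abs_mul, ← hb]
    linear_combination |q * Q.b + p| * hp

end Pool.Agent.MP_06f5ad_nt.Q2
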