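import Pool.Agent.MP_06f5ad_nt.Q2.Next

/-!
Cubics near a pair.
-/

namespace Pool.Agent.MP_06f5ad_nt.Q2

open Filter Topology

lemma pair_mul {a b X Y : ℝ} (ha : |a| ≤ X) (hb : |b| ≤ Y) : |a * b| ≤ X * Y := by
  rw [abs_mul]
  exact mul_le_mul ha hb (abs_nonneg _) ((abs_nonneg _).trans ha)

lemma pair_lip {a b c d X x y : ℝ} (ha : |a| ≤ X) (hb : |b| ≤ X) (hc : |c| ≤ X) (hx : |x| ≤ 1)
    (hy : |y| ≤ 1) (h : a * x ^ 3 + b * x ^ 2 + c * x + d = 0) :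
    |a * y ^ 3 + b * y ^ 2 + c * y + d| ≤ 6 * X * |y - x| := by
  have e : a * y ^ 3 + b * y ^ 2 + c * y + d =
      (a * (y * y) + a * (x * y) + a * (x * x) + b * x + b * y + c) * (y - x) := by
    linear_combination h
  rw [e]
  refine pair_mul (abs_le.mpr ?_) le_rfl
  have h1 := abs_le.mp (pair_mul ha (pair_mul hy hy))
  have h2 := abs_le.mp (pair_mul ha (pair_mul hx hy))
  have h3 := abs_le.mp (pair_mul ha (pair_mul hx hx))
  have h4 := abs_le.mp (pair_mul hb hx)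
  have h5 := abs_le.mp (pair_mul hb hy)
  have h6 := abs_le.mp hc
  constructor <;> linarith

lemma pair_a {u d d' z h w : ℝ} (hd : 0 < d) (hz : z ≤ d') (hu : 0 ≤ u) (hh : 0 ≤ h)
    (H : d * d' * u ≤ 6 * h * w) (hw : w ≤ 3 / 2 * d) : u * z ≤ 9 * h := by
  have h1 : d * (d' * u) ≤ d * (9 * h) := by nlinarith [mul_le_mul_of_nonneg_left hw hh]
  have h2 := le_of_mul_le_mul_left h1 hd
  nlinarith [mul_le_mul_of_nonneg_left hz hu]

lemma pair_b {W z s A h η e d3 d4 d5 ux vx : ℝ} (hz : 0 ≤ z) (hs : 0 ≤ s) (he : 0 ≤ e)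
    (hux : 0 ≤ ux) (l3 : 0 ≤ d3) (u3 : d3 ≤ 20 * z) (l5 : 0 ≤ d5) (u5 : d5 ≤ 20 * z)
    (hη : A ^ 2 * (s * A) ^ 2 * (η * d3 * d4 * d5) = 1) (hK : e * (h * (s * A)) ^ 4 ≤ W)
    (H : η * d4 * vx ≤ 84 * (s * e * z * ux)) : s * vx * h ^ 4 ≤ 33600 * (W * z ^ 3 * ux) := by
  have h1 : d3 * d5 ≤ 20 * z * (20 * z) := mul_le_mul u3 u5 l5 (by positivity)
  calc s * vx * h ^ 4 = s ^ 3 * A ^ 4 * h ^ 4 * (d3 * d5 * (η * d4 * vx)) := by
        linear_combination (-(s * vx * h ^ 4)) * hη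
    _ ≤ s ^ 3 * A ^ 4 * h ^ 4 * (20 * z * (20 * z) * (84 * (s * e * z * ux))) := by
        refine mul_le_mul_of_nonneg_left ?_ (by positivity)
        exact (mul_le_mul_of_nonneg_left H (by positivity)).trans
          (mul_le_mul_of_nonneg_right h1 (by positivity))
    _ = 33600 * (e * (h * (s * A)) ^ 4 * z ^ 3 * ux) := by ring
    _ ≤ 33600 * (W * z ^ 3 * ux) := by gcongr

lemma pair_c {W z s A h e ux vx vb Y k : ℝ} (hz : 0 < z) (hs : 0 ≤ s) (hh : 0 ≤ h) (he : 0 ≤ e)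
    (hvb : 0 ≤ vb) (hez : e ≤ z / 2) (h1 : vb ≤ vx + k * e) (h2 : k * z ≤ vb + Y * s)
    (hY : Y * z ≤ 126 * h) (hA : 1 ≤ s ^ 2 * A ^ 4 * z ^ 5) (hK : e * (h * (s * A)) ^ 4 ≤ W)
    (H : s * vx * h ^ 4 ≤ 33600 * (W * z ^ 3 * ux)) :
    s * vb * h ^ 4 ≤ 67200 * (W * z ^ 3 * ux) + 252 * (W * z ^ 3 * h) := by
  have a1 : vb * z ≤ 2 * (vx * z) + 2 * (e * (Y * s)) := by
    nlinarith [mul_le_mul_of_nonneg_right h1 hz.le, mul_le_mul_of_nonneg_left h2 he,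
      mul_le_mul_of_nonneg_left hez hvb]
  have a2 : e * s ^ 2 * h ^ 4 ≤ W * z ^ 5 :=
    calc e * s ^ 2 * h ^ 4 ≤ e * s ^ 2 * h ^ 4 * (s ^ 2 * A ^ 4 * z ^ 5) :=
          le_mul_of_one_le_right (by positivity) hA
      _ = e * (h * (s * A)) ^ 4 * z ^ 5 := by ring
      _ ≤ W * z ^ 5 := by gcongr
  refine le_of_mul_le_mul_right ?_ (pow_pos hz 2)
  calc s * vb * h ^ 4 * z ^ 2 = vb * z * (s * h ^ 4 * z) := by ring
    _ ≤ (2 * (vx * z) + 2 * (e * (Y * s))) * (s * h ^ 4 * z) := by gcongr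
    _ = 2 * (s * vx * h ^ 4) * z ^ 2 + 2 * (e * s ^ 2 * h ^ 4) * (Y * z) := by ring
    _ ≤ 2 * (33600 * (W * z ^ 3 * ux)) * z ^ 2 + 2 * (e * s ^ 2 * h ^ 4) * (126 * h) := by gcongr
    _ ≤ 2 * (33600 * (W * z ^ 3 * ux)) * z ^ 2 + 2 * (W * z ^ 5) * (126 * h) := by gcongr
    _ = _ := by ring

lemma pair_d {W z h ux T : ℝ} (hW : 0 ≤ W) (hz1 : z ≤ 1) (hh : 0 < h)
    (hu : ux * z ≤ 36 * h) (H : T * h ^ 4 ≤ 67200 * (W * z ^ 3 * ux) + 252 * (W * z ^ 3 * h)) :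
    T * h ^ 3 ≤ 2500000 * (W * z ^ 2) := by
  refine le_of_mul_le_mul_right ?_ hh
  have a1 : W * z ^ 2 * (ux * z) ≤ W * z ^ 2 * (36 * h) := by gcongr
  have a2 : W * z ^ 2 * h * z ≤ W * z ^ 2 * h * 1 := by gcongr
  have a3 : 0 ≤ W * z ^ 2 * h := by positivity
  nlinarith

lemma pair_e {W z h T : ℝ} (hW : 2 ^ 100 ≤ W) (hz : 0 < z) (hWz : 2 * W ^ 20 * z = 1) (hT : 0 ≤ T)
    (hh : z ^ 2 ≤ 18 * h) (H : T * h ^ 3 ≤ 2500000 * (W * z ^ 2)) : T ≤ W ^ 82 := by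
  have hW0 : 0 ≤ W := le_trans (by norm_num) hW
  have a1 : T * z ^ 4 ≤ 18 ^ 3 * 2500000 * W := by
    refine le_of_mul_le_mul_right ?_ (pow_pos hz 2)
    calc T * z ^ 4 * z ^ 2 = T * (z ^ 2) ^ 3 := by ring
      _ ≤ T * (18 * h) ^ 3 := by gcongr
      _ = 18 ^ 3 * (T * h ^ 3) := by ring
      _ ≤ 18 ^ 3 * (2500000 * (W * z ^ 2)) := by gcongr
      _ = _ := by ring
  calc T = T * (2 * W ^ 20 * z) ^ 4 := by rw [hWz]; ring
    _ = T * z ^ 4 * (16 * W ^ 80) := by ring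
    _ ≤ 18 ^ 3 * 2500000 * W * (16 * W ^ 80) := by gcongr
    _ = 18 ^ 3 * 2500000 * 16 * W ^ 81 := by ring
    _ ≤ W * W ^ 81 := mul_le_mul_of_nonneg_right (le_trans (by norm_num) hW) (by positivity)
    _ = _ := by ring

lemma pair_f {W z h T Y : ℝ} (hW : 2 ^ 100 ≤ W) (hz : 0 < z) (hWz : 2 * W ^ 20 * z = 1)
    (hT : 0 ≤ T) (hY0 : 0 ≤ Y) (hY : Y * z ≤ 126 * h) (H : T * h ^ 3 ≤ 2500000 * (W * z ^ 2)) :
    W ^ 3 * T * Y ^ 3 < W ^ 25 := by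
  have hW0 : 0 < W := lt_of_lt_of_le (by norm_num) hW
  have a1 : T * Y ^ 3 * z ≤ 126 ^ 3 * 2500000 * W := by
    refine le_of_mul_le_mul_right ?_ (pow_pos hz 2)
    calc T * Y ^ 3 * z * z ^ 2 = T * (Y * z) ^ 3 := by ring
      _ ≤ T * (126 * h) ^ 3 := by gcongr
      _ = 126 ^ 3 * (T * h ^ 3) := by ring
      _ ≤ 126 ^ 3 * (2500000 * (W * z ^ 2)) := by gcongr
      _ = _ := by ring
  calc W ^ 3 * T * Y ^ 3 = W ^ 3 * T * Y ^ 3 * (2 * W ^ 20 * z) := by rw [hWz, mul_one]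
    _ = T * Y ^ 3 * z * (2 * W ^ 23) := by ring
    _ ≤ 126 ^ 3 * 2500000 * W * (2 * W ^ 23) := by gcongr
    _ = 126 ^ 3 * 2500000 * 2 * W ^ 24 := by ring
    _ < W * W ^ 24 := mul_lt_mul_of_pos_right (lt_of_lt_of_le (by norm_num) hW) (by positivity)
    _ = _ := by ring

lemma pair_g {W z s vb Y k : ℝ} (hW : 2 ^ 100 ≤ W) (hWz : 2 * W ^ 20 * z = 1) (hs : W ^ 200 ≤ s)
    (hY0 : 0 ≤ Y) (hT : s * vb ≤ W ^ 82) (hY : W ^ 24 * Y ≤ W ^ 3) (hk : k * z ≤ vb + Y * s) :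
    Y * s + k * (3 / 2) ≤ s / 50 := by
  have hW0 : 0 < W := lt_of_lt_of_le (by norm_num) hW
  have hW1 : 1 ≤ W := le_trans (by norm_num) hW
  have hs0 : 0 < s := lt_of_lt_of_le (by positivity) hs
  have a1 : 800 * (W ^ 20 * Y) ≤ 1 := by
    refine le_of_mul_le_mul_left ?_ (pow_pos hW0 3)
    calc W ^ 3 * (800 * (W ^ 20 * Y)) = 800 * (W ^ 23 * Y) := by ring
      _ ≤ W * (W ^ 23 * Y) :=
        mul_le_mul_of_nonneg_right (le_trans (by norm_num) hW) (by positivity)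
      _ = W ^ 24 * Y := by ring
      _ ≤ W ^ 3 * 1 := by rwa [mul_one]
  have a2 : 800 * (W ^ 20 * vb) ≤ s := by
    refine le_of_mul_le_mul_left ?_ hs0
    calc s * (800 * (W ^ 20 * vb)) = 800 * W ^ 20 * (s * vb) := by ring
      _ ≤ W * W ^ 20 * W ^ 82 := by
        refine (mul_le_mul_of_nonneg_left hT (by positivity)).trans ?_
        gcongr
        exact le_trans (by norm_num) hW
      _ = W ^ 103 := by ring
      _ ≤ W ^ 400 := pow_le_pow_right₀ hW1 (by norm_num)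
      _ = W ^ 200 * W ^ 200 := by ring
      _ ≤ s * s := by gcongr
  have a3 : k ≤ 2 * (W ^ 20 * vb) + 2 * (W ^ 20 * Y * s) :=
    calc k = k * (2 * W ^ 20 * z) := by rw [hWz, mul_one]
      _ = 2 * W ^ 20 * (k * z) := by ring
      _ ≤ 2 * W ^ 20 * (vb + Y * s) := by gcongr
      _ = _ := by ring
  have a4 : 800 * (W ^ 20 * Y) * s ≤ 1 * s := by gcongr
  have a5 : 1 * (Y * s) ≤ W ^ 20 * (Y * s) :=
    mul_le_mul_of_nonneg_right (one_le_pow₀ hW1) (by positivity)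
  nlinarith

lemma pair_h {W z h ux T : ℝ} (hW : 2 ^ 100 ≤ W) (hz : 0 < z) (hWz : 2 * W ^ 20 * z = 1)
    (hT : 0 ≤ T) (hh : 1 / 20 ≤ h) (hu : ux ≤ 20 * h)
    (H : T * h ^ 4 ≤ 67200 * (W * z ^ 3 * ux) + 252 * (W * z ^ 3 * h)) : W ^ 58 * T < 1 := by
  have hW0 : 0 < W := lt_of_lt_of_le (by norm_num) hW
  have hh0 : 0 < h := lt_of_lt_of_le (by norm_num) hh
  have a1 : T * h ^ 3 ≤ 1344252 * (W * z ^ 3) := by
    refine le_of_mul_le_mul_right ?_ hh0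
    have : W * z ^ 3 * ux ≤ W * z ^ 3 * (20 * h) := by gcongr
    nlinarith
  have a2 : T * (1 / 20) ^ 3 ≤ T * h ^ 3 := by gcongr
  refine lt_of_mul_lt_mul_left ?_ hW0.le
  calc W * (W ^ 58 * T) = W ^ 59 * T := by ring
    _ ≤ W ^ 59 * (8000 * 1344252 * (W * z ^ 3)) := by
      refine mul_le_mul_of_nonneg_left ?_ (by positivity)
      linarith
    _ = 1000 * 1344252 * (2 * W ^ 20 * z) ^ 3 := by ring
    _ < W * 1 := by
      rw [hWz, mul_one]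
      exact lt_of_lt_of_le (by norm_num) hW

lemma pair_lin (q p x y : ℝ) : |q * y + p| ≤ |q * x + p| + |q| * |y - x| := by
  rw [← abs_mul, show q * y + p = q * x + p + q * (y - x) by ring]
  exact abs_add_le _ _

lemma pair_dif (q p x y : ℝ) : |q| * |x - y| ≤ |q * x + p| + |q * y + p| := by
  rw [← abs_mul, show q * (x - y) = q * x + p - (q * y + p) by ring]
  exact abs_sub _ _

lemma pair_i {q p a b c x z h : ℝ} (hz : 0 < z) (hz1 : z ≤ 1) (l1 : z ≤ |a - b|)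
    (hx : |x - a| ≤ 3 / 2 * z) (f1 : |q * b + p| * z ≤ 9 * h) (f1' : |q * a + p| * z ≤ 9 * h)
    (h0 : 1 ≤ |q| ∨ 1 ≤ |q * c + p| ∧ q = 0) : |q * x + p| * z ≤ 36 * h ∧ z ^ 2 ≤ 18 * h := by
  have f2 : |q| * z * z ≤ 18 * h := by
    have := (mul_le_mul_of_nonneg_left l1 (abs_nonneg _)).trans (pair_dif q p a b)
    nlinarith
  constructor
  · have a1 := pair_lin q p a x
    have a2 := mul_le_mul_of_nonneg_left hx (abs_nonneg q)
    nlinarith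
  · rcases h0 with h0 | ⟨h0, rfl⟩
    · nlinarith [mul_pos hz hz]
    · rw [zero_mul] at h0 f1
      nlinarith

lemma pair_j {q p x M : ℝ} (hx : |x| ≤ 1) (h1 : |q * 1 + p| ≤ M) (h2 : |q * (-1) + p| ≤ M) :
    |q * x + p| ≤ M := by
  obtain ⟨a1, a2⟩ := abs_le.mp h1
  obtain ⟨a3, a4⟩ := abs_le.mp h2
  obtain ⟨a5, a6⟩ := abs_le.mp hx
  exact abs_le.mpr ⟨by nlinarith, by nlinarith⟩

lemma pair_k {a b c d X y : ℝ} (ha : |a| ≤ X) (hb : |b| ≤ X) (hc : |c| ≤ X) (hd : |d| ≤ X)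
    (hy : |y| ≤ 1) : |a * y ^ 3 + b * y ^ 2 + c * y + d| ≤ 4 * X := by
  have a3 := abs_le.mp (pair_mul ha (pair_mul hy (pair_mul hy hy)))
  have a2 := abs_le.mp (pair_mul hb (pair_mul hy hy))
  have a1 := abs_le.mp (pair_mul hc hy)
  have a0 := abs_le.mp hd
  rw [pow_three, sq]
  exact abs_le.mpr ⟨by linarith, by linarith⟩

lemma pair_z {W s A z : ℝ} (hW : 2 ^ 100 ≤ W) (hz : 0 < z) (hWz : 2 * W ^ 20 * z = 1)
    (hs : 1 ≤ s) (hA : W ^ 600 ≤ A) : z ≤ 1 ∧ 1 ≤ s ^ 2 * A ^ 4 * z ^ 5 := by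
  have hW1 : 1 ≤ W := le_trans (by norm_num) hW
  refine ⟨by nlinarith [one_le_pow₀ (n := 20) hW1], ?_⟩
  calc (1 : ℝ) = (2 * W ^ 20 * z) ^ 5 := by rw [hWz, one_pow]
    _ = 1 * (32 * W ^ 100) * z ^ 5 := by ring
    _ ≤ s ^ 2 * A ^ 4 * z ^ 5 := by
      gcongr
      · exact one_le_pow₀ hs
      · calc 32 * W ^ 100 ≤ W * W ^ 100 :=
            mul_le_mul_of_nonneg_right (le_trans (by norm_num) hW) (by positivity)
          _ = W ^ 101 := by ring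
          _ ≤ W ^ 600 := pow_le_pow_right₀ hW1 (by norm_num)
          _ ≤ A := hA
          _ ≤ A ^ 4 := le_self_pow₀ ((one_le_pow₀ hW1).trans hA) (by norm_num)

lemma pair_tri (a x y : ℝ) : |y - x| ≤ |y - a| + |x - a| ∧ |y - a| - |x - a| ≤ |x - y| :=
  ⟨by linarith [abs_sub_le y a x, abs_sub_comm a x],
    by linarith [abs_sub_le y x a, abs_sub_comm y x]⟩

lemma pair_end {A s h y a b a' b' L L' R : ℝ} (hA : 0 < A) (hs : 0 < s) (hy : |y| = 1)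
    (ha : |a| ≤ 1 / 2) (hb : |b| ≤ 1 / 2) (ha' : |a'| ≤ 1 / 2) (hb' : |b'| ≤ 1 / 2)
    (hR : |R| ≤ 4 * (h * (s * A))) (hL : |L| ≤ s / 50)
    (e : R = A * (y - a) * (y - b) * L + s * A * (y - a') * (y - b') * L') :
    |L'| ≤ 16 * h + 1 / 5 := by
  have u : ∀ c : ℝ, |c| ≤ 1 / 2 → |y - c| ≤ 3 / 2 := fun c hc => by linarith [abs_sub y c]
  have l : ∀ c : ℝ, |c| ≤ 1 / 2 → 1 / 2 ≤ |y - c| := fun c hc => by
    linarith [abs_sub_abs_le_abs_sub y c]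
  have h1 := pair_mul (pair_mul (pair_mul (abs_of_pos hA).le (u a ha)) (u b hb)) hL
  have h2 : |s * A * (y - a') * (y - b') * L'| ≤ |R| + |A * (y - a) * (y - b) * L| := by
    rw [show s * A * (y - a') * (y - b') * L' = R - A * (y - a) * (y - b) * L by rw [e]; ring]
    exact abs_sub _ _
  have h3 : s * A * (1 / 2) * (1 / 2) * |L'| ≤ |s * A * (y - a') * (y - b') * L'| := by
    rw [abs_mul, abs_mul, abs_mul, abs_of_pos (mul_pos hs hA)]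
    have := l a' ha'
    have := l b' hb'
    gcongr
  refine le_of_mul_le_mul_left ?_ (mul_pos hs hA)
  nlinarith [mul_pos hs hA]

theorem pair (P Q : QF) {W : ℝ} (hW : 2 ^ 100 ≤ W) (hr : res P.toTr Q.toTr = 1)
    (hs : Shape W P Q) (hA : W ^ 600 ≤ P.A) (hAQ : (P.A : ℝ) ^ 2 * W ^ 200 ≤ Q.A)
    (hg : Gd W 3 Q.a Q.b ((Q.A : ℝ) / P.A)) : PairOK W P Q := by
  intro c X x hX hc hx he hK
  obtain ⟨q, p, q', p', e3, e2, e1, e0⟩ := sylvester hr c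
  by_cases h0' : q' = 0 ∧ p' = 0
  · obtain ⟨rfl, rfl⟩ := h0'
    exact Or.inl ⟨q, p, by simpa using e3, by simpa using e2, by simpa using e1, by simpa using e0⟩
  by_cases h0 : q = 0 ∧ p = 0
  · obtain ⟨rfl, rfl⟩ := h0
    exact Or.inr ⟨q', p', by simpa using e3, by simpa using e2, by simpa using e1,
      by simpa using e0⟩
  exfalso
  have hok := hg q p (not_and_or.mp h0)
  have hη := eta_eq P Q hr
  have hW0 : 0 < W := lt_of_lt_of_le (by norm_num) hW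
  have hW1 : 1 ≤ W := le_trans (by norm_num) hW
  have hA0 := P.Apos
  have hA1 := P.one_le_A
  obtain ⟨s, hsA⟩ : ∃ s : ℝ, (Q.A : ℝ) = s * P.A := ⟨_, (div_mul_cancel₀ _ hA0.ne').symm⟩
  obtain ⟨h, rfl⟩ : ∃ h : ℝ, X = h * Q.A := ⟨_, (div_mul_cancel₀ _ Q.Apos.ne').symm⟩
  obtain ⟨z, hz, hWz⟩ : ∃ z : ℝ, 0 < z ∧ 2 * W ^ 20 * z = 1 :=
    ⟨_, by positivity, mul_inv_cancel₀ (by positivity)⟩
  have hh : 0 < h := (mul_pos_iff_of_pos_right Q.Apos).mp hX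
  have hR : ∀ y : ℝ, (c 3 : ℝ) * y ^ 3 + c 2 * y ^ 2 + c 1 * y + c 0 =
      P.A * (y - P.a) * (y - P.b) * (q * y + p) +
        s * P.A * (y - Q.a) * (y - Q.b) * (q' * y + p') := fun y => by
    rw [← hsA, ← P.ev_eq, ← Q.ev_eq, e3, e2, e1, e0, Tr.ev, Tr.ev]
    push_cast
    ring
  rw [hsA, mul_div_cancel_right₀ _ hA0.ne'] at hok
  rw [hsA] at hη hK hc hAQ
  have hs1 : W ^ 200 ≤ s := by
    refine le_of_mul_le_mul_right (le_trans ?_ hAQ) hA0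
    rw [mul_comm]
    gcongr
    exact le_self_pow₀ hA1 two_ne_zero
  have hs2 : 1 ≤ s := (one_le_pow₀ hW1).trans hs1
  have hs0 : 0 < s := one_pos.trans_le hs2
  have lo : ∀ {d : ℝ}, 1 / 2 ≤ W ^ 20 * d → z ≤ d := fun {d} hd =>
    le_of_mul_le_mul_left (by linarith only [hd, hWz] : W ^ 20 * z ≤ W ^ 20 * d) (by positivity)
  have up : ∀ {d : ℝ}, W ^ 20 * d ≤ 10 → d ≤ 20 * z := fun {d} hd =>
    le_of_mul_le_mul_left (by linarith only [hd, hWz] : W ^ 20 * d ≤ W ^ 20 * (20 * z)) (by positivity)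
  obtain ⟨hz1, hz5⟩ := pair_z hW hz hWz hs2 hA
  have l1 := lo hs.l1
  have l2 := lo hs.l2
  have l3 := lo hs.l3
  have l4 := lo hs.l4
  have l5 := lo hs.l5
  have u2 := up hs.u2
  have hη0 : 0 < |P.a - Q.a| := lt_of_le_of_ne (abs_nonneg _) fun e => by
    rw [← e] at hη
    simp at hη
  have hηz : |P.a - Q.a| ≤ z :=
    calc |P.a - Q.a| ≤ |P.a - Q.a| * (s ^ 2 * (P.A : ℝ) ^ 4 * z ^ 5) :=
          le_mul_of_one_le_right hη0.le hz5
      _ = (P.A : ℝ) ^ 2 * (s * P.A) ^ 2 * (|P.a - Q.a| * z * z * z) * z * z := by ring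
      _ ≤ (P.A : ℝ) ^ 2 * (s * P.A) ^ 2 *
          (|P.a - Q.a| * |P.a - Q.b| * |P.b - Q.a| * |P.b - Q.b|) * 1 * z := by gcongr
      _ = z := by rw [hη]; ring
  have hx1 : |x| ≤ 1 := by
    linarith only [abs_sub_abs_le_abs_sub x Q.a, hs.qa, he, hηz, hz1]
  have lip : ∀ y : ℝ, |y| ≤ 1 / 2 → |P.A * (y - P.a) * (y - P.b) * (q * y + p) +
      s * P.A * (y - Q.a) * (y - Q.b) * (q' * y + p')| ≤ 6 * (h * (s * P.A)) * |y - x| :=
    fun y hy => hR y ▸ pair_lip (hc 3) (hc 2) (hc 1) hx1 (by linarith only [hy]) hx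
  have tri := pair_tri Q.a x
  have root : ∀ y : ℝ, |y| ≤ 1 / 2 → (y - P.a) * (y - P.b) = 0 →
      |y - Q.a| * |y - Q.b| * |q' * y + p'| ≤ 6 * h * |y - x| := fun y hy e => by
    have := lip y hy
    rw [mul_assoc (P.A : ℝ), e, mul_zero, zero_mul, zero_add, abs_mul, abs_mul, abs_mul,
      abs_of_pos (mul_pos hs0 hA0)] at this
    exact le_of_mul_le_mul_left (by linarith only [this]) (mul_pos hs0 hA0)
  have f1 := pair_a (hz.trans_le l4) l5 (abs_nonneg _) hh.le (root _ hs.pb (by ring))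
    (by linarith only [(tri P.b).1, he, hηz, l4])
  have f1' := pair_a hη0 l3 (abs_nonneg _) hh.le (root _ hs.pa (by ring))
    (by linarith only [(tri P.a).1, he])
  obtain ⟨f3, f4⟩ := pair_i (x := x) (c := 0) hz hz1 l1
    (by linarith only [(tri P.a).1, abs_sub_comm x P.a, he, hηz]) f1 f1' (by
      by_cases hq : q' = 0
      · refine Or.inr ⟨?_, by exact_mod_cast hq⟩
        rw [mul_zero, zero_add]
        exact_mod_cast Int.one_le_abs fun e => h0' ⟨hq, e⟩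
      · exact Or.inl (by exact_mod_cast Int.one_le_abs hq))
  obtain ⟨Y, hY, hY0⟩ : ∃ Y : ℝ, |q * Q.b + p| = Y * s ∧ 0 ≤ Y :=
    ⟨_, (div_mul_cancel₀ _ hs0.ne').symm, by positivity⟩
  rw [hY, mul_div_cancel_right₀ _ hs0.ne'] at hok
  have xb : |Q.b - x| ≤ 21 * z := by
    linarith only [(tri Q.b).1, abs_sub_comm Q.a Q.b, he, hηz, u2, hz]
  have f5 : Y * z ≤ 126 * h := by
    have a1 := lip _ hs.qb
    rw [sub_self, mul_zero, zero_mul, add_zero, abs_mul, abs_mul, abs_mul, abs_of_pos hA0, hY,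
      abs_sub_comm Q.b, abs_sub_comm Q.b] at a1
    refine le_of_mul_le_mul_left ?_ (mul_pos (mul_pos hs0 hA0) hz)
    calc s * P.A * z * (Y * z) = P.A * z * z * (Y * s) := by ring
      _ ≤ P.A * |P.a - Q.b| * |P.b - Q.b| * (Y * s) := by gcongr
      _ ≤ 6 * (h * (s * P.A)) * (21 * z) := a1.trans (by gcongr)
      _ = _ := by ring
  have f6 : |P.a - Q.a| * |P.b - Q.a| * |q * x + p| ≤
      84 * (s * |x - Q.a| * z * |q' * x + p'|) := by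
    have a1 := congrArg abs (eq_neg_of_add_eq_zero_left ((hR x).symm.trans hx))
    simp only [abs_neg, abs_mul, abs_of_pos hA0, abs_of_pos hs0] at a1
    have a2 : |P.a - Q.a| ≤ 2 * |x - P.a| := by linarith only [(tri P.a).2, he]
    have a3 : |P.b - Q.a| ≤ 2 * |x - P.b| := by linarith only [(tri P.b).2, he, hηz, l4]
    rw [abs_sub_comm] at xb
    refine le_of_mul_le_mul_left ?_ hA0
    calc P.A * (|P.a - Q.a| * |P.b - Q.a| * |q * x + p|)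
        ≤ P.A * (2 * |x - P.a| * (2 * |x - P.b|) * |q * x + p|) := by gcongr
      _ = 4 * (s * P.A * |x - Q.a| * |x - Q.b| * |q' * x + p'|) := by rw [← a1]; ring
      _ ≤ 4 * (s * P.A * |x - Q.a| * (21 * z) * |q' * x + p'|) := by gcongr
      _ = _ := by ring
  have hk : |(q : ℝ)| * z ≤ |q * Q.a + p| + Y * s :=
    hY ▸ (mul_le_mul_of_nonneg_left l2 (abs_nonneg _)).trans (pair_dif q p Q.a Q.b)
  have f7 := pair_c hz hs0.le hh.le (abs_nonneg _) (abs_nonneg _) (by linarith only [he, hηz])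
    (abs_sub_comm Q.a x ▸ pair_lin q p x Q.a) hk f5 hz5 hK
    (pair_b hz.le hs0.le (abs_nonneg _) (abs_nonneg _) (abs_nonneg _) (up hs.u3) (abs_nonneg _)
      (up hs.u5) hη hK f6)
  have hT : 0 ≤ s * |q * Q.a + p| := by positivity
  have f8 := pair_d hW0.le hz1 hh f3 f7
  have f9 := pair_e hW hz hWz hT f4 f8
  rcases hok (by
    rw [show W ^ 85 = W ^ 3 * W ^ 82 by ring]
    gcongr) with b | ⟨b1, b2⟩
  · exact (pair_f hW hz hWz hT hY0 f5 f8).not_ge b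
  have g1 := pair_g hW hWz hs1 hY0 f9 b2 hk
  have g2 : ∀ y : ℝ, |y| = 1 → |q' * y + p'| ≤ 16 * h + 1 / 5 := fun y hy => by
    refine pair_end hA0 hs0 hy hs.pa hs.pb hs.qa hs.qb
      (pair_k (hc 3) (hc 2) (hc 1) (hc 0) hy.le) ?_ (hR y)
    have a1 : |(q : ℝ)| * |y - Q.b| ≤ |(q : ℝ)| * (3 / 2) :=
      mul_le_mul_of_nonneg_left (by linarith only [abs_sub y Q.b, hs.qb, hy]) (abs_nonneg _)
    linarith only [pair_lin q p Q.b y, a1, g1, hY]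
  have g3 := g2 1 abs_one
  have g4 := g2 (-1) (by simp)
  have g5 : 1 / 20 ≤ h := by
    by_cases hq : q' * 1 + p' = 0
    · have a1 : (1 : ℝ) ≤ |q' * (-1 : ℝ) + p'| := by
        exact_mod_cast Int.one_le_abs (z := q' * (-1) + p') fun e => h0' ⟨by omega, by omega⟩
      linarith only [a1, g4]
    · have a1 : (1 : ℝ) ≤ |q' * (1 : ℝ) + p'| := by exact_mod_cast Int.one_le_abs hq
      linarith only [a1, g3]
  exact (pair_h hW hz hWz hT g5 (by linarith only [pair_j hx1 g3 g4, g5]) f7).not_ge b1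

end Pool.Agent.MP_06f5ad_nt.Q2
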