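import Pool.Agent.MP_06f5ad_nt.Q2.Alg

/-!
Units, their independence and their alignment.
-/

namespace Pool.Agent.MP_06f5ad_nt.Q2

open Filter Topology

/-- The recursion for the powers of a unit. -/
def pellSeq (n U₀ V₀ : ℤ) : ℕ → ℤ × ℤ
  | 0 => (1, 0)
  | k + 1 => ((pellSeq n U₀ V₀ k).1 * U₀ + n * (pellSeq n U₀ V₀ k).2 * V₀,
      (pellSeq n U₀ V₀ k).1 * V₀ + (pellSeq n U₀ V₀ k).2 * U₀)

theorem pell_base (P : QF) {M : ℤ} (hM : M ≠ 0) : ∃ U₀ V₀ : ℤ, U₀ ^ 2 - P.n * V₀ ^ 2 = 1 ∧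
    M ∣ V₀ ∧ 1 < (U₀ : ℝ) + V₀ * P.r := by
  have h0 : 0 < P.n * M ^ 2 := mul_pos P.n_pos (by positivity)
  have hns : ¬IsSquare (P.n * M ^ 2) := by
    rintro ⟨k, hk⟩
    exact hM (P.ns.sq (k := k) (q := M) (by rw [hk]; ring))
  obtain ⟨x, y, hxy, hy⟩ := Pell.exists_of_not_isSquare h0 hns
  have hx : 1 ≤ |x| := by
    refine Int.one_le_abs fun h => ?_
    rw [h] at hxy
    have : 0 ≤ P.n * M ^ 2 * y ^ 2 := by positivity
    linarith
  have hx' : (1 : ℝ) ≤ ((|x| : ℤ) : ℝ) := by exact_mod_cast hx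
  have hne : ((y * M : ℤ) : ℝ) * P.r ≠ 0 :=
    mul_ne_zero (by exact_mod_cast mul_ne_zero hy hM) P.r_ne
  rcases lt_or_gt_of_ne hne with h | h
  · refine ⟨|x|, -(y * M), by rw [sq_abs]; linear_combination hxy, (dvd_mul_left M y).neg_right, ?_⟩
    rw [Int.cast_neg]
    linarith
  · exact ⟨|x|, y * M, by rw [sq_abs]; linear_combination hxy, dvd_mul_left M y, by linarith⟩

/-- Powers of a unit congruent to a rational integer modulo `M`. -/
theorem pell (P : QF) {M : ℤ} (hM : M ≠ 0) : ∃ (ε : ℝ) (U V : ℕ → ℤ), 1 < ε ∧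
    ∀ k, U k ^ 2 - P.n * V k ^ 2 = 1 ∧ M ∣ V k ∧ (U k : ℝ) + V k * P.r = ε ^ k := by
  obtain ⟨U₀, V₀, h1, h2, h3⟩ := pell_base P hM
  refine ⟨U₀ + V₀ * P.r, fun k => (pellSeq P.n U₀ V₀ k).1, fun k => (pellSeq P.n U₀ V₀ k).2, h3,
    fun k => ?_⟩
  induction k with
  | zero => simp [pellSeq]
  | succ k ih =>
    obtain ⟨i1, i2, i3⟩ := ih
    simp only [pellSeq] at i1 i2 i3 ⊢
    refine ⟨?_, ?_, ?_⟩
    · linear_combination (U₀ ^ 2 - P.n * V₀ ^ 2) * i1 + h1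
    · exact dvd_add (h2.mul_left _) (i2.mul_right _)
    · rw [pow_succ, ← i3]
      push_cast
      rw [← P.r_sq]
      ring

/-- The two quadratic fields are different. -/
theorem indep (P Q : QF) (hr : res P.toTr Q.toTr = 1) {U V u v : ℤ}
    (hU : U ^ 2 - P.n * V ^ 2 = 1) (hu : u ^ 2 - Q.n * v ^ 2 = 1)
    (h : (U : ℝ) + V * P.r = u + v * Q.r) : v = 0 := by
  have hU' : ((U : ℝ) + V * P.r) * (U - V * P.r) = 1 := by
    have : (U : ℝ) ^ 2 - P.n * V ^ 2 = 1 := by exact_mod_cast hU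
    rw [← P.r_sq] at this
    linear_combination this
  have hu' : ((u : ℝ) + v * Q.r) * (u - v * Q.r) = 1 := by
    have : (u : ℝ) ^ 2 - Q.n * v ^ 2 = 1 := by exact_mod_cast hu
    rw [← Q.r_sq] at this
    linear_combination this
  have h2 : (U : ℝ) - V * P.r = u - v * Q.r := by
    linear_combination (u - v * Q.r) * hU' - (U - V * P.r) * hu' -
      (U - V * P.r) * (u - v * Q.r) * h
  have h3 : (V : ℝ) * P.r = v * Q.r := by linear_combination (1 / 2 : ℝ) * h - (1 / 2 : ℝ) * h2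
  have h4 : P.n * V ^ 2 = Q.n * v ^ 2 := by
    have : (P.n : ℝ) * V ^ 2 = Q.n * v ^ 2 := by
      rw [← P.r_sq, ← Q.r_sq]
      linear_combination (V * P.r + v * Q.r) * h3
    exact_mod_cast this
  rw [res_disc] at hr
  set m := 2 * P.B * Q.B - P.A * Q.C - Q.A * P.C
  by_contra hv
  have h5 : (2 * P.n * V) ^ 2 = (m ^ 2 - 1) * v ^ 2 := by
    linear_combination 4 * P.n * h4 - v ^ 2 * hr
  obtain ⟨j, hj⟩ : v ∣ 2 * P.n * V :=
    (Int.pow_dvd_pow_iff two_ne_zero).1 ⟨m ^ 2 - 1, by rw [h5]; ring⟩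
  have h6 : m ^ 2 - 1 = j ^ 2 := by
    have : v ^ 2 * (m ^ 2 - 1 - j ^ 2) = 0 := by
      rw [hj] at h5
      linear_combination -h5
    have := (mul_eq_zero.1 this).resolve_left (pow_ne_zero 2 hv)
    linarith
  have h7 : (m - j) * (m + j) = 1 := by linear_combination h6
  have hj0 : j = 0 := by
    rcases Int.eq_one_or_neg_one_of_mul_eq_one' h7 with ⟨a, b⟩ | ⟨a, b⟩ <;> linarith
  have h8 : 0 < P.n * Q.n := mul_pos P.n_pos Q.n_pos
  rw [hj0] at h6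
  nlinarith

theorem pell_align {a b L t : ℝ} (ha : 0 < a) (hb : 0 < b) {l₀ k₀ : ℕ}
    (h0 : l₀ * a - k₀ * b ≠ 0) (h1 : |l₀ * a - k₀ * b| ≤ L) (J : ℕ) :
    ∃ k : ℕ, J ≤ k ∧ ∃ l : ℕ, t ≤ l * a - k * b ∧ l * a - k * b ≤ t + L := by
  set θ := l₀ * a - k₀ * b with hθ
  rcases lt_or_gt_of_ne h0 with h | h
  · rw [abs_of_neg h] at h1
    obtain ⟨l₁, hl⟩ := exists_nat_ge ((t + L + J * b) / a)
    rw [div_le_iff₀ ha] at hl
    have hθ' : 0 < -θ := by linarith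
    set x := (l₁ * a - J * b - t - L) / -θ with hx
    have hx0 : 0 ≤ x := div_nonneg (by linarith) hθ'.le
    have e : x * -θ = l₁ * a - J * b - t - L := by rw [hx]; field_simp
    have c1 := Nat.le_ceil x
    have c2 := (Nat.ceil_lt_add_one hx0).le
    have c3 := mul_le_mul_of_nonneg_right c1 hθ'.le
    have c4 := mul_le_mul_of_nonneg_right c2 hθ'.le
    refine ⟨J + ⌈x⌉₊ * k₀, Nat.le_add_right _ _, l₁ + ⌈x⌉₊ * l₀, ?_, ?_⟩
    · push_cast
      have : (l₁ + ⌈x⌉₊ * l₀ : ℝ) * a - (J + ⌈x⌉₊ * k₀) * b = l₁ * a - J * b + ⌈x⌉₊ * θ := by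
        rw [hθ]; ring
      rw [this]
      nlinarith
    · push_cast
      have : (l₁ + ⌈x⌉₊ * l₀ : ℝ) * a - (J + ⌈x⌉₊ * k₀) * b = l₁ * a - J * b + ⌈x⌉₊ * θ := by
        rw [hθ]; ring
      rw [this]
      nlinarith
  · rw [abs_of_pos h] at h1
    obtain ⟨k₁, hk⟩ := exists_nat_ge (-t / b)
    rw [div_le_iff₀ hb] at hk
    have hJ : (0 : ℝ) ≤ J * b := by positivity
    set x := (t + (J + k₁) * b) / θ with hx
    have hx0 : 0 ≤ x := div_nonneg (by linarith) h.le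
    have e : x * θ = t + (J + k₁) * b := by rw [hx]; field_simp
    have c1 := Nat.le_ceil x
    have c2 := (Nat.ceil_lt_add_one hx0).le
    have c3 := mul_le_mul_of_nonneg_right c1 h.le
    have c4 := mul_le_mul_of_nonneg_right c2 h.le
    refine ⟨J + k₁ + ⌈x⌉₊ * k₀, by omega, ⌈x⌉₊ * l₀, ?_, ?_⟩
    · push_cast
      have : (⌈x⌉₊ * l₀ : ℝ) * a - (J + k₁ + ⌈x⌉₊ * k₀) * b = ⌈x⌉₊ * θ - (J + k₁) * b := by
        rw [hθ]; ring
      rw [this]
      linarith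
    · push_cast
      have : (⌈x⌉₊ * l₀ : ℝ) * a - (J + k₁ + ⌈x⌉₊ * k₀) * b = ⌈x⌉₊ * θ - (J + k₁) * b := by
        rw [hθ]; ring
      rw [this]
      linarith

/-- Powers of independent numbers can be aligned. -/
theorem align {e₁ e₂ c : ℝ} (h₁ : 1 < e₁) (h₂ : 1 < e₂)
    (h : ∀ l k : ℕ, 0 < k → e₁ ^ l ≠ e₂ ^ k) (hc : 0 < c) :
    ∃ᶠ k in atTop, ∃ l : ℕ, c * e₂ ^ k ≤ e₁ ^ l ∧ e₁ ^ l ≤ 2 * c * e₂ ^ k := by
  have p₁ : 0 < e₁ := by linarith
  have p₂ : 0 < e₂ := by linarith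
  have ha : 0 < Real.log e₁ := Real.log_pos h₁
  have hb : 0 < Real.log e₂ := Real.log_pos h₂
  have hL : 0 < Real.log 2 := Real.log_pos one_lt_two
  set a := Real.log e₁ with hae
  set b := Real.log e₂ with hbe
  obtain ⟨n, hn⟩ := exists_nat_ge (a / Real.log 2)
  rw [div_le_iff₀ hL] at hn
  obtain ⟨k₀, hk0, -, hk⟩ := Real.exists_nat_abs_mul_sub_round_le (b / a) (n := n + 1)
    (Nat.succ_pos n)
  have hr : 0 ≤ round ((k₀ : ℝ) * (b / a)) := by
    rw [round_eq]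
    exact Int.floor_nonneg.2 (by positivity)
  obtain ⟨l₀, hl₀⟩ := Int.eq_ofNat_of_zero_le hr
  rw [hl₀] at hk
  have h0 : l₀ * a - k₀ * b ≠ 0 := by
    intro h0
    refine h l₀ k₀ hk0 (Real.log_injOn_pos (Set.mem_Ioi.2 (pow_pos p₁ _))
      (Set.mem_Ioi.2 (pow_pos p₂ _)) ?_)
    rw [Real.log_pow, Real.log_pow]
    linarith
  have h1 : |l₀ * a - k₀ * b| ≤ Real.log 2 := by
    have e : (l₀ : ℝ) * a - k₀ * b = -(k₀ * (b / a) - ((l₀ : ℤ) : ℝ)) * a := by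
      push_cast
      field_simp
      ring
    rw [e, abs_mul, abs_neg, abs_of_pos ha]
    have h2 : (0 : ℝ) < ((n + 1 : ℕ) : ℝ) + 1 := by positivity
    rw [le_div_iff₀ h2] at hk
    push_cast at hk h2 ⊢
    have h3 := abs_nonneg ((k₀ : ℝ) * (b / a) - l₀)
    have h4 := mul_le_mul_of_nonneg_left hn h3
    nlinarith
  rw [frequently_atTop]
  intro J
  obtain ⟨k, hk, l, i1, i2⟩ := pell_align (t := Real.log c) ha hb h0 h1 J
  refine ⟨k, hk, l, ?_, ?_⟩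
  · rw [← Real.log_le_log_iff (by positivity) (by positivity),
      Real.log_mul hc.ne' (by positivity), Real.log_pow, Real.log_pow]
    linarith
  · rw [← Real.log_le_log_iff (by positivity) (by positivity),
      Real.log_mul (by positivity) (by positivity), Real.log_mul two_ne_zero hc.ne', Real.log_pow,
      Real.log_pow]
    linarith

end Pool.Agent.MP_06f5ad_nt.Q2
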