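import Pool.Agent.MP_06f5ad_nt.Q2.Step
import Pool.Agent.MP_06f5ad_nt.Q2.Pair

/-!
The sequence of quadratics.
-/

namespace Pool.Agent.MP_06f5ad_nt.Q2

open Filter Topology

/-- The state of the construction at scale `w`. -/
def SeqSt (w : ℕ) (P : QF) : Prop :=
  (2 : ℝ) ^ 100 ≤ w ∧ Gd w 2 P.b P.a (P.n : ℝ)⁻¹ ∧ ∃ (s : ℝ) (O : Tr), Inv (w + 1) s P O

theorem Seq_abs {W : ℕ} {s : ℝ} {P : QF} {O : Tr} (h : Inv W s P O) :
    (W : ℝ) ^ 20 * |P.a - P.b| ≤ 4 := by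
  have h1 := h.dlo
  have h2 := h.dhi
  have h3 : (0 : ℝ) < (W : ℝ) ^ 20 := pow_pos (lt_of_lt_of_le (by norm_num) h.big) 20
  have h4 : 0 < s * (P.b - P.a) := by
    by_contra hc
    push Not at hc
    nlinarith
  have h5 : |P.a - P.b| = s * (P.b - P.a) := by
    rcases h.sgn with rfl | rfl
    · rw [abs_sub_comm, abs_of_pos (by linarith)]; ring
    · rw [abs_of_pos (by linarith)]; ring
  rwa [h5]

theorem Seq_step {w : ℕ} {P : QF} (h : SeqSt w P) {E : ℝ} (hE : 0 < E) :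
    ∃ Q : QF, SeqSt (w + 1) Q ∧ 0 < |P.a - Q.a| ∧ |P.a - Q.a| ≤ E ∧ PairOK w P Q := by
  obtain ⟨hw, hg, s, O, hI⟩ := h
  have hw1 : (1 : ℝ) ≤ w := le_trans (by norm_num) hw
  have hW : (0 : ℝ) < ((w + 1 : ℕ) : ℝ) ^ 20 := by positivity
  obtain ⟨Q, hQ, hle, hgQ, hd⟩ :=
    step hI (E := min E (1 / (4 * ((w + 1 : ℕ) : ℝ) ^ 20))) (lt_min hE (by positivity))
  have hr : res P.toTr Q.toTr = 1 := by rw [res_symm]; exact hQ.res1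
  have he : ((w + 1 : ℕ) : ℝ) ^ 20 * |P.a - Q.a| ≤ 1 / 4 := by
    have h1 : |P.a - Q.a| ≤ 1 / (4 * ((w + 1 : ℕ) : ℝ) ^ 20) := hle.trans (min_le_right _ _)
    rw [le_div_iff₀ (by positivity)] at h1
    linarith
  have hs : Shape w P Q := by
    refine shape (by positivity) (by push_cast; linarith) ?_ hI hQ he
    have := succ_pow hw (k := 20) (by norm_num)
    have e : (((w + 1 : ℕ) : ℝ) + 1) = w + 2 := by push_cast; ring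
    rwa [e]
  have hA : (w : ℝ) ^ 600 ≤ P.A := by
    obtain ⟨H, hH, -, hH2⟩ := hI.ht
    have h1 : (w : ℝ) ^ 600 ≤ (w : ℝ) ^ 700 := pow_le_pow_right₀ hw1 (by norm_num)
    have h2 : (w : ℝ) ^ 700 ≤ ((w + 1 : ℕ) : ℝ) ^ 700 :=
      pow_le_pow_left₀ (by positivity) (by push_cast; linarith) _
    have h3 : ((w + 1 : ℕ) : ℝ) ^ 700 ≤ H ^ 2 * ((w + 1 : ℕ) : ℝ) ^ 700 :=
      le_mul_of_one_le_left (by positivity) (one_le_pow₀ hH)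
    exact h1.trans (h2.trans (h3.trans hH2))
  have hAQ : (P.A : ℝ) ^ 2 * (w : ℝ) ^ 200 ≤ Q.A := by
    obtain ⟨H, hH, hB, hH2⟩ := hQ.ht
    have h1 : (w : ℝ) ^ 200 ≤ (w : ℝ) ^ 700 := pow_le_pow_right₀ hw1 (by norm_num)
    have h2 : (w : ℝ) ^ 700 ≤ ((w + 1 + 1 : ℕ) : ℝ) ^ 700 :=
      pow_le_pow_left₀ (by positivity) (by push_cast; linarith) _
    have h3 : (P.A : ℝ) ^ 2 ≤ H ^ 2 :=
      pow_le_pow_left₀ P.Apos.le ((le_abs_self _).trans hB.1) _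
    exact (mul_le_mul h3 (h1.trans h2) (by positivity) (by positivity)).trans hH2
  refine ⟨Q, ⟨hI.big, hgQ, -s, P.toTr, hQ⟩, ?_, hle.trans (min_le_left _ _),
    pair P Q hw hr hs hA hAQ (gd_next P Q hw hr hs hA hAQ hd hg)⟩
  refine abs_pos.2 fun h0 => ?_
  have := eta_eq P Q hr
  rw [h0] at this
  simp at this

theorem exists_seq : ∃ (P : ℕ → QF) (K : ℕ → ℝ), Tendsto K atTop atTop ∧
    (∀ m, PairOK (K m) (P m) (P (m + 1))) ∧ (∀ m, 0 < |(P m).a - (P (m + 1)).a|) ∧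
    (∀ m, |(P (m + 1)).a - (P (m + 2)).a| ≤ |(P m).a - (P (m + 1)).a| / 8) ∧
    (∀ m, |(P m).a - (P (m + 1)).a| * ((P m).A : ℝ) ^ m ≤ 1 / (m + 1)) ∧
    (∀ m, 4 * |(P m).a - (P (m + 1)).a| ≤ |(P m).a - (P m).b|) ∧
    Tendsto (fun m => |(P m).a - (P m).b|) atTop (𝓝 0) := by
  obtain ⟨W, P₀, O₀, h₀⟩ := init
  obtain ⟨P₁, h₁, -, hg₁, -⟩ := step h₀ one_pos
  have hs₁ : SeqSt W P₁ := ⟨h₀.big, hg₁, _, _, h₁⟩
  have key : ∀ (m : ℕ) (x : QF × ℝ), SeqSt (W + m) x.1 ∧ 0 < x.2 → ∃ y : QF × ℝ,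
      (SeqSt (W + (m + 1)) y.1 ∧ 0 < y.2) ∧ y.2 = |x.1.a - y.1.a| ∧ y.2 ≤ x.2 / 8 ∧
        y.2 * (x.1.A : ℝ) ^ m ≤ 1 / (m + 1) ∧ 4 * y.2 ≤ |x.1.a - x.1.b| ∧
        PairOK ((W + m : ℕ) : ℝ) x.1 y.1 := by
    rintro m ⟨P, η⟩ ⟨hP, hη⟩
    have hA : (0 : ℝ) < (P.A : ℝ) ^ m := pow_pos P.Apos m
    have hab : 0 < |P.a - P.b| := abs_pos.2 (sub_ne_zero.2 P.a_ne_b)
    obtain ⟨Q, hQ, h0, hle, hp⟩ := Seq_step hP
      (E := min (η / 8) (min (1 / (m + 1) / (P.A : ℝ) ^ m) (|P.a - P.b| / 4)))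
      (lt_min (by positivity) (lt_min (by positivity) (by positivity)))
    simp only [le_min_iff] at hle
    refine ⟨(Q, |P.a - Q.a|), ⟨hQ, h0⟩, rfl, hle.1, ?_, ?_, hp⟩
    · exact (le_div_iff₀ hA).1 hle.2.1
    · have := hle.2.2
      simp only
      linarith
  choose f hf using key
  let x : ∀ m : ℕ, {x : QF × ℝ // SeqSt (W + m) x.1 ∧ 0 < x.2} := fun m =>
    Nat.rec (motive := fun m => {x : QF × ℝ // SeqSt (W + m) x.1 ∧ 0 < x.2})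
      ⟨(P₁, 1), hs₁, one_pos⟩ (fun m y => ⟨f m y.1 y.2, (hf m y.1 y.2).1⟩) m
  have hx : ∀ m, (x (m + 1)).1.2 = |(x m).1.1.a - (x (m + 1)).1.1.a| ∧
      (x (m + 1)).1.2 ≤ (x m).1.2 / 8 ∧
      (x (m + 1)).1.2 * ((x m).1.1.A : ℝ) ^ m ≤ 1 / (m + 1) ∧
      4 * (x (m + 1)).1.2 ≤ |(x m).1.1.a - (x m).1.1.b| ∧
      PairOK ((W + m : ℕ) : ℝ) (x m).1.1 (x (m + 1)).1.1 := fun m => (hf m (x m).1 (x m).2).2
  have hK : Tendsto (fun m : ℕ => ((W + m : ℕ) : ℝ)) atTop atTop :=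
    tendsto_natCast_atTop_atTop.comp
      (tendsto_atTop_mono (fun m => Nat.le_add_left m W) tendsto_id)
  refine ⟨fun m => (x m).1.1, fun m => ((W + m : ℕ) : ℝ), hK, fun m => (hx m).2.2.2.2,
    fun m => ?_, fun m => ?_, fun m => ?_, fun m => ?_, ?_⟩
  · rw [← (hx m).1]; exact (x (m + 1)).2.2
  · rw [← (hx m).1, ← (hx (m + 1)).1]; exact (hx (m + 1)).2.1
  · rw [← (hx m).1]; exact (hx m).2.2.1
  · rw [← (hx m).1]; exact (hx m).2.2.2.1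
  · have h4 : Tendsto (fun m : ℕ => 4 / ((W + m : ℕ) : ℝ)) atTop (𝓝 0) :=
      tendsto_const_nhds.div_atTop hK
    refine squeeze_zero (fun m => abs_nonneg _) (fun m => ?_) h4
    obtain ⟨hw, -, s, O, hI⟩ := (x m).2.1
    have hw1 : (1 : ℝ) ≤ ((W + m : ℕ) : ℝ) := le_trans (by norm_num) hw
    have h1 := Seq_abs hI
    have h2 : ((W + m : ℕ) : ℝ) ≤ ((W + m + 1 : ℕ) : ℝ) ^ 20 :=
      le_trans (by push_cast; linarith)
        (le_self_pow₀ (by push_cast at hw1 ⊢; linarith) (by norm_num))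
    rw [le_div_iff₀ (by linarith)]
    nlinarith [abs_nonneg ((x m).1.1.a - (x m).1.1.b)]

end Pool.Agent.MP_06f5ad_nt.Q2
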