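import Pool.Agent.MP_06f5ad_nt.Q2.Gs

/-!
The family of limits attached to the units of the auxiliary quadratic.
-/

namespace Pool.Agent.MP_06f5ad_nt.Q2

open Filter Topology

theorem StepB_basic {T U V r D φ : ℝ} (hr : r ≠ 0) (h1 : U ^ 2 - r ^ 2 * V ^ 2 = 1)
    (h2 : U + V * r = T) (hT : 2 ≤ T) (hT' : 8 * |r| ≤ T * |D|) (hφ : φ = D + r + -U / V) :
    (U - V * r) * T = 1 ∧ V ≠ 0 ∧ T ≤ 4 * (|V| * |r|) ∧ 2 * (|V| * |r|) ≤ T ∧ |D| / 2 ≤ |φ| ∧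
      |φ| ≤ 2 * |D| ∧ T * V * (φ - D) = -1 := by
  have hw : (U - V * r) * T = 1 := by rw [← h2]; linear_combination h1
  obtain ⟨w, hwd⟩ : ∃ w, w = U - V * r := ⟨_, rfl⟩
  rw [← hwd] at hw
  have w0 : 0 < w := by
    by_contra k
    nlinarith
  have w1 : w ≤ 1 := by nlinarith
  have e1 : V * r = (T - w) / 2 := by linarith
  have e2 : |V| * |r| = (T - w) / 2 := by
    rw [← abs_mul, e1, abs_of_pos (by linarith)]
  have hV : V ≠ 0 := by
    rintro rfl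
    linarith
  have hV' := abs_pos.2 hV
  have hr' := abs_pos.2 hr
  have e3 : V * (φ - D) = -w := by
    rw [hφ, hwd]
    field_simp
    ring
  have e4 : 2 ≤ |V| * |D| := by
    refine le_of_mul_le_mul_right ?_ hr'
    have := mul_le_mul_of_nonneg_right (show T ≤ 4 * (|V| * |r|) by linarith) (abs_nonneg D)
    nlinarith
  have e5 : |φ - D| ≤ |D| / 2 := by
    refine le_of_mul_le_mul_left ?_ hV'
    rw [← abs_mul, e3, abs_neg, abs_of_pos w0]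
    linarith
  have e6 := abs_sub_abs_le_abs_sub φ D
  have e7 := abs_sub_abs_le_abs_sub D φ
  rw [abs_sub_comm] at e7
  have := abs_nonneg D
  refine ⟨hwd ▸ hw, hV, by linarith, by linarith, by linarith, by linarith, ?_⟩
  rw [mul_assoc, e3]
  linarith

theorem StepB_fin {C t q : ℝ} (hC : 0 ≤ C) (ht : 0 ≤ t) (hq : 1 ≤ q) (h : 1 ≤ C * (t * (t + q))) :
    1 / (2 * (C + 1)) ≤ t * q := by
  rw [div_le_iff₀ (by positivity)]
  rcases le_total t 1 with k | k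
  · have h1 : t * (t + q) ≤ t * (2 * q) := mul_le_mul_of_nonneg_left (by linarith) ht
    have h2 := mul_le_mul_of_nonneg_left h1 hC
    have h3 : 0 ≤ t * q := by positivity
    nlinarith
  · have h1 : 1 ≤ t * q := by nlinarith
    nlinarith

theorem StepB_interp {q' p' a x x' E : ℝ} (h1 : |q' * x + p'| ≤ E) (h2 : |q' * x' + p'| ≤ E) :
    |x - x'| * |q' * a + p'| ≤ (|a - x'| + |a - x|) * E := by
  have e : (x - x') * (q' * a + p') = (a - x') * (q' * x + p') - (a - x) * (q' * x' + p') := by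
    ring
  rw [← abs_mul, e, add_mul]
  refine (abs_sub _ _).trans (add_le_add ?_ ?_) <;> rw [abs_mul]
  · exact mul_le_mul_of_nonneg_left h1 (abs_nonneg _)
  · exact mul_le_mul_of_nonneg_left h2 (abs_nonneg _)

theorem StepB_core (P Q : QF) (hD : P.b ≠ Q.a) : ∃ T₀ C c : ℝ, 0 < c ∧ ∀ (T φ y : ℝ) (U V : ℤ),
    T₀ ≤ T → U ^ 2 - Q.n * V ^ 2 = 1 → (U : ℝ) + V * Q.r = T →
    φ = Q.A * P.b + Q.B + ((-U : ℤ) : ℝ) / V → y = P.b - Q.ev P.b / φ →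
    (V ≠ 0 ∧ φ ≠ 0 ∧ T ≤ 4 * (|(V : ℝ)| * |Q.r|) ∧ 2 * (|(V : ℝ)| * |Q.r|) ≤ T) ∧
      |y - Q.b| * T ^ 2 ≤ C ∧ ∀ q p : ℤ, q ≠ 0 → c ≤ T * (|q * y + p| * |(q : ℝ)|) := by
  obtain ⟨D, hDd⟩ : ∃ D, D = Q.A * (P.b - Q.a) := ⟨_, rfl⟩
  have hD0 : 0 < |D| := abs_pos.2 (hDd ▸ mul_ne_zero Q.Apos.ne' (sub_ne_zero.2 hD))
  have hr0 : 0 < |Q.r| := abs_pos.2 Q.r_ne
  have hd0 : 0 < |Q.a - Q.b| := abs_pos.2 (sub_ne_zero.2 Q.a_ne_b)
  obtain ⟨C, hC⟩ : ∃ C, C = 8 * |Q.r| * |P.b - Q.b| / |D| := ⟨_, rfl⟩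
  have hC0 : 0 ≤ C := by rw [hC]; positivity
  obtain ⟨M, hM⟩ : ∃ M, M = 1 + C + |Q.a - Q.b| := ⟨_, rfl⟩
  have hM0 : 0 ≤ M := by rw [hM]; positivity
  obtain ⟨K, hK⟩ : ∃ K, K = (|P.a - Q.b| + |P.a - Q.a|) * M / |Q.a - Q.b| := ⟨_, rfl⟩
  have hK0 : 0 ≤ K := by rw [hK]; positivity
  have hA := P.Apos
  refine ⟨max 2 (8 * |Q.r| / |D|), C, 1 / (2 * (P.A * K * (|D| / |Q.r|) + 1)), by positivity,
    fun T φ y U V hT h1 h2 hφ hy => ?_⟩
  have hT2 : 2 ≤ T := (le_max_left _ _).trans hT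
  have hT0 : 0 < T := by linarith
  have h1' : (U : ℝ) ^ 2 - Q.r ^ 2 * V ^ 2 = 1 := by rw [Q.r_sq]; exact_mod_cast h1
  obtain ⟨b1, b2, b3, b4, b5, b6, b7⟩ := StepB_basic (D := D) (φ := φ) Q.r_ne h1' h2 hT2
    ((div_le_iff₀ hD0).1 ((le_max_right _ _).trans hT))
    (by rw [hφ, hDd, ← Q.r_a]; push_cast; ring)
  have hφ0 : φ ≠ 0 := abs_pos.1 (by linarith)
  have hV' := abs_pos.2 b2
  have e1 : φ * y = φ * P.b - D * (P.b - Q.b) := by
    rw [hy, Q.ev_eq, hDd]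
    field_simp
  have e2 : (y - Q.b) * (T * V * φ) = -(P.b - Q.b) := by
    linear_combination T * V * e1 + (P.b - Q.b) * b7
  have e3 : |y - Q.b| * (T * (|(V : ℝ)| * |φ|)) = |P.b - Q.b| := by
    have := congrArg abs e2
    rwa [abs_neg, abs_mul, abs_mul, abs_mul, abs_of_pos hT0, mul_assoc T] at this
  have hz := abs_nonneg (y - Q.b)
  have c1 : |y - Q.b| * T ^ 2 ≤ C := by
    rw [hC, le_div_iff₀ hD0, ← e3]
    have k1 : T * |D| ≤ 4 * (|(V : ℝ)| * |Q.r|) * (2 * |φ|) :=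
      mul_le_mul b3 (by linarith) hD0.le (by positivity)
    have k2 := mul_le_mul_of_nonneg_left k1 (mul_nonneg hz hT0.le)
    linarith
  refine ⟨⟨by exact_mod_cast b2, hφ0, b3, b4⟩, c1, fun q p hq => ?_⟩
  obtain ⟨q', p', h0, hL⟩ := hmap (O := Q.toTr) (u := -U) (v := V)
    (by rw [neg_sq, h1]; exact one_ne_zero) (p := p) (.inl hq)
  have hq1 := Approx_one_le hq
  obtain ⟨t, ht⟩ : ∃ t, t = T * |q * y + p| := ⟨_, rfl⟩
  have hLy := abs_nonneg (q * y + p)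
  have ht0 : 0 ≤ t := by rw [ht]; positivity
  have c2 : |y - Q.b| * T ≤ C := by
    refine le_trans (mul_le_mul_of_nonneg_left ?_ hz) c1
    nlinarith
  have c3 : |y - Q.b| ≤ C := le_trans (le_mul_of_one_le_right hz (by linarith)) c2
  have l1 : |q' * Q.b + p'| ≤ M * (t + |(q : ℝ)|) := by
    have k1 : q' * Q.b + p' = -(T * (q * Q.b + p)) := by
      rw [hL, Q.r_b, Q.ev_eq, ← h2]; push_cast; ring
    have k2 := mul_le_mul_of_nonneg_left (Approx_tri q p y Q.b) hT0.le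
    have k3 := mul_le_mul_of_nonneg_left c2 (abs_nonneg (q : ℝ))
    have k4 : 0 ≤ C * t + |Q.a - Q.b| * (t + |(q : ℝ)|) := by positivity
    rw [k1, abs_neg, abs_mul, abs_of_pos hT0, hM]
    linarith
  have l2 : |q' * Q.a + p'| ≤ M * (t + |(q : ℝ)|) := by
    have k1 : T * (q' * Q.a + p') = -(q * Q.a + p) := by
      rw [hL, Q.r_a, Q.ev_eq]; push_cast; linear_combination -(q * Q.a + p) * b1
    have k2 : T * |q' * Q.a + p'| = |q * Q.a + p| := by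
      rw [← abs_neg (q * Q.a + p), ← k1, abs_mul, abs_of_pos hT0]
    have k3 : |q' * Q.a + p'| ≤ T * |q' * Q.a + p'| :=
      le_mul_of_one_le_left (abs_nonneg _) (by linarith)
    have k4 := Approx_tri q p y Q.a
    have k5 : |y - Q.a| ≤ C + |Q.a - Q.b| := by
      have := abs_sub_le y Q.b Q.a
      rw [abs_sub_comm Q.b] at this
      linarith
    have k6 := mul_le_mul_of_nonneg_left k5 (abs_nonneg (q : ℝ))
    have k7 : |q * y + p| ≤ t := ht ▸ le_mul_of_one_le_left hLy (by linarith)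
    have k8 : 0 ≤ C * t + |Q.a - Q.b| * t := by positivity
    rw [hM]
    linarith
  have l3 : |q' * P.a + p'| ≤ K * (t + |(q : ℝ)|) := by
    have := StepB_interp (a := P.a) l2 l1
    rw [hK, div_mul_eq_mul_div, le_div_iff₀ hd0]
    linarith
  have l4 : |q' * P.b + p'| ≤ |D| / |Q.r| * t := by
    have k0 : (V : ℝ) * φ = -U + V * (Q.A * P.b + Q.B) := by
      rw [hφ]; push_cast; field_simp; ring
    have k1 : q' * P.b + p' = V * φ * (q * y + p) := by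
      rw [hL, Q.ev_eq]; push_cast
      linear_combination -(q * P.b + p) * k0 - V * q * e1 + V * q * (P.b - Q.b) * hDd
    have k2 : 2 * (|(V : ℝ)| * |Q.r|) * |φ| ≤ T * (2 * |D|) :=
      mul_le_mul b4 b6 (abs_nonneg _) hT0.le
    have k3 := mul_le_mul_of_nonneg_right k2 hLy
    rw [k1, abs_mul, abs_mul, div_mul_eq_mul_div, le_div_iff₀ hr0, ht]
    linarith
  have l5 := mul_le_mul_of_nonneg_left
    (mul_le_mul l3 l4 (abs_nonneg _) ((abs_nonneg _).trans l3)) hA.le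
  rw [← mul_assoc, ← ht]
  refine StepB_fin (by positivity) ht0 hq1 (((P.norm h0).trans l5).trans_eq ?_)
  ring

theorem bfam (P Q : QF) (hr : res P.toTr Q.toTr = 1) {ε : ℝ} {U V : ℕ → ℤ} (hε : 1 < ε)
    (h : ∀ k, U k ^ 2 - Q.n * V k ^ 2 = 1 ∧ (U k : ℝ) + V k * Q.r = ε ^ k) :
    Conv (fun k => ε ^ k)
      (fun k => P.b - Q.ev P.b / (Q.A * P.b + Q.B + ((-U k : ℤ) : ℝ) / V k)) Q.b ∧
    ∀ᶠ k in atTop, V k ≠ 0 ∧ Q.A * P.b + Q.B + ((-U k : ℤ) : ℝ) / V k ≠ 0 ∧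
      ε ^ k ≤ 4 * (|(V k : ℝ)| * |Q.r|) ∧ 2 * (|(V k : ℝ)| * |Q.r|) ≤ ε ^ k := by
  have hD : P.b ≠ Q.a := fun e => by
    have h2 := P.res_eq Q.toTr
    rw [hr, Q.ev_eq P.b, e] at h2
    simp at h2
  obtain ⟨T₀, C, c, hc, H⟩ := StepB_core P Q hD
  have ht := tendsto_pow_atTop_atTop_of_one_lt hε
  have H' := (ht.eventually_ge_atTop T₀).mono fun k hk =>
    H _ _ _ (U k) (V k) hk (h k).1 (h k).2 rfl rfl
  exact ⟨⟨ht, ⟨C, H'.mono fun k hk => hk.2.1⟩, Q.ba_b, c, hc, H'.mono fun k hk => hk.2.2⟩,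
    H'.mono fun k hk => hk.1⟩

end Pool.Agent.MP_06f5ad_nt.Q2
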