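import Pool.Agent.MP_06f5ad_nt.Q2.Trans

/-!
Transfer of goodness, by units and limits.
-/

namespace Pool.Agent.MP_06f5ad_nt.Q2

open Filter Topology

theorem TransB_lin {a b y q p : ℝ} (h1 : |a - b| ≤ 10 * |y - a|)
    (h2 : |y - a| ≤ 10 * |a - b|) :
    |q * y + p| ≤ 10 * |q * b + p| + 11 * |q * a + p| ∧
      |q * b + p| ≤ 10 * |q * y + p| + 11 * |q * a + p| := by
  have e1 : |q * y + p| ≤ |q| * |y - a| + |q * a + p| := by
    rw [← abs_mul]
    calc |q * y + p| = |q * (y - a) + (q * a + p)| := by ring_nf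
      _ ≤ _ := abs_add_le _ _
  have e2 : |q * b + p| ≤ |q| * |a - b| + |q * a + p| := by
    rw [← abs_mul]
    calc |q * b + p| = |(q * a + p) - q * (a - b)| := by ring_nf
      _ ≤ |q * a + p| + |q * (a - b)| := abs_sub _ _
      _ = _ := add_comm _ _
  have e3 : |q| * |a - b| ≤ |q * b + p| + |q * a + p| := by
    rw [← abs_mul]
    calc |q * (a - b)| = |(q * a + p) - (q * b + p)| := by ring_nf
      _ ≤ |q * a + p| + |q * b + p| := abs_sub _ _
      _ = _ := add_comm _ _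
  have e4 : |q| * |y - a| ≤ |q * y + p| + |q * a + p| := by
    rw [← abs_mul]
    calc |q * (y - a)| = |(q * y + p) - (q * a + p)| := by ring_nf
      _ ≤ _ := abs_sub _ _
  have e5 := mul_le_mul_of_nonneg_left h1 (abs_nonneg q)
  have e6 := mul_le_mul_of_nonneg_left h2 (abs_nonneg q)
  constructor <;> nlinarith

theorem TransB_err {W σ t X : ℝ} (hW : 2 ^ 100 ≤ W) (hσ : 0 < σ) (hσ2 : σ ≤ 2 * W ^ 56)
    (htW : W ^ 200 ≤ t) (hX : W ^ 1 * X ≤ W ^ 85) :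
    W ^ 25 * (11 * (X * (σ / t) ^ 2)) ≤ 1 := by
  have hW1 : (1 : ℝ) ≤ W := le_trans (by norm_num) hW
  have hW0 : (0 : ℝ) < W := by linarith
  have ht : 0 < t := lt_of_lt_of_le (by positivity) htW
  have hX1 : X ≤ W ^ 84 := by
    have : W * X ≤ W * W ^ 84 := by
      calc W * X = W ^ 1 * X := by ring
        _ ≤ W ^ 85 := hX
        _ = _ := by ring
    exact le_of_mul_le_mul_left this hW0
  have h1 : σ / t ≤ 2 / W ^ 144 := by
    rw [div_le_div_iff₀ ht (by positivity)]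
    calc σ * W ^ 144 ≤ 2 * W ^ 56 * W ^ 144 := by gcongr
      _ = 2 * W ^ 200 := by ring
      _ ≤ 2 * t := by gcongr
  have h2 : (σ / t) ^ 2 ≤ (2 / W ^ 144) ^ 2 := by gcongr
  have h3 : X * (σ / t) ^ 2 ≤ W ^ 84 * (2 / W ^ 144) ^ 2 :=
    le_trans (mul_le_mul_of_nonneg_right hX1 (by positivity))
      (mul_le_mul_of_nonneg_left h2 (by positivity))
  have h4 : (44 : ℝ) ≤ W ^ 179 := le_trans (le_trans (by norm_num) hW)
    (le_self_pow₀ hW1 (by norm_num))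
  calc W ^ 25 * (11 * (X * (σ / t) ^ 2)) ≤ W ^ 25 * (11 * (W ^ 84 * (2 / W ^ 144) ^ 2)) := by
        gcongr
    _ = 44 / W ^ 179 := by field_simp; norm_num
    _ ≤ 1 := by rw [div_le_one (by positivity)]; exact h4

/-- Moving the scale by a unit and changing the second point. -/
theorem gd_align (P : QF) {W σ t y : ℝ} {U V : ℤ} (hW : 2 ^ 100 ≤ W)
    (hU : U ^ 2 - P.n * V ^ 2 = 1) (ht : t = U + V * P.r) (hσ : 0 < σ) (hσ2 : σ ≤ 2 * W ^ 56)
    (htW : W ^ 200 ≤ t) (h1 : |P.a - P.b| ≤ 10 * |y - P.a|) (h2 : |y - P.a| ≤ 10 * |P.a - P.b|)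
    (hg : Gd W 0 P.a P.b σ⁻¹) : Gd W 1 P.a y (t / σ) := by
  intro q p hqp hX
  have hW0 : (0 : ℝ) < W := lt_of_lt_of_le (by norm_num) hW
  have ht0 : 0 < t := lt_of_lt_of_le (by positivity) htW
  obtain ⟨q', p', h0, ea, eb⟩ := P.unit hU hqp
  have hinv : (U : ℝ) - V * P.r = t⁻¹ := by
    refine eq_inv_of_mul_eq_one_left ?_
    have e : ((U : ℝ)) ^ 2 - P.n * V ^ 2 = 1 := by exact_mod_cast hU
    rw [ht, ← e, ← P.r_sq]; ring
  have hk := hg q' p' h0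
  rw [ea, eb, ← ht, hinv, abs_mul, abs_mul, abs_of_pos ht0, abs_of_pos (inv_pos.2 ht0)] at hk
  obtain ⟨l1, l2⟩ := TransB_lin (q := q) (p := p) h1 h2
  have he := TransB_err hW hσ hσ2 htW hX
  set A := |q * P.a + p|
  set B := |q * P.b + p|
  set Y := |q * y + p|
  have hA : 0 ≤ A := abs_nonneg _
  have hB : 0 ≤ B := abs_nonneg _
  have hY : 0 ≤ Y := abs_nonneg _
  have hs : 0 < W ^ 25 * (σ / t) := by positivity
  have e1 : W ^ 25 * (11 * (t / σ * A * (σ / t) ^ 2)) = W ^ 25 * (σ / t) * (11 * A) := by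
    field_simp
  have e2 : W ^ 25 * (t⁻¹ * B / σ⁻¹) = W ^ 25 * (σ / t) * B := by field_simp
  have e3 : W ^ 25 * (Y / (t / σ)) = W ^ 25 * (σ / t) * Y := by field_simp
  rw [e1] at he
  refine ok_trans (l := 0) hW (by positivity) (by positivity) (by positivity) (by positivity) hk
    ?_ ?_ ?_ hX
  · have : σ⁻¹ * (t * A) = t / σ * A := by ring
    rw [this]
    have : 0 ≤ t / σ * A := by positivity
    linarith
  · rw [e2, e3]
    have := mul_le_mul_of_nonneg_left l2 hs.le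
    have : 0 ≤ W ^ 25 * (σ / t) * Y := by positivity
    nlinarith
  · rw [e2, e3]
    have := mul_le_mul_of_nonneg_left l1 hs.le
    have : 0 ≤ W ^ 25 * (σ / t) * B := by positivity
    nlinarith

theorem TransB_big {W σ σ' d x y q p : ℝ} {l : ℕ} (hW : 2 ^ 100 ≤ W) (hσ : 0 < σ) (hd : 0 < d)
    (h1 : σ ≤ 1000 * σ') (h2 : σ' ≤ 1000 * σ) (hxy : d / 2 ≤ |x - y|)
    (hq : 4000 * W ^ 85 / (σ * d) ≤ |q|)
    (hf : 64 * 10 ^ 6 * σ ^ 2 * W ^ 25 / d ^ 3 ≤ |q * x + p| * |q| ^ 3) :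
    Ok W l (σ' * |q * x + p|) (|q * y + p| / σ') := by
  intro hX
  left
  have hW1 : (1 : ℝ) ≤ W := le_trans (by norm_num) hW
  have hσ' : 0 < σ' := by linarith
  have hl : (1 : ℝ) ≤ W ^ l := one_le_pow₀ hW1
  have e3 : |q| * |x - y| ≤ |q * y + p| + |q * x + p| := by
    rw [← abs_mul]
    calc |q * (x - y)| = |(q * x + p) - (q * y + p)| := by ring_nf
      _ ≤ |q * x + p| + |q * y + p| := abs_sub _ _
      _ = _ := add_comm _ _
  set A := |q * x + p|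
  set Y := |q * y + p|
  set Q := |q|
  have hA : 0 ≤ A := abs_nonneg _
  have hY : 0 ≤ Y := abs_nonneg _
  have hQ : 0 ≤ Q := abs_nonneg _
  have hA1 : σ' * A ≤ W ^ 85 := le_trans (le_mul_of_one_le_left (by positivity) hl) hX
  rw [div_le_iff₀ (by positivity)] at hq hf
  have hA2 : A ≤ Q * d / 4 := by
    have : σ * A ≤ σ * (Q * d / 4) := by nlinarith
    exact le_of_mul_le_mul_left this hσ
  have hY1 : Q * d / 4 ≤ Y := by nlinarith
  have hY3 : (Q * d / 4) ^ 3 ≤ Y ^ 3 := by gcongr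
  have hs2 : σ' ^ 2 ≤ (1000 * σ) ^ 2 := by gcongr
  have key : W ^ 25 * σ' ^ 2 ≤ A * Y ^ 3 :=
    calc W ^ 25 * σ' ^ 2 ≤ W ^ 25 * (1000 * σ) ^ 2 := by gcongr
      _ = 64 * 10 ^ 6 * σ ^ 2 * W ^ 25 / 64 := by ring
      _ ≤ A * Q ^ 3 * d ^ 3 / 64 := by gcongr
      _ = A * (Q * d / 4) ^ 3 := by ring
      _ ≤ A * Y ^ 3 := by gcongr
  have e : σ' * A * (Y / σ') ^ 3 = A * Y ^ 3 / σ' ^ 2 := by field_simp
  calc W ^ 25 ≤ σ' * A * (Y / σ') ^ 3 := by rw [e, le_div_iff₀ (by positivity)]; exact key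
    _ ≤ W ^ l * (σ' * A * (Y / σ') ^ 3) := le_mul_of_one_le_left (by positivity) hl
    _ = _ := by ring

theorem TransB_small {W σ σ' A A' B B' e : ℝ} {l : ℕ} (hW : 2 ^ 100 ≤ W) (hσ : 0 < σ)
    (h1 : σ ≤ 1000 * σ') (h2 : σ' ≤ 1000 * σ) (hA : 0 ≤ A) (hB : 0 ≤ B) (hB' : 0 ≤ B')
    (hAA : A ≤ 2 * A') (e1 : B ≤ B' + e) (e2 : B' ≤ B + e) (he : 1000 * W ^ 25 * e ≤ σ)
    (h : Ok W l (σ * A) (B / σ)) : Ok W (l + 1) (σ' * A') (B' / σ') := by
  have hW0 : (0 : ℝ) < W := lt_of_lt_of_le (by norm_num) hW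
  have hσ' : 0 < σ' := by linarith
  have hA' : 0 ≤ A' := by linarith
  have hw : 0 < W ^ 25 := by positivity
  have f1 : B' / σ ≤ 1000 * (B' / σ') := by
    rw [← mul_div_assoc, div_le_div_iff₀ hσ hσ']; nlinarith
  have f2 : B' / σ' ≤ 1000 * (B' / σ) := by
    rw [← mul_div_assoc, div_le_div_iff₀ hσ' hσ]; nlinarith
  have f3 : 1000 * (W ^ 25 * (e / σ)) ≤ 1 := by
    have : 1000 * (W ^ 25 * (e / σ)) = 1000 * W ^ 25 * e / σ := by ring
    rw [this, div_le_one hσ]; exact he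
  have f4 : B / σ ≤ B' / σ + e / σ := by rw [← add_div]; gcongr
  have f5 : B' / σ ≤ B / σ + e / σ := by rw [← add_div]; gcongr
  have f6 : 0 ≤ B / σ := by positivity
  have f7 : 0 ≤ B' / σ' := by positivity
  refine ok_trans hW (by positivity) (by positivity) (by positivity) (by positivity) h ?_ ?_ ?_
  · nlinarith [mul_le_mul h1 hAA hA (by positivity), mul_nonneg hσ'.le hA']
  · nlinarith [mul_le_mul_of_nonneg_left f1 hw.le, mul_le_mul_of_nonneg_left f4 hw.le,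
      mul_nonneg hw.le f7]
  · nlinarith [mul_le_mul_of_nonneg_left f2 hw.le, mul_le_mul_of_nonneg_left f5 hw.le,
      mul_nonneg hw.le f6]

theorem TransB_near (q p x x' : ℝ) : |q * x + p| ≤ |q * x' + p| + |q| * |x - x'| := by
  rw [← abs_mul]
  calc |q * x + p| = |(q * x' + p) + q * (x - x')| := by ring_nf
    _ ≤ _ := abs_add_le _ _

/-- Passing to the members of a family. -/
theorem gd_limit {T x y : ℕ → ℝ} {x₀ y₀ σ W : ℝ} {l : ℕ} (hW : 2 ^ 100 ≤ W)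
    (hx : Conv T x x₀) (hy : Tendsto y atTop (𝓝 y₀)) (hxy : x₀ ≠ y₀) (hσ : 0 < σ)
    (hg : Gd W l x₀ y₀ σ) : ∀ᶠ k in atTop, ∀ σ' : ℝ, σ ≤ 1000 * σ' → σ' ≤ 1000 * σ →
      Gd W (l + 1) (x k) (y k) σ' := by
  have hW0 : (0 : ℝ) < W := lt_of_lt_of_le (by norm_num) hW
  have hd : 0 < |x₀ - y₀| := abs_pos.2 (sub_ne_zero.2 hxy)
  set d := |x₀ - y₀| with hdd
  obtain ⟨Q₀, hQ₀⟩ := hx.far (64 * 10 ^ 6 * σ ^ 2 * W ^ 25 / d ^ 3)
  obtain ⟨κ, hκ, hD⟩ := hx.ba.dio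
  set Q := max (max Q₀ (4000 * W ^ 85 / (σ * d))) 1 with hQ
  have hQ1 : 1 ≤ Q := le_max_right _ _
  have hQp : 0 < Q := by linarith
  have near : ∀ {z : ℕ → ℝ} {z₀ ε : ℝ}, Tendsto z atTop (𝓝 z₀) → 0 < ε →
      ∀ᶠ k in atTop, |z k - z₀| ≤ ε := fun {z z₀ ε} hz hε => by
    filter_upwards [(Metric.tendsto_nhds.1 hz) ε hε] with k hk
    rw [Real.dist_eq] at hk
    exact hk.le
  filter_upwards [hQ₀, near hx.tendsto (show 0 < d / 4 by positivity),
    near hx.tendsto (show 0 < κ / (2 * Q ^ 4) by positivity),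
    near hy (show 0 < d / 4 by positivity),
    near hy (show 0 < σ / (1000 * W ^ 25 * Q) by positivity)] with k k0 k1 k2 k3 k4
  intro σ' h1 h2 q p hqp
  by_cases hq : Q ≤ |(q : ℝ)|
  · refine TransB_big hW hσ hd h1 h2 ?_
      (le_trans (le_trans (le_max_right _ _) (le_max_left _ _)) hq)
      (k0 q p (le_trans (le_trans (le_max_left _ _) (le_max_left _ _)) hq))
    have : d ≤ |x k - x₀| + |x k - y k| + |y k - y₀| := by
      calc d = |(-(x k - x₀) + (x k - y k)) + (y k - y₀)| := by rw [hdd]; ring_nf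
        _ ≤ |-(x k - x₀) + (x k - y k)| + |y k - y₀| := abs_add_le _ _
        _ ≤ |-(x k - x₀)| + |x k - y k| + |y k - y₀| := by gcongr; exact abs_add_le _ _
        _ = _ := by rw [abs_neg]
    linarith
  · have hq' : |(q : ℝ)| ≤ Q := (not_le.1 hq).le
    have hq0 : 0 ≤ |(q : ℝ)| := abs_nonneg _
    refine TransB_small (e := |(q : ℝ)| * |y k - y₀|) hW hσ h1 h2 (abs_nonneg _) (abs_nonneg _)
      (abs_nonneg _) ?_ ?_ (TransB_near _ _ _ _) ?_ (hg q p hqp)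
    · have n1 := TransB_near q p x₀ (x k)
      rw [abs_sub_comm] at n1
      have n2 : 2 * (|(q : ℝ)| * |x k - x₀|) ≤ |q * x₀ + p| := by
        by_cases h0 : q = 0
        · simp [h0]
        · have n3 := hD q p h0
          have n4 : |q * x₀ + p| * |(q : ℝ)| ^ 3 ≤ |q * x₀ + p| * Q ^ 3 := by gcongr
          have n5 : |(q : ℝ)| * |x k - x₀| ≤ Q * (κ / (2 * Q ^ 4)) := by gcongr
          have n6 : 2 * (Q * (κ / (2 * Q ^ 4))) = κ / Q ^ 3 := by field_simp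
          have n7 : κ / Q ^ 3 ≤ |q * x₀ + p| := by
            rw [div_le_iff₀ (by positivity)]; linarith
          linarith
      linarith
    · have n1 := TransB_near q p y₀ (y k)
      rwa [abs_sub_comm] at n1
    · have n5 : |(q : ℝ)| * |y k - y₀| ≤ Q * (σ / (1000 * W ^ 25 * Q)) := by gcongr
      calc 1000 * W ^ 25 * (|(q : ℝ)| * |y k - y₀|)
          ≤ 1000 * W ^ 25 * (Q * (σ / (1000 * W ^ 25 * Q))) := by gcongr
        _ = σ := by field_simp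

end Pool.Agent.MP_06f5ad_nt.Q2
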