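import Pool.Agent.MP_06f5ad_nt.Q2.StepA
import Pool.Agent.MP_06f5ad_nt.Q2.StepB
import Pool.Agent.MP_06f5ad_nt.Q2.Next
import Pool.Agent.MP_06f5ad_nt.Q2.TransB

/-!
The inductive step and the start.
-/

namespace Pool.Agent.MP_06f5ad_nt.Q2

open Filter Topology

theorem Step_near {x : ℕ → ℝ} {x₀ : ℝ} (h : Tendsto x atTop (𝓝 x₀)) (c : ℝ) {e : ℝ} (he : 0 < e) :
    ∀ᶠ k in atTop, c * |x k - x₀| ≤ e := by
  have h1 : Tendsto (fun k => c * |x k - x₀|) atTop (𝓝 (c * |x₀ - x₀|)) :=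
    ((h.sub_const x₀).abs).const_mul c
  rw [sub_self, abs_zero, mul_zero] at h1
  exact h1.eventually (ge_mem_nhds he)

theorem Step_bd (P : QF) (ha : |P.a| ≤ 1) (hb : |P.b| ≤ 1) : P.Bd P.A := by
  have hA := P.Apos
  refine ⟨(abs_of_pos hA).le, ?_, ?_⟩
  · rw [P.B_eq, abs_div, abs_neg, abs_mul, abs_of_pos hA, abs_two]
    have := abs_add_le P.a P.b
    nlinarith
  · rw [P.C_eq, abs_mul, abs_of_pos hA, abs_mul]
    have : |P.a| * |P.b| ≤ 1 := mul_le_one₀ ha (abs_nonneg _) hb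
    nlinarith

theorem Step_sgn {s : ℝ} (hs : s = 1 ∨ s = -1) (x : ℝ) : |s * x| = |x| := by
  rcases hs with rfl | rfl <;> simp

/-- Distances from a point close to the target. -/
theorem Step_pos {W s a b x y e : ℝ} (hW : 2 ^ 100 ≤ W) (hs : s = 1 ∨ s = -1)
    (ht : |W ^ 20 * (s * (x - a)) - 3| ≤ 1 / W) (hb : s * (b - a) ≤ 0)
    (hy : W ^ 250 * |y - x| ≤ e) (he : e ≤ 1) :
    2.5 ≤ W ^ 20 * |y - a| ∧ W ^ 20 * |y - a| ≤ 3.5 ∧ 2.5 ≤ W ^ 20 * |y - b| := by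
  have hW1 : (1 : ℝ) ≤ W := le_trans (by norm_num) hW
  have hW0 : (0 : ℝ) < W := by linarith
  have h1 : 1 / W ≤ 1 / 4 := one_div_le_one_div_of_le (by norm_num) (le_trans (by norm_num) hW)
  have h2 : W ^ 20 * |y - x| ≤ 1 / 4 := by
    have h3 : (4 : ℝ) ≤ W ^ 230 := le_trans (le_trans (by norm_num) hW) (le_self_pow₀ hW1 (by norm_num))
    have h4 : W ^ 250 * |y - x| = W ^ 230 * (W ^ 20 * |y - x|) := by ring
    have h5 : 0 ≤ W ^ 20 * |y - x| := by positivity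
    nlinarith
  have hp : (0 : ℝ) < W ^ 20 := by positivity
  have h3 : |W ^ 20 * (s * (y - x))| ≤ 1 / 4 := by
    rwa [abs_mul, abs_of_pos hp, Step_sgn hs]
  have h4 : W ^ 20 * |y - a| = |W ^ 20 * (s * (y - a))| := by
    rw [abs_mul, abs_of_pos hp, Step_sgn hs]
  have h5 : W ^ 20 * |y - b| = |W ^ 20 * (s * (y - b))| := by
    rw [abs_mul, abs_of_pos hp, Step_sgn hs]
  have h6 : W ^ 20 * (s * (b - a)) ≤ 0 := mul_nonpos_of_nonneg_of_nonpos hp.le hb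
  rw [abs_le] at ht h3
  rw [h4, h5]
  refine ⟨le_trans ?_ (le_abs_self _), abs_le.2 ⟨?_, ?_⟩, le_trans ?_ (le_abs_self _)⟩ <;> nlinarith

/-- The auxiliary family. -/
theorem Step_aux (P : QF) {O : Tr} (hO : O.NS) (hr : res P.toTr O = 1) {W : ℕ}
    (hW : (2 : ℝ) ^ 100 ≤ W) {s : ℝ} (hs : s = 1 ∨ s = -1) (hb : s * (P.b - P.a) ≤ 0)
    (hπ : 1 ≤ (W : ℝ) ^ 42 * |O.ev P.b|) (hab : |P.a - P.b| ≤ 1 / 2) :
    ∃ (j u : ℤ) (φ y : ℝ) (F : ℕ → QF) (T : ℕ → ℝ),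
      |(W : ℝ) ^ 20 * (s * ((1 + W * j) / (W : ℝ) ^ 22 - P.a)) - 3| ≤ 1 / (W : ℝ) ∧
      φ = O.A * P.b + O.B + u / (((W : ℤ) ^ 300 : ℤ) : ℝ) ∧ φ ≠ 0 ∧ y = P.b - O.ev P.b / φ ∧
      (W : ℝ) ^ 250 * |y - (1 + W * j) / (W : ℝ) ^ 22| ≤ 1 / 8 ∧
      |φ - O.ev P.b / (P.b - (1 + W * j) / (W : ℝ) ^ 22)| ≤ 1 ∧
      Conv T (fun k => (F k).a) P.a ∧ Conv T (fun k => (F k).b) y ∧
      Tendsto (fun k => ((F k).A : ℝ)) atTop atTop ∧
      ∀ᶠ k in atTop, res P.toTr (F k).toTr = 1 := by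
  have hW1 : (1 : ℝ) ≤ W := le_trans (by norm_num) hW
  obtain ⟨j, hj⟩ := target hW P.a hs
  set x : ℝ := (1 + W * j) / (W : ℝ) ^ 22 with hx
  obtain ⟨-, p2, p3⟩ := Step_pos (y := x) (e := 0) hW hs hj hb (by simp) zero_le_one
  have h20 : (8 : ℝ) ≤ (W : ℝ) ^ 20 :=
    le_trans (le_trans (by norm_num) hW) (le_self_pow₀ hW1 (by norm_num))
  have h1 : |P.b - x| ≤ 1 := by
    have := abs_sub_le P.b P.a x
    rw [abs_sub_comm P.b P.a, abs_sub_comm P.a x] at this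
    nlinarith [abs_nonneg (x - P.a)]
  have h2 : P.b ≠ x := by
    intro e
    rw [e, sub_self, abs_zero, mul_zero] at p3
    norm_num at p3
  obtain ⟨u, u1, u2, u3⟩ := choose_mu hW (O.A * P.b + O.B) hπ h1 h2
  have hv : ((W : ℤ) ^ 300 : ℤ) ≠ 0 := by
    have : (W : ℤ) ≠ 0 := by exact_mod_cast (by linarith : (W : ℝ) ≠ 0)
    exact pow_ne_zero _ this
  obtain ⟨q1, -, -⟩ := Step_pos hW hs hj hb u2 (by norm_num)
  obtain ⟨F, T, c1, c2, c3, c4⟩ := gs P hO hr (u := u) hv rfl u1 rfl (by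
    intro e
    rw [e, sub_self, abs_zero, mul_zero] at q1
    norm_num at q1)
  exact ⟨j, u, _, _, F, T, hj, rfl, u1, rfl, u2, u3, c1, c2, c3, c4.mono fun k h => h.1⟩

theorem Step_scale {W A V ρ T σ d d1 d2 : ℝ} (hW : 0 < W) (hA : 0 < A) (hV : 0 ≤ V) (hρ : 0 < ρ)
    (hσ : 0 < σ) (t1 : T ≤ 4 * (V * ρ)) (t2 : 2 * (V * ρ) ≤ T)
    (s1 : 2 * (V * A * (d1 * d2)) ≤ σ * d) (s2 : σ * d ≤ 6 * (V * A * (d1 * d2)))
    (l : 1 / 2 ≤ W ^ 20 * d) (u : W ^ 20 * d ≤ 10) (l1 : 1 / 2 ≤ W ^ 20 * d1)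
    (u1 : W ^ 20 * d1 ≤ 10) (l2 : 1 / 2 ≤ W ^ 20 * d2) (u2 : W ^ 20 * d2 ≤ 10) :
    A * T / (W ^ 20 * ρ) ≤ 1000 * σ ∧ σ ≤ 1000 * (A * T / (W ^ 20 * ρ)) := by
  have hp : 0 < W ^ 20 := by positivity
  set w := W ^ 20
  have hVA : 0 ≤ V * A := by positivity
  have m1 : 1 / 4 ≤ (w * d1) * (w * d2) := by nlinarith
  have m2 : (w * d1) * (w * d2) ≤ 100 := by nlinarith
  have a1 : V * A / 2 ≤ σ * w * 10 := by
    have := mul_le_mul_of_nonneg_left s1 (show 0 ≤ w * w by positivity)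
    have h2 := mul_le_mul_of_nonneg_left m1 hVA
    have h3 := mul_le_mul_of_nonneg_left u (show 0 ≤ σ * w by positivity)
    nlinarith
  have a2 : σ * w / 2 ≤ 600 * (V * A) := by
    have := mul_le_mul_of_nonneg_left s2 (show 0 ≤ w * w by positivity)
    have h2 := mul_le_mul_of_nonneg_left m2 hVA
    have h3 := mul_le_mul_of_nonneg_left l (show 0 ≤ σ * w by positivity)
    nlinarith
  constructor
  · rw [div_le_iff₀ (by positivity)]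
    have h1 := mul_le_mul_of_nonneg_left t1 hA.le
    have h2 := mul_le_mul_of_nonneg_right a1 hρ.le
    have h3 : 0 ≤ σ * w * ρ := by positivity
    nlinarith
  · rw [← mul_div_assoc, le_div_iff₀ (by positivity)]
    have h1 := mul_le_mul_of_nonneg_left t2 hA.le
    have h2 := mul_le_mul_of_nonneg_right a2 hρ.le
    have h3 : 0 ≤ V * A * ρ := by positivity
    nlinarith

theorem Step_main {W N : ℕ} (hN : N = W + 1) {s : ℝ} {P : QF} {O : Tr} (h : Inv W s P O) {E : ℝ}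
    (hE : 0 < E) : ∃ Q : QF, Inv N (-s) Q P.toTr ∧ |P.a - Q.a| ≤ E ∧ Gd W 2 Q.b Q.a (Q.n : ℝ)⁻¹ ∧
      Dio Q.b (1 / (P.A : ℝ) ^ 2) := by
  have hW := h.big
  have hW1 : (1 : ℝ) ≤ W := le_trans (by norm_num) hW
  have hW0 : (0 : ℝ) < W := by linarith
  have hc : (N : ℝ) = W + 1 := by rw [hN]; push_cast; ring
  have hW' : (2 : ℝ) ^ 100 ≤ (N : ℝ) := by rw [hc]; linarith
  have hs' : -s = 1 ∨ -s = -1 := by rcases h.sgn with e | e <;> simp [e]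
  have hp : (0 : ℝ) < (W : ℝ) ^ 20 := by positivity
  have h20 : (100 : ℝ) ≤ (W : ℝ) ^ 20 :=
    le_trans (le_trans (by norm_num) hW) (le_self_pow₀ hW1 (by norm_num))
  have hpw : ∀ k ≤ 1000, (N : ℝ) ^ k ≤ 2 * (W : ℝ) ^ k := fun k hk =>
    (pow_le_pow_left₀ (by linarith) (by linarith) k).trans (succ_pow hW hk)
  have hpw' : ∀ k, (W : ℝ) ^ k ≤ (N : ℝ) ^ k := fun k =>
    pow_le_pow_left₀ hW0.le (by linarith) k
  have hsb : 0 ≤ s * (P.b - P.a) := by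
    by_contra hn
    have := mul_neg_of_pos_of_neg hp (not_le.1 hn)
    linarith [h.dlo]
  have hd : |P.a - P.b| = s * (P.b - P.a) := by
    rw [abs_sub_comm, ← Step_sgn h.sgn, abs_of_nonneg hsb]
  have d1 : 2 ≤ (W : ℝ) ^ 20 * |P.a - P.b| := by rw [hd]; exact h.dlo
  have d2 : (W : ℝ) ^ 20 * |P.a - P.b| ≤ 4 := by rw [hd]; exact h.dhi
  have hab : |P.a - P.b| ≤ 1 / 25 := by nlinarith [abs_nonneg (P.a - P.b)]
  have ha : |P.a| ≤ 1 / 3 := by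
    have := h.loc
    have : 0 < 1 / (W : ℝ) := by positivity
    linarith
  have hb : |P.b| ≤ 1 / 2 := by
    have := abs_sub_abs_le_abs_sub P.b P.a
    rw [abs_sub_comm] at this
    linarith
  have hA := P.Apos
  have hA2 : (0 : ℝ) < (P.A : ℝ) ^ 2 := by positivity
  obtain ⟨j, u, φ, y, F, T, tg, e1, e2, e3, r1, r2, c1, c2, c3, c4⟩ :=
    Step_aux P h.nsO h.res1 hW' hs' (by linarith) (by
      have h1 := h.evO
      have h2 : (W : ℝ) ^ 41 ≤ (N : ℝ) ^ 42 := by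
        exact (pow_le_pow_right₀ hW1 (by norm_num)).trans (hpw' 42)
      exact h1.trans (mul_le_mul_of_nonneg_right h2 (abs_nonneg _))) (by linarith)
  set x : ℝ := (1 + N * j) / (N : ℝ) ^ 22 with hx
  have pos : ∀ z, (N : ℝ) ^ 250 * |z - x| ≤ 1 →
      2.5 ≤ (N : ℝ) ^ 20 * |z - P.a| ∧ (N : ℝ) ^ 20 * |z - P.a| ≤ 3.5 ∧
        2.5 ≤ (N : ℝ) ^ 20 * |z - P.b| := fun z hz =>
    Step_pos hW' hs' tg (by linarith) hz le_rfl
  have hdy : Dio y (8 / (P.A : ℝ) ^ 2) := by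
    obtain ⟨H, H1, H2, H3⟩ := h.ht
    refine dio_y P h.nsO hW' e1 e2 e3 H1 H2 ?_ (by linarith) hb ?_ ?_ r2
    · have := mul_le_mul_of_nonneg_left (hpw 700 (by norm_num)) (sq_nonneg H)
      linarith
    · have h1 := (pos y (by linarith)).2.1
      have h2 := abs_sub_abs_le_abs_sub y P.a
      have h3 := hpw' 20
      nlinarith [abs_nonneg (y - P.a)]
    · have := (pos x (by simp)).2.2
      rw [abs_sub_comm]
      linarith
  obtain ⟨k₁, k1, k2, k3⟩ := (c4.and ((Step_near c2.tendsto ((N : ℝ) ^ 250)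
    (e := 1 / 8) (by norm_num)).and (c2.dio hdy (κ' := 4 / (P.A : ℝ) ^ 2)
      (div_lt_div_of_pos_right (by norm_num) hA2)))).exists
  set Q := F k₁ with hQ
  obtain ⟨ε₁, U₁, V₁, hε₁, p₁⟩ := pell P one_ne_zero
  obtain ⟨ε₂, U₂, V₂, hε₂, p₂⟩ := pell Q one_ne_zero
  obtain ⟨b1, b2⟩ := bfam P Q k1 hε₂ fun k => ⟨(p₂ k).1, (p₂ k).2.2⟩
  have hρ : 0 < |Q.r| := abs_pos.2 Q.r_ne
  have hind : ∀ l k : ℕ, 0 < k → ε₁ ^ l ≠ ε₂ ^ k := by
    intro l k hk e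
    have h0 := indep P Q k1 (p₁ l).1 (p₂ k).1 (by rw [(p₁ l).2.2, (p₂ k).2.2, e])
    have h1 := (p₂ k).1
    have h2 := (p₂ k).2.2
    rw [h0] at h1 h2
    have h3 : (U₂ k : ℝ) ^ 2 = 1 := by exact_mod_cast (by simpa using h1 : U₂ k ^ 2 = 1)
    have h4 : 1 < ε₂ ^ k := one_lt_pow₀ hε₂ hk.ne'
    have h5 : (U₂ k : ℝ) = ε₂ ^ k := by simpa using h2
    nlinarith
  set c : ℝ := (W : ℝ) ^ 56 * (P.A / ((W : ℝ) ^ 20 * |Q.r|)) with hcdef
  have hc0 : 0 < c := by positivity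
  have hbig : ∀ᶠ k in atTop, (W : ℝ) ^ 200 ≤ c * ε₂ ^ k :=
    ((tendsto_pow_atTop_atTop_of_one_lt hε₂).const_mul_atTop hc0).eventually_ge_atTop _
  obtain ⟨i, ⟨l, al1, al2⟩, ⟨v0, f0, t1, t2⟩, i2, i3, i4⟩ :=
    ((align hε₁ hε₂ hind hc0).and_eventually (b2.and
      ((Step_near b1.tendsto ((N : ℝ) ^ 250) (e := 1 / 8) (by norm_num)).and
      ((b1.dio k3 (κ' := 2 / (P.A : ℝ) ^ 2) (div_lt_div_of_pos_right (by norm_num) hA2)).and
      hbig)))).exists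
  set y₂ : ℝ := P.b - Q.ev P.b / (Q.A * P.b + Q.B + ((-U₂ i : ℤ) : ℝ) / V₂ i) with hy₂
  have r3 : (N : ℝ) ^ 250 * |y₂ - x| ≤ 1 / 2 := by
    have h1 : |y₂ - x| ≤ |y₂ - Q.b| + |Q.b - y| + |y - x| := by
      have := abs_sub_le y₂ Q.b y
      have := abs_sub_le y₂ y x
      linarith
    have := mul_le_mul_of_nonneg_left h1 (show 0 ≤ (N : ℝ) ^ 250 by positivity)
    linarith
  obtain ⟨g1, g2, g3⟩ := pos y₂ (by linarith)
  have hya : y₂ ≠ P.a := by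
    intro e
    rw [e, sub_self, abs_zero, mul_zero] at g1
    norm_num at g1
  set σ : ℝ := P.A * ε₂ ^ i / ((W : ℝ) ^ 20 * |Q.r|) with hσ
  have hε0 : 0 < ε₂ ^ i := by positivity
  have hσ0 : 0 < σ := by positivity
  have ht0 : 0 < ε₁ ^ l := by positivity
  have hcσ : c * ε₂ ^ i = (W : ℝ) ^ 56 * σ := by rw [hcdef, hσ]; ring
  have hG1 : Gd W 1 P.a y₂ σ := by
    obtain ⟨j₀, hj₀⟩ := h.rat
    have h5 : (W : ℝ) ^ 56 ≤ ε₁ ^ l / σ := by rw [le_div_iff₀ hσ0]; linarith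
    have h6 : ε₁ ^ l / σ ≤ 2 * (W : ℝ) ^ 56 := by rw [div_le_iff₀ hσ0]; linarith
    have h7 := gd_align P (y := y₂) hW (p₁ l).1 (p₁ l).2.2.symm (div_pos ht0 hσ0) h6
      (i4.trans al1) ?_ ?_ (fresh hW d1 d2 hj₀ h.dio h5 h6)
    · rwa [div_div_cancel₀ ht0.ne'] at h7
    · have := mul_le_mul_of_nonneg_right (hpw 20 (by norm_num)) (abs_nonneg (y₂ - P.a))
      refine le_of_mul_le_mul_left ?_ hp
      linarith
    · have := mul_le_mul_of_nonneg_right (hpw' 20) (abs_nonneg (y₂ - P.a))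
      refine le_of_mul_le_mul_left ?_ hp
      linarith
  obtain ⟨G, T', m1, m2, m3, m4⟩ := gs P Q.ns k1 (u := -U₂ i) v0 rfl f0 hy₂ hya
  have hinv := inv_ev P (κ := 1 / (W : ℝ)) hW' hs' P.one_le_A
    (Step_bd P (by linarith) (by linarith))
    (by
      have := h.loc
      have h2 : 1 / (N : ℝ) < 1 / (W : ℝ) :=
        one_div_lt_one_div_of_lt hW0 (by rw [hc]; linarith)
      linarith) h.dio (one_div_lt_one_div_of_lt hW0 (by rw [hc]; linarith)) m1 m2.tendsto m3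
    (m4.mono fun k h => h.1) r3 tg (by linarith)
  obtain ⟨k, ⟨n1, n2⟩, n3, n4, n5, n6, n7⟩ := (m4.and (hinv.and
    ((Step_near m1.tendsto 1 hE).and ((Step_near m1.tendsto ((W : ℝ) ^ 20) (e := 1 / 4)
      (by norm_num)).and ((m2.dio i3 (κ' := 1 / (P.A : ℝ) ^ 2)
        (div_lt_div_of_pos_right (by norm_num) hA2)).and
        (gd_limit hW m1 m2.tendsto hya.symm hσ0 hG1)))))).exists
  refine ⟨G k, n3, by rw [abs_sub_comm]; linarith, ?_, n6⟩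
  obtain ⟨U', hU'⟩ := n2 (by rw [neg_sq]; exact (p₂ i).1)
  obtain ⟨σ₁, s0, s1, s2, s3⟩ := gd_w P (G k) n1 hU' v0
  have sh := shape hW0.le le_rfl (hc ▸ hpw 20 (by norm_num)) h (hN ▸ n3) (by rwa [abs_sub_comm])
  obtain ⟨w1, w2⟩ := Step_scale hW0 hA (abs_nonneg _) hρ s0 t1 t2 s1 s2 sh.l2 sh.u2 sh.l3 sh.u3
    sh.l5 sh.u5
  exact s3 W 2 (n7 σ₁ w1 w2)

theorem step {W : ℕ} {s : ℝ} {P : QF} {O : Tr} (h : Inv W s P O) {E : ℝ} (hE : 0 < E) :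
    ∃ Q : QF, Inv (W + 1) (-s) Q P.toTr ∧ |P.a - Q.a| ≤ E ∧ Gd W 2 Q.b Q.a (Q.n : ℝ)⁻¹ ∧
      Dio Q.b (1 / (P.A : ℝ) ^ 2) :=
  Step_main rfl h hE

/-- The first quadratic `7 x ^ 2 + 6 x + 1`. -/
noncomputable def Step_P : QF where
  A := 7
  B := 3
  C := 1
  a := (-3 + √2) / 7
  b := (-3 - √2) / 7
  pos := by norm_num
  sum := by push_cast; ring
  prod := by
    have := Real.sq_sqrt (show (0 : ℝ) ≤ 2 by norm_num)
    push_cast; nlinarith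
  ns := by unfold Tr.NS Tr.n; norm_num

theorem init : ∃ (W : ℕ) (P : QF) (O : Tr), Inv W 1 P O := by
  obtain ⟨κ, hκ, hd⟩ := Step_P.ba_a.dio
  obtain ⟨W, hW'⟩ := exists_nat_gt (max (2 ^ 100) (1 / κ))
  have hW : (2 : ℝ) ^ 100 ≤ W := (le_max_left _ _).trans hW'.le
  have hW1 : (100 : ℝ) ≤ W := le_trans (by norm_num) hW
  have hκ' : 1 / (W : ℝ) < κ := by
    rw [one_div_lt (by linarith) hκ]; exact (le_max_right _ _).trans_lt hW'
  have s2 := Real.sq_sqrt (show (0 : ℝ) ≤ 2 by norm_num)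
  have s0 := Real.sqrt_nonneg 2
  have s1 : 1.4 ≤ √2 := by nlinarith
  have s3 : √2 ≤ 1.5 := by nlinarith
  have ea : Step_P.a = (-3 + √2) / 7 := rfl
  have eb : Step_P.b = (-3 - √2) / 7 := rfl
  have hb : (1 : ℝ) * (Step_P.b - Step_P.a) ≤ 0 := by rw [ea, eb]; linarith
  have ha : |Step_P.a| ≤ 1 / 4 := by rw [ea, abs_le]; constructor <;> linarith
  have hb1 : |Step_P.b| ≤ 1 := by rw [eb, abs_le]; constructor <;> linarith
  obtain ⟨j, u, φ, y, F, T, tg, -, -, -, r1, -, c1, c2, c3, c4⟩ :=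
    Step_aux Step_P (O := ⟨6, 3, 1⟩) (by unfold Tr.NS Tr.n; norm_num)
      (by unfold res Step_P; norm_num) hW (Or.inl rfl) hb (by
        have h1 : (⟨6, 3, 1⟩ : Tr).ev Step_P.b ≤ -1 / 10 := by
          unfold Tr.ev; rw [eb]; push_cast; nlinarith
        have h2 : 1 / 10 ≤ |(⟨6, 3, 1⟩ : Tr).ev Step_P.b| := le_trans (by linarith) (neg_le_abs _)
        have h3 : (W : ℝ) ≤ (W : ℝ) ^ 42 := le_self_pow₀ (by linarith) (by norm_num)
        nlinarith) (by rw [ea, eb, abs_le]; constructor <;> linarith)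
  obtain ⟨k, hk⟩ := (inv_ev Step_P hW (Or.inl rfl) Step_P.one_le_A
    (Step_bd _ (by linarith) hb1) (by
      have : 1 / (W : ℝ) ≤ 1 / 100 := one_div_le_one_div_of_le (by norm_num) hW1
      linarith) hd hκ' c1 c2.tendsto c3 c4 (by linarith) tg (by
      have := (Step_pos hW (Or.inl rfl) tg hb r1 (by norm_num)).2.2
      linarith)).exists
  exact ⟨W, _, _, hk⟩

end Pool.Agent.MP_06f5ad_nt.Q2
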