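import Pool.Agent.MP_06f5ad_nt.Q2.Approx

/-!
Transfer of goodness, first part.
-/

namespace Pool.Agent.MP_06f5ad_nt.Q2

open Filter Topology

theorem Trans_pow {W : ℝ} (hW : 0 ≤ W) (k : ℕ) : (W + 2) ^ k * (W - 2 * k) ≤ W ^ (k + 1) := by
  induction k with
  | zero => simp
  | succ k ih =>
    have h0 : 0 ≤ (W + 2) ^ k := by positivity
    have hk : (0 : ℝ) ≤ k := Nat.cast_nonneg k
    have h1 : (W + 2) * (W - 2 * ((k + 1 : ℕ) : ℝ)) ≤ W * (W - 2 * k) := by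
      push_cast
      nlinarith
    calc (W + 2) ^ (k + 1) * (W - 2 * ((k + 1 : ℕ) : ℝ))
        = (W + 2) ^ k * ((W + 2) * (W - 2 * ((k + 1 : ℕ) : ℝ))) := by ring
      _ ≤ (W + 2) ^ k * (W * (W - 2 * k)) := mul_le_mul_of_nonneg_left h1 h0
      _ = W * ((W + 2) ^ k * (W - 2 * k)) := by ring
      _ ≤ W * W ^ (k + 1) := mul_le_mul_of_nonneg_left ih hW
      _ = W ^ (k + 1 + 1) := by ring

theorem succ_pow {W : ℝ} (hW : 2 ^ 100 ≤ W) {k : ℕ} (hk : k ≤ 1000) :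
    (W + 2) ^ k ≤ 2 * W ^ k := by
  have hb : (4000 : ℝ) ≤ W := le_trans (by norm_num) hW
  have hW0 : 0 < W := by linarith
  have hk' : (k : ℝ) ≤ 1000 := by exact_mod_cast hk
  have h := Trans_pow hW0.le k
  have h0 : 0 ≤ (W + 2) ^ k := by positivity
  have h2 : (W + 2) ^ k * (W / 2) ≤ (W + 2) ^ k * (W - 2 * k) :=
    mul_le_mul_of_nonneg_left (by linarith) h0
  have h3 : (W + 2) ^ k * W ≤ (2 * W ^ k) * W := by
    have : W ^ (k + 1) = W ^ k * W := pow_succ W k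
    linarith
  exact le_of_mul_le_mul_right h3 hW0

theorem ok_trans {W X Y X' Y' : ℝ} {l : ℕ} (hW : 2 ^ 100 ≤ W) (hX : 0 ≤ X) (hY : 0 ≤ Y)
    (hX' : 0 ≤ X') (hY' : 0 ≤ Y') (h : Ok W l X Y) (h1 : X ≤ 10 ^ 5 * X')
    (h2 : W ^ 25 * Y ≤ 10 ^ 5 * (W ^ 25 * Y' + 1)) (h3 : W ^ 25 * Y' ≤ 10 ^ 5 * (W ^ 25 * Y) + 1) :
    Ok W (l + 1) X' Y' := by
  have hb : (10 ^ 21 : ℝ) ≤ W := le_trans (by norm_num) hW
  have hW1 : 1 ≤ W := by linarith
  have hW0 : 0 < W := by linarith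
  have hl : 1 ≤ W ^ l := one_le_pow₀ hW1
  have hl0 : 0 ≤ W ^ l := by linarith
  intro hs
  have ha : W ^ l * X ≤ W ^ (l + 1) * X' := by
    calc W ^ l * X ≤ W ^ l * (10 ^ 5 * X') := mul_le_mul_of_nonneg_left h1 hl0
      _ ≤ W ^ l * (W * X') :=
          mul_le_mul_of_nonneg_left (mul_le_mul_of_nonneg_right (by linarith) hX') hl0
      _ = W ^ (l + 1) * X' := by ring
  have hs' : W ^ l * X ≤ W ^ 85 := ha.trans hs
  rcases h hs' with hc | ⟨hc, hd⟩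
  · left
    have hY3 : 0 ≤ Y ^ 3 := by positivity
    have e1 : W ^ 25 * 1 ≤ W ^ 25 * (W ^ 20 * Y) ^ 3 := by
      calc W ^ 25 * 1 = W ^ 25 := by ring
        _ ≤ W ^ l * X * Y ^ 3 := hc
        _ ≤ W ^ 85 * Y ^ 3 := mul_le_mul_of_nonneg_right hs' hY3
        _ = W ^ 25 * (W ^ 20 * Y) ^ 3 := by ring
    have e2 : 1 ≤ (W ^ 20 * Y) ^ 3 := le_of_mul_le_mul_left e1 (by positivity)
    have e3 : 1 ≤ W ^ 20 * Y := by
      by_contra hn
      have := pow_lt_one₀ (by positivity : 0 ≤ W ^ 20 * Y) (not_le.1 hn) (by norm_num : 3 ≠ 0)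
      linarith
    have e4 : W ≤ W ^ 25 * Y := by
      calc W = W ^ 1 * 1 := by ring
        _ ≤ W ^ 5 * (W ^ 20 * Y) :=
            mul_le_mul (pow_le_pow_right₀ hW1 (by norm_num)) e3 zero_le_one (by positivity)
        _ = W ^ 25 * Y := by ring
    have e5 : W ^ 25 * Y ≤ W ^ 25 * (2 * 10 ^ 5 * Y') := by
      have : W ^ 25 * (2 * 10 ^ 5 * Y') = 2 * (10 ^ 5 * (W ^ 25 * Y')) := by ring
      linarith
    have e6 : Y ≤ 2 * 10 ^ 5 * Y' := le_of_mul_le_mul_left e5 (by positivity)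
    have e7 : Y ^ 3 ≤ (2 * 10 ^ 5 * Y') ^ 3 := pow_le_pow_left₀ hY e6 3
    have e8 : 0 ≤ W ^ l * X' * Y' ^ 3 := by positivity
    calc W ^ 25 ≤ W ^ l * X * Y ^ 3 := hc
      _ ≤ W ^ l * (10 ^ 5 * X') * (2 * 10 ^ 5 * Y') ^ 3 :=
          mul_le_mul (mul_le_mul_of_nonneg_left h1 hl0) e7 hY3 (by positivity)
      _ = 8 * 10 ^ 20 * (W ^ l * X' * Y' ^ 3) := by ring
      _ ≤ W * (W ^ l * X' * Y' ^ 3) := mul_le_mul_of_nonneg_right (by linarith) e8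
      _ = W ^ (l + 1) * X' * Y' ^ 3 := by ring
  · right
    refine ⟨?_, ?_⟩
    · calc 1 ≤ W ^ (55 + l) * X := hc
        _ = W ^ 55 * (W ^ l * X) := by ring
        _ ≤ W ^ 55 * (W ^ (l + 1) * X') := mul_le_mul_of_nonneg_left ha (by positivity)
        _ = W ^ (55 + (l + 1)) * X' := by ring
    · have e1 : W ^ 25 * Y ≤ W * W ^ l := by
        calc W ^ 25 * Y = W * (W ^ 24 * Y) := by ring
          _ ≤ W * W ^ l := mul_le_mul_of_nonneg_left hd hW0.le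
      have e2 : 1 ≤ W * W ^ l := one_le_mul_of_one_le_of_one_le hW1 hl
      have e3 : W * (W ^ 24 * Y') ≤ W * W ^ (l + 1) := by
        calc W * (W ^ 24 * Y') = W ^ 25 * Y' := by ring
          _ ≤ (10 ^ 5 + 1) * (W * W ^ l) := by linarith
          _ ≤ W * (W * W ^ l) := mul_le_mul_of_nonneg_right (by linarith) (by linarith)
          _ = W * W ^ (l + 1) := by ring
      exact le_of_mul_le_mul_left e3 hW0

theorem gd_swap {W x y σ lam : ℝ} {l : ℕ} (hσ : 0 < σ) (hl : 0 < lam)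
    (h : ∀ q p : ℤ, (q ≠ 0 ∨ p ≠ 0) → ∃ q' p' : ℤ, (q' ≠ 0 ∨ p' ≠ 0) ∧
      |q' * x + p'| = lam * |q * y + p| ∧ lam * |q' * y + p'| = |q * x + p|)
    (hg : Gd W l x y σ) : Gd W l y x (σ * lam) := by
  intro q p hqp
  obtain ⟨q', p', hne, e1, e2⟩ := h q p hqp
  have h0 := hg q' p' hne
  have a1 : σ * lam * |q * y + p| = σ * |q' * x + p'| := by rw [e1]; ring
  have a2 : |q * x + p| / (σ * lam) = |q' * y + p'| / σ := by
    rw [← e2]
    field_simp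
  rw [a1, a2]
  exact h0

/-- The case where the linear form vanishes at the rational point. -/
theorem Trans_zero {w σ d δ I La Lb : ℝ} (hw : 4 ≤ w) (hI : 1 ≤ I) (hd : 2 ≤ w ^ 20 * d)
    (hδ0 : 0 ≤ δ) (hδ : w ^ 250 * δ ≤ 1) (h5 : w ^ 56 ≤ σ) (h6 : σ ≤ 2 * w ^ 56)
    (hLa : I * w ^ 22 * (d - δ) ≤ La) (hLb : Lb = I * w ^ 22 * δ) (hs : σ⁻¹ * La ≤ w ^ 85) :
    1 ≤ w ^ 55 * (σ⁻¹ * La) ∧ w ^ 24 * (Lb / σ⁻¹) ≤ 1 := by
  have hw1 : 1 ≤ w := by linarith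
  have hw0 : 0 < w := by linarith
  have hσ : 0 < σ := lt_of_lt_of_le (by positivity) h5
  have e1 : w ^ 20 * δ ≤ 1 :=
    le_trans (mul_le_mul_of_nonneg_right (pow_le_pow_right₀ hw1 (by norm_num)) hδ0) hδ
  have e2 : I * w ^ 2 ≤ La := by
    calc I * w ^ 2 = I * w ^ 2 * 1 := by ring
      _ ≤ I * w ^ 2 * (w ^ 20 * d - w ^ 20 * δ) :=
          mul_le_mul_of_nonneg_left (by linarith) (by positivity)
      _ = I * w ^ 22 * (d - δ) := by ring
      _ ≤ La := hLa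
  have e3 : La ≤ σ * w ^ 85 := (inv_mul_le_iff₀ hσ).1 hs
  have e4 : I ≤ 2 * w ^ 139 := by
    have : I * w ^ 2 ≤ 2 * w ^ 139 * w ^ 2 := by
      calc I * w ^ 2 ≤ σ * w ^ 85 := e2.trans e3
        _ ≤ 2 * w ^ 56 * w ^ 85 := mul_le_mul_of_nonneg_right h6 (by positivity)
        _ = 2 * w ^ 139 * w ^ 2 := by ring
    exact le_of_mul_le_mul_right this (by positivity)
  constructor
  · have : w ^ 55 * (σ⁻¹ * La) = σ⁻¹ * (w ^ 55 * La) := by ring
    rw [this, le_inv_mul_iff₀ hσ]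
    calc σ * 1 = σ := by ring
      _ ≤ 2 * w ^ 56 := h6
      _ ≤ w * w ^ 56 := mul_le_mul_of_nonneg_right (by linarith) (by positivity)
      _ = w ^ 55 * (1 * w ^ 2) := by ring
      _ ≤ w ^ 55 * (I * w ^ 2) :=
          mul_le_mul_of_nonneg_left (mul_le_mul_of_nonneg_right hI (by positivity))
            (by positivity)
      _ ≤ w ^ 55 * La := mul_le_mul_of_nonneg_left e2 (by positivity)
  · rw [div_inv_eq_mul, hLb]
    calc w ^ 24 * (I * w ^ 22 * δ * σ) = w ^ 46 * δ * (I * σ) := by ring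
      _ ≤ w ^ 46 * δ * (2 * w ^ 139 * (2 * w ^ 56)) :=
          mul_le_mul_of_nonneg_left (mul_le_mul e4 h6 hσ.le (by positivity)) (by positivity)
      _ = 4 * (w ^ 241 * δ) := by ring
      _ ≤ w * (w ^ 241 * δ) :=
          mul_le_mul_of_nonneg_right hw (mul_nonneg (pow_nonneg hw0.le _) hδ0)
      _ = w ^ 242 * δ := by ring
      _ ≤ w ^ 250 * δ := mul_le_mul_of_nonneg_right (pow_le_pow_right₀ hw1 (by norm_num)) hδ0
      _ ≤ 1 := hδ

/-- The case where the linear form does not vanish at the rational point. -/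
theorem Trans_ne {w σ d δ Q La Lb : ℝ} (hw : 8 ≤ w) (hQ : 1 ≤ Q) (hd : 2 ≤ w ^ 20 * d)
    (hδ0 : 0 ≤ δ) (hδ : w ^ 250 * δ ≤ 1) (h5 : w ^ 56 ≤ σ) (h6 : σ ≤ 2 * w ^ 56)
    (hLa0 : 0 ≤ La) (hLb0 : 0 ≤ Lb) (htri : Q * d ≤ La + Lb)
    (hLb : 1 ≤ w ^ 22 * Lb + w ^ 22 * (Q * δ)) (hdio : 1 / w ≤ La * Q ^ 3)
    (hs : σ⁻¹ * La ≤ w ^ 85) : w ^ 25 ≤ σ⁻¹ * La * (Lb / σ⁻¹) ^ 3 := by
  have hw1 : 1 ≤ w := by linarith
  have hw0 : 0 < w := by linarith
  have hσ : 0 < σ := lt_of_lt_of_le (by positivity) h5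
  have e0 : σ⁻¹ * La * (Lb / σ⁻¹) ^ 3 = σ ^ 2 * (La * Lb ^ 3) := by
    field_simp
  have e1 : w ^ 112 ≤ σ ^ 2 := by
    calc w ^ 112 = (w ^ 56) ^ 2 := by ring
      _ ≤ σ ^ 2 := pow_le_pow_left₀ (by positivity) h5 2
  have e2 : 2 * Q ≤ w ^ 20 * La + w ^ 20 * Lb := by
    calc 2 * Q ≤ w ^ 20 * d * Q := mul_le_mul_of_nonneg_right hd (by linarith)
      _ = w ^ 20 * (Q * d) := by ring
      _ ≤ w ^ 20 * (La + Lb) := mul_le_mul_of_nonneg_left htri (by positivity)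
      _ = _ := by ring
  have e3 : La ≤ σ * w ^ 85 := (inv_mul_le_iff₀ hσ).1 hs
  rw [e0]
  refine le_trans ?_ (mul_le_mul_of_nonneg_right e1 (by positivity))
  by_cases hc : Q ≤ w ^ 20 * La
  · have f1 : Q ≤ 2 * w ^ 161 := by
      calc Q ≤ w ^ 20 * La := hc
        _ ≤ w ^ 20 * (2 * w ^ 56 * w ^ 85) :=
            mul_le_mul_of_nonneg_left
              (e3.trans (mul_le_mul_of_nonneg_right h6 (by positivity))) (by positivity)
        _ = 2 * w ^ 161 := by ring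
    have f2 : 2 * (w ^ 22 * (Q * δ)) ≤ 1 := by
      calc 2 * (w ^ 22 * (Q * δ)) = 2 * w ^ 22 * δ * Q := by ring
        _ ≤ 2 * w ^ 22 * δ * (2 * w ^ 161) := mul_le_mul_of_nonneg_left f1 (by positivity)
        _ = 4 * (w ^ 183 * δ) := by ring
        _ ≤ w * (w ^ 183 * δ) :=
            mul_le_mul_of_nonneg_right (by linarith) (mul_nonneg (pow_nonneg hw0.le _) hδ0)
        _ = w ^ 184 * δ := by ring
        _ ≤ w ^ 250 * δ := mul_le_mul_of_nonneg_right (pow_le_pow_right₀ hw1 (by norm_num)) hδ0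
        _ ≤ 1 := hδ
    have f3 : 1 / 2 ≤ w ^ 22 * Lb := by linarith
    have f4 : (1 / 2) ^ 3 ≤ (w ^ 22 * Lb) ^ 3 := pow_le_pow_left₀ (by norm_num) f3 3
    have f5 : 1 * (1 / 2) ^ 3 ≤ w ^ 20 * La * (w ^ 22 * Lb) ^ 3 :=
      mul_le_mul (hQ.trans hc) f4 (by norm_num) (by positivity)
    calc w ^ 25 = w ^ 25 * 8 * (1 * (1 / 2) ^ 3) := by ring
      _ ≤ w ^ 25 * w * (w ^ 20 * La * (w ^ 22 * Lb) ^ 3) :=
          mul_le_mul (mul_le_mul_of_nonneg_left hw (by positivity)) f5 (by norm_num)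
            (by positivity)
      _ = w ^ 112 * (La * Lb ^ 3) := by ring
  · have f1 : Q ≤ w ^ 20 * Lb := by linarith
    have f2 : Q ^ 3 ≤ (w ^ 20 * Lb) ^ 3 := pow_le_pow_left₀ (by linarith) f1 3
    have f3 : 1 / w ≤ La * (w ^ 20 * Lb) ^ 3 := hdio.trans (mul_le_mul_of_nonneg_left f2 hLa0)
    calc w ^ 25 ≤ w ^ 51 := pow_le_pow_right₀ hw1 (by norm_num)
      _ = w ^ 52 * (1 / w) := by field_simp
      _ ≤ w ^ 52 * (La * (w ^ 20 * Lb) ^ 3) := mul_le_mul_of_nonneg_left f3 (by positivity)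
      _ = w ^ 112 * (La * Lb ^ 3) := by ring

theorem Trans_one_le {q : ℤ} (hq : q ≠ 0) : (1 : ℝ) ≤ |(q : ℝ)| := by
  exact_mod_cast Int.one_le_abs hq

/-- Goodness at the small scale. -/
theorem fresh {W : ℕ} {a b σ : ℝ} {j : ℤ} (hW : (2 : ℝ) ^ 100 ≤ W)
    (h1 : 2 ≤ (W : ℝ) ^ 20 * |a - b|) (h2 : (W : ℝ) ^ 20 * |a - b| ≤ 4)
    (h3 : (W : ℝ) ^ 250 * |b - (1 + W * j) / (W : ℝ) ^ 22| ≤ 1) (h4 : Dio a (1 / W))
    (h5 : (W : ℝ) ^ 56 ≤ σ) (h6 : σ ≤ 2 * (W : ℝ) ^ 56) : Gd W 0 a b σ⁻¹ := by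
  have hw : (8 : ℝ) ≤ W := le_trans (by norm_num) hW
  have hw1 : (1 : ℝ) ≤ W := by linarith
  have hw0 : (0 : ℝ) < W := by linarith
  have hσ : 0 < σ := lt_of_lt_of_le (by positivity) h5
  set δ : ℝ := b - (1 + W * j) / (W : ℝ) ^ 22 with hδ
  intro q p hqp hs
  rw [pow_zero, one_mul] at hs
  simp only [pow_zero, one_mul, add_zero]
  by_cases hD : q * (1 + W * j) + p * (W : ℤ) ^ 22 = 0
  · right
    have hco : IsCoprime ((W : ℤ) ^ 22) (1 + W * j) :=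
      IsCoprime.pow_left ⟨-j, 1, by ring⟩
    have hdv : (W : ℤ) ^ 22 ∣ q := hco.dvd_of_dvd_mul_right ⟨-p, by linarith⟩
    obtain ⟨i, hi⟩ := hdv
    have hWz : (W : ℤ) ^ 22 ≠ 0 := by
      have : (W : ℤ) ≠ 0 := by exact_mod_cast hw0.ne'
      positivity
    have hp : p = -((1 + W * j) * i) := by
      apply mul_left_cancel₀ hWz
      rw [hi] at hD
      linarith
    have hi0 : i ≠ 0 := by
      rintro rfl
      rcases hqp with h | h
      · exact h (by simpa using hi)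
      · exact h (by simpa using hp)
    have ea : (q : ℝ) * a + p = i * (W : ℝ) ^ 22 * ((a - b) + δ) := by
      rw [hi, hp, hδ]
      push_cast
      field_simp
      ring
    have eb : (q : ℝ) * b + p = i * (W : ℝ) ^ 22 * δ := by
      rw [hi, hp, hδ]
      push_cast
      field_simp
      ring
    refine Trans_zero (by linarith) (Trans_one_le hi0) h1 (abs_nonneg δ) h3 h5 h6 ?_ ?_ hs
    · rw [ea, abs_mul, abs_mul, abs_of_pos (by positivity : (0 : ℝ) < (W : ℝ) ^ 22)]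
      refine mul_le_mul_of_nonneg_left ?_ (by positivity)
      have := abs_sub (a - b + δ) δ
      rw [add_sub_cancel_right] at this
      linarith
    · rw [eb, abs_mul, abs_mul, abs_of_pos (by positivity : (0 : ℝ) < (W : ℝ) ^ 22)]
  · left
    by_cases hq : q = 0
    · have hp : p ≠ 0 := hqp.resolve_left (fun h => h hq)
      have hp1 := Trans_one_le hp
      subst hq
      simp only [Int.cast_zero, zero_mul, zero_add]
      have e0 : σ⁻¹ * |(p : ℝ)| * (|(p : ℝ)| / σ⁻¹) ^ 3 = σ ^ 2 * |(p : ℝ)| ^ 4 := by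
        field_simp
      rw [e0]
      calc (W : ℝ) ^ 25 ≤ (W : ℝ) ^ 112 := pow_le_pow_right₀ hw1 (by norm_num)
        _ = ((W : ℝ) ^ 56) ^ 2 * 1 := by ring
        _ ≤ σ ^ 2 * |(p : ℝ)| ^ 4 :=
            mul_le_mul (pow_le_pow_left₀ (by positivity) h5 2) (one_le_pow₀ hp1) zero_le_one
              (by positivity)
    · refine Trans_ne hw (Trans_one_le hq) h1 (abs_nonneg δ) h3 h5 h6 (abs_nonneg _)
        (abs_nonneg _) ?_ ?_ (h4 q p hq) hs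
      · have := abs_sub ((q : ℝ) * a + p) (q * b + p)
        rw [← abs_mul, show (q : ℝ) * (a - b) = q * a + p - (q * b + p) by ring]
        exact this
      · have hD1 := Trans_one_le hD
        have e : ((q * (1 + W * j) + p * (W : ℤ) ^ 22 : ℤ) : ℝ) =
            (W : ℝ) ^ 22 * (q * b + p) - (W : ℝ) ^ 22 * (q * δ) := by
          rw [hδ]
          push_cast
          field_simp
          ring
        rw [e] at hD1
        have := abs_sub ((W : ℝ) ^ 22 * (q * b + p)) ((W : ℝ) ^ 22 * (q * δ))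
        rw [abs_mul, abs_mul, abs_mul,
          abs_of_pos (by positivity : (0 : ℝ) < (W : ℝ) ^ 22)] at this
        linarith

end Pool.Agent.MP_06f5ad_nt.Q2
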