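import Pool.Agent.MP_06f5ad_nt.Q2.Gs
import Pool.Agent.MP_06f5ad_nt.Q2.Trans

/-!
Choice of the auxiliary quadratic.
-/

namespace Pool.Agent.MP_06f5ad_nt.Q2

open Filter Topology

theorem StepA_one {W : ℝ} (hW : 2 ^ 100 ≤ W) : 1 ≤ W := le_trans (by norm_num) hW

theorem StepA_big {W : ℝ} (hW : 2 ^ 100 ≤ W) {k : ℕ} (hk : k ≠ 0) : 1000 ≤ W ^ k :=
  le_trans (le_trans (by norm_num) hW) (le_self_pow₀ (StepA_one hW) hk)

theorem StepA_sgn {s : ℝ} (hs : s = 1 ∨ s = -1) (x : ℝ) : |s * x| = |x| := by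
  rcases hs with rfl | rfl <;> simp

theorem StepA_mu {U V R e f c : ℝ} (hU : 1 ≤ U) (hV : 1 ≤ V) (hR : 1000 ≤ R) (he0 : 0 ≤ e)
    (he : U * V * R * e ≤ 1 / 2) (hf : 1 ≤ V * (f + e)) (hc : c ≤ 1) :
    0 < f ∧ U * (c * e / f) ≤ 1 / 8 ∧ e ≤ 1 := by
  have h1 : 0 ≤ U * V * e := by positivity
  have h2 : U * V * e ≤ 1 / 2000 := by nlinarith
  have h3 : V * e ≤ U * V * e := by nlinarith [mul_nonneg (by linarith : 0 ≤ V) he0]
  have h4 : 1 / 2 ≤ V * f := by nlinarith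
  have h5 : 0 < f := by
    by_contra h
    push Not at h
    nlinarith
  refine ⟨h5, ?_, by nlinarith⟩
  rw [← mul_div_assoc, div_le_iff₀ h5]
  have h6 : U * (c * e) ≤ U * e := by nlinarith [mul_nonneg (by linarith : 0 ≤ U) he0]
  have h7 : V * (U * e) ≤ V * (1 / 8 * f) := by nlinarith
  have h8 := le_of_mul_le_mul_left h7 (by linarith)
  linarith

theorem StepA_ev {O : Tr} {H x : ℝ} (hB : O.Bd H) (hx : |x| ≤ 1 / 2) : |O.ev x| ≤ 3 * H := by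
  obtain ⟨h1, h2, h3⟩ := hB
  have hH : 0 ≤ H := (abs_nonneg _).trans h1
  have h4 : |(O.A : ℝ) * x ^ 2| ≤ H * 1 := by
    rw [abs_mul, abs_pow]
    exact mul_le_mul h1 (pow_le_one₀ (abs_nonneg _) (by linarith)) (by positivity) hH
  have h5 : |2 * (O.B : ℝ) * x| ≤ 2 * H * (1 / 2) := by
    rw [abs_mul, abs_mul, abs_two]
    exact mul_le_mul (by linarith) hx (abs_nonneg _) (by linarith)
  have h6 := abs_add_three ((O.A : ℝ) * x ^ 2) (2 * (O.B : ℝ) * x) (O.C : ℝ)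
  unfold Tr.ev
  linarith

theorem StepA_fin {A H Z N R L La Q f f' E : ℝ} (hH : 1 ≤ H) (hZ : 1 ≤ Z) (hA0 : 0 < A)
    (hN : 0 ≤ N) (hR : 1000 ≤ R) (hA : H ^ 2 * (N * Z ^ 2 * R) ≤ 2 * A) (hL : 0 ≤ L)
    (hQ : 1 ≤ Q) (hLa0 : 0 ≤ La) (hLa : La ≤ 2 * Q) (hf : f ≤ 4 * (H * Z)) (hf0 : 0 ≤ f')
    (hf' : f' ≤ 5 * (H * Z)) (hE0 : 0 ≤ E) (hE : E ≤ 3 * H)
    (h : 1 ≤ A * N * (f * L) * (f' * La + Q * E)) : 8 / A ^ 2 ≤ L * Q ^ 3 := by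
  have hHZ : H ≤ H * Z := le_mul_of_one_le_right (by linarith) hZ
  have h1 : f' * La ≤ 5 * (H * Z) * (2 * Q) := mul_le_mul hf' hLa hLa0 (by linarith)
  have h2 : Q * E ≤ Q * (3 * (H * Z)) := mul_le_mul_of_nonneg_left (by linarith) (by linarith)
  have h3 : f' * La + Q * E ≤ 13 * (H * Z) * Q := by linarith
  have h4 : f * L ≤ 4 * (H * Z) * L := mul_le_mul_of_nonneg_right hf hL
  have h5 : A * N * (f * L) * (f' * La + Q * E) ≤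
      A * N * (4 * (H * Z) * L) * (13 * (H * Z) * Q) :=
    mul_le_mul (mul_le_mul_of_nonneg_left h4 (by positivity)) h3 (by positivity) (by positivity)
  have h6 : 0 ≤ A * (L * Q) := by positivity
  have h7 : R ≤ 52 * (H ^ 2 * (N * Z ^ 2 * R)) * (A * (L * Q)) := by
    have := mul_le_mul_of_nonneg_left (h.trans h5) (by linarith : 0 ≤ R)
    linarith
  have h8 : 52 * (H ^ 2 * (N * Z ^ 2 * R)) * (A * (L * Q)) ≤ 52 * (2 * A) * (A * (L * Q)) :=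
    mul_le_mul_of_nonneg_right (by linarith) h6
  have h9 : L * Q ≤ L * Q ^ 3 := mul_le_mul_of_nonneg_left (le_self_pow₀ hQ (by norm_num)) hL
  have h10 : A ^ 2 * (L * Q) ≤ A ^ 2 * (L * Q ^ 3) :=
    mul_le_mul_of_nonneg_left h9 (by positivity)
  rw [div_le_iff₀ (by positivity)]
  nlinarith

theorem StepA_abs {W : ℕ} {s : ℝ} {P : QF} {O : Tr} (h : Inv W s P O) :
    |P.a| ≤ 1 / 2 ∧ |P.b| ≤ 1 / 2 := by
  have h1 : (0 : ℝ) ≤ 1 / (W : ℝ) := by positivity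
  have h2 := h.loc
  have h3 := StepA_big h.big (k := 20) (by norm_num)
  have h4 := h.dlo
  have h5 := h.dhi
  generalize (W : ℝ) ^ 20 = Z at h3 h4 h5
  have h6 : |s * (P.b - P.a)| ≤ 1 / 6 := by
    rw [abs_le]
    constructor <;> nlinarith
  rw [StepA_sgn h.sgn] at h6
  have h7 := abs_sub_abs_le_abs_sub P.b P.a
  constructor <;> linarith

theorem StepA_rng {Z z d : ℝ} (hz : 0 ≤ z) (h1 : z ≤ Z) (h2 : Z ≤ 2 * z) (h3 : 2 ≤ Z * d)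
    (h4 : Z * d ≤ 4) : 1 ≤ z * d ∧ z * d ≤ 4 := by
  have hd : 0 ≤ d := by
    by_contra h
    push Not at h
    nlinarith
  constructor <;> nlinarith

theorem StepA_two {s z x : ℝ} (hs : s = 1 ∨ s = -1) (hz : 0 ≤ z) (h1 : 1 / 2 ≤ z * (s * x))
    (h2 : z * (s * x) ≤ 10) : 1 / 2 ≤ z * |x| ∧ z * |x| ≤ 10 := by
  have : z * |x| = z * (s * x) := by
    rw [← StepA_sgn hs x, ← abs_of_nonneg hz, ← abs_mul, abs_of_nonneg hz,
      abs_of_nonneg (by linarith)]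
  rw [this]
  exact ⟨h1, h2⟩

theorem target {W : ℕ} (hW : (2 : ℝ) ^ 100 ≤ W) (a : ℝ) {s : ℝ} (hs : s = 1 ∨ s = -1) :
    ∃ j : ℤ, |(W : ℝ) ^ 20 * (s * ((1 + W * j) / (W : ℝ) ^ 22 - a)) - 3| ≤ 1 / (W : ℝ) := by
  have hW0 : (0 : ℝ) < W := lt_of_lt_of_le one_pos (StepA_one hW)
  refine ⟨round ((W : ℝ) ^ 21 * a + 3 * s * W - 1 / W), ?_⟩
  have h1 := abs_sub_round ((W : ℝ) ^ 21 * a + 3 * s * W - 1 / W)
  generalize (round ((W : ℝ) ^ 21 * a + 3 * s * W - 1 / W) : ℝ) = j at h1 ⊢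
  have h2 : (W : ℝ) ^ 20 * (s * ((1 + W * j) / (W : ℝ) ^ 22 - a)) - 3 =
      s * (-((W : ℝ) ^ 21 * a + 3 * s * W - 1 / W - j) / W) := by
    rcases hs with rfl | rfl <;> field_simp <;> ring
  rw [h2, StepA_sgn hs, abs_div, abs_neg, abs_of_pos hW0]
  exact div_le_div_of_nonneg_right (by linarith) hW0.le

theorem choose_mu {W : ℕ} (hW : (2 : ℝ) ^ 100 ≤ W) (t : ℝ) {b x π : ℝ}
    (hπ : 1 ≤ (W : ℝ) ^ 42 * |π|) (h1 : |b - x| ≤ 1) (h2 : b ≠ x) :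
    ∃ u : ℤ, t + u / (((W : ℤ) ^ 300 : ℤ) : ℝ) ≠ 0 ∧
      (W : ℝ) ^ 250 * |b - π / (t + u / (((W : ℤ) ^ 300 : ℤ) : ℝ)) - x| ≤ 1 / 8 ∧
      |t + u / (((W : ℤ) ^ 300 : ℤ) : ℝ) - π / (b - x)| ≤ 1 := by
  have hW1 := StepA_one hW
  have hN : (((W : ℤ) ^ 300 : ℤ) : ℝ) = (W : ℝ) ^ 250 * (W : ℝ) ^ 42 * (W : ℝ) ^ 8 := by
    push_cast
    ring
  have hU : (1 : ℝ) ≤ (W : ℝ) ^ 250 := one_le_pow₀ hW1
  have hV : (1 : ℝ) ≤ (W : ℝ) ^ 42 := one_le_pow₀ hW1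
  have hR := StepA_big hW (k := 8) (by norm_num)
  rw [hN]
  generalize (W : ℝ) ^ 250 = U at *
  generalize (W : ℝ) ^ 42 = V at *
  generalize (W : ℝ) ^ 8 = R at *
  have hd : b - x ≠ 0 := sub_ne_zero.2 h2
  have hN0 : 0 < U * V * R := by positivity
  refine ⟨round (U * V * R * (π / (b - x) - t)), ?_⟩
  have h3 := abs_sub_round (U * V * R * (π / (b - x) - t))
  generalize (round (U * V * R * (π / (b - x) - t)) : ℝ) = u at h3 ⊢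
  set φ := t + u / (U * V * R) with hφ
  have h4 : U * V * R * |φ - π / (b - x)| ≤ 1 / 2 := by
    have h5 : -(U * V * R * (φ - π / (b - x))) = U * V * R * (π / (b - x) - t) - u := by
      rw [hφ]
      field_simp
      ring
    rwa [← h5, abs_neg, abs_mul, abs_of_pos hN0] at h3
  have h5 : |π| ≤ |φ| + |φ - π / (b - x)| := by
    have h6 : |π| ≤ |π / (b - x)| := by
      rw [abs_div, le_div_iff₀ (abs_pos.2 hd)]
      exact mul_le_of_le_one_right (abs_nonneg _) h1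
    have h7 := abs_sub φ (φ - π / (b - x))
    rw [sub_sub_cancel] at h7
    linarith
  obtain ⟨h8, h9, h10⟩ := StepA_mu hU hV hR (abs_nonneg _) h4
    (hπ.trans (mul_le_mul_of_nonneg_left h5 (by linarith))) h1
  have h11 : φ ≠ 0 := abs_pos.1 h8
  refine ⟨h11, ?_, h10⟩
  have h12 : b - π / φ - x = (b - x) * (φ - π / (b - x)) / φ := by
    field_simp
    ring
  rwa [h12, abs_div, abs_mul]

theorem dio_y (P : QF) {O : Tr} (hO : O.NS) {W : ℕ} (hW : (2 : ℝ) ^ 100 ≤ W) {u : ℤ}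
    {φ y x H : ℝ} (hφ : φ = O.A * P.b + O.B + u / (((W : ℤ) ^ 300 : ℤ) : ℝ)) (hφ0 : φ ≠ 0)
    (hy : y = P.b - O.ev P.b / φ) (hH : 1 ≤ H) (hB : O.Bd H)
    (hA : H ^ 2 * (W : ℝ) ^ 700 ≤ 2 * P.A) (ha : |P.a| ≤ 1 / 2) (hb : |P.b| ≤ 1 / 2)
    (hy1 : |y| ≤ 1 / 2) (hx : 1 ≤ (W : ℝ) ^ 20 * |P.b - x|) (hφ1 : |φ - O.ev P.b / (P.b - x)| ≤ 1) :
    Dio y (8 / (P.A : ℝ) ^ 2) := by
  intro q p hq
  have hW1 := StepA_one hW
  have hv : ((W : ℤ) ^ 300 : ℤ) ≠ 0 := pow_ne_zero _ (by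
    have : (W : ℝ) ≠ 0 := by linarith
    exact_mod_cast this)
  have hQ := Approx_one_le hq
  have hlow := low_y P hO hv hφ hφ0 hy (p := p) hq
  have hN : ((((W : ℤ) ^ 300 : ℤ) : ℝ)) ^ 2 = (W : ℝ) ^ 600 := by
    push_cast
    ring
  have hA' : H ^ 2 * ((W : ℝ) ^ 600 * ((W : ℝ) ^ 20) ^ 2 * (W : ℝ) ^ 60) ≤ 2 * P.A := by
    rwa [show (W : ℝ) ^ 600 * ((W : ℝ) ^ 20) ^ 2 * (W : ℝ) ^ 60 = (W : ℝ) ^ 700 by ring]
  have hφ' : O.A * P.a + O.B + u / (((W : ℤ) ^ 300 : ℤ) : ℝ) = φ + O.A * (P.a - P.b) := by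
    rw [hφ]
    ring
  rw [hN, hφ'] at hlow
  have hZ : (1 : ℝ) ≤ (W : ℝ) ^ 20 := one_le_pow₀ hW1
  have hN0 : (0 : ℝ) ≤ (W : ℝ) ^ 600 := by positivity
  have hR := StepA_big hW (k := 60) (by norm_num)
  have hT := StepA_big hW (k := 700) (by norm_num)
  clear hφ hN hφ' hv
  generalize (W : ℝ) ^ 20 = Z at *
  generalize (W : ℝ) ^ 600 = N at *
  generalize (W : ℝ) ^ 60 = R at *
  generalize (W : ℝ) ^ 700 = T at *
  by_cases hc : 1 ≤ |q * y + p|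
  · have h1 : (1 : ℝ) ≤ H ^ 2 := one_le_pow₀ hH
    have h2 : (3 : ℝ) ≤ P.A := by nlinarith
    have h3 : 8 / (P.A : ℝ) ^ 2 ≤ 1 := by
      rw [div_le_one (by positivity)]
      nlinarith
    exact h3.trans (one_le_mul_of_one_le_of_one_le hc (one_le_pow₀ hQ))
  · push Not at hc
    have h1 : |y - P.a| ≤ 1 := by linarith [abs_sub y P.a]
    have h2 : |q * P.a + p| ≤ 2 * |(q : ℝ)| := by
      have h3 := Approx_tri q p y P.a
      have h4 := mul_le_mul_of_nonneg_left h1 (abs_nonneg (q : ℝ))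
      linarith
    have hHZ : H ≤ H * Z := le_mul_of_one_le_right (by linarith) hZ
    have h5 : |O.ev P.b / (P.b - x)| ≤ 3 * (H * Z) := by
      have h6 : 0 < |P.b - x| := by
        by_contra h
        push Not at h
        nlinarith
      rw [abs_div, div_le_iff₀ h6]
      have h7 := StepA_ev hB hb
      have h8 := mul_le_mul_of_nonneg_left hx (by linarith : 0 ≤ 3 * H)
      linarith
    have h6 : |φ| ≤ 4 * (H * Z) := by
      have := abs_sub_abs_le_abs_sub φ (O.ev P.b / (P.b - x))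
      linarith
    have h7 : |φ + O.A * (P.a - P.b)| ≤ 5 * (H * Z) := by
      have h8 : |(O.A : ℝ) * (P.a - P.b)| ≤ H * 1 := by
        rw [abs_mul]
        exact mul_le_mul hB.1 (by linarith [abs_sub P.a P.b]) (abs_nonneg _) (by linarith)
      have := abs_add_le φ (O.A * (P.a - P.b))
      linarith
    exact StepA_fin hH hZ P.Apos hN0 hR hA' (abs_nonneg _) hQ (abs_nonneg _) h2 h6 (abs_nonneg _)
      h7 (abs_nonneg _) (StepA_ev hB ha) hlow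

/-- The invariant holds for the late members of a family. -/
theorem inv_ev (P : QF) {W : ℕ} {s H κ y : ℝ} {j : ℤ} {F : ℕ → QF} {T : ℕ → ℝ}
    (hW : (2 : ℝ) ^ 100 ≤ W) (hs : s = 1 ∨ s = -1) (hH : 1 ≤ H) (hB : P.Bd H)
    (loc : |P.a| + 1 / (W : ℝ) < 1 / 3) (hd : Dio P.a κ) (hκ : 1 / (W : ℝ) < κ)
    (hx : Conv T (fun k => (F k).a) P.a) (hy : Tendsto (fun k => (F k).b) atTop (𝓝 y))
    (hA : Tendsto (fun k => ((F k).A : ℝ)) atTop atTop)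
    (hres : ∀ᶠ k in atTop, res P.toTr (F k).toTr = 1)
    (rat : (W : ℝ) ^ 250 * |y - (1 + W * j) / (W : ℝ) ^ 22| ≤ 1 / 2)
    (tgt : |(W : ℝ) ^ 20 * (s * ((1 + W * j) / (W : ℝ) ^ 22 - P.a)) - 3| ≤ 1 / (W : ℝ))
    (hb : 1 ≤ (W : ℝ) ^ 20 * |y - P.b|) : ∀ᶠ k in atTop, Inv W s (F k) P.toTr := by
  have hW1 := StepA_one hW
  have hW0 : (0 : ℝ) < W := by linarith
  have hZ0 : (0 : ℝ) < (W : ℝ) ^ 20 := by positivity
  have hlim : 2.5 ≤ (W : ℝ) ^ 20 * (s * (y - P.a)) ∧ (W : ℝ) ^ 20 * (s * (y - P.a)) ≤ 3.5 := by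
    generalize (1 + W * j) / (W : ℝ) ^ 22 = x at rat tgt
    have h1 : 1 / (W : ℝ) ≤ 1 / 4 :=
      one_div_le_one_div_of_le (by norm_num) (le_trans (by norm_num) hW)
    have h2 : |(W : ℝ) ^ 20 * (s * (y - x))| ≤ 1 / 4 := by
      rw [abs_mul, abs_of_pos hZ0, StepA_sgn hs]
      have h3 := StepA_big hW (k := 230) (by norm_num)
      have h4 : (W : ℝ) ^ 250 * |y - x| = (W : ℝ) ^ 230 * ((W : ℝ) ^ 20 * |y - x|) := by ring
      have h5 : 0 ≤ (W : ℝ) ^ 20 * |y - x| := by positivity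
      rw [h4] at rat
      generalize (W : ℝ) ^ 20 * |y - x| = c at *
      generalize (W : ℝ) ^ 230 = R at *
      nlinarith
    have h3 : (W : ℝ) ^ 20 * (s * (y - P.a)) =
        (W : ℝ) ^ 20 * (s * (y - x)) + (W : ℝ) ^ 20 * (s * (x - P.a)) := by ring
    rw [abs_le] at h2 tgt
    rw [h3]
    constructor <;> linarith [h2.1, h2.2, tgt.1, tgt.2]
  have ha := hx.tendsto
  have t1 : Tendsto (fun k => |(F k).a| + 1 / (W : ℝ)) atTop (𝓝 (|P.a| + 1 / (W : ℝ))) :=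
    ha.abs.add_const _
  have t2 : Tendsto (fun k => (W : ℝ) ^ 20 * (s * ((F k).b - (F k).a))) atTop
      (𝓝 ((W : ℝ) ^ 20 * (s * (y - P.a)))) := ((hy.sub ha).const_mul _).const_mul _
  have t3 : Tendsto (fun k => (W : ℝ) ^ 250 * |(F k).b - (1 + W * j) / (W : ℝ) ^ 22|) atTop
      (𝓝 ((W : ℝ) ^ 250 * |y - (1 + W * j) / (W : ℝ) ^ 22|)) :=
    (hy.sub_const _).abs.const_mul _
  have t4 : Tendsto (fun k => (W : ℝ) ^ 20 * (s * ((F k).b - P.a))) atTop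
      (𝓝 ((W : ℝ) ^ 20 * (s * (y - P.a)))) := ((hy.sub_const _).const_mul _).const_mul _
  have t5 : Tendsto (fun k => (W : ℝ) ^ 20 * |(F k).b - P.b|) atTop
      (𝓝 ((W : ℝ) ^ 20 * |y - P.b|)) := (hy.sub_const _).abs.const_mul _
  filter_upwards [hres, hA.eventually_ge_atTop (H ^ 2 * (W : ℝ) ^ 700),
    t1.eventually (ge_mem_nhds loc),
    t2.eventually (le_mem_nhds (lt_of_lt_of_le (by norm_num : (2 : ℝ) < 2.5) hlim.1)),
    t2.eventually (ge_mem_nhds (lt_of_le_of_lt hlim.2 (by norm_num : (3.5 : ℝ) < 4))),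
    t3.eventually (ge_mem_nhds (lt_of_le_of_lt rat (by norm_num : (1 / 2 : ℝ) < 1))),
    t4.eventually (le_mem_nhds (lt_of_lt_of_le (by norm_num : (2 : ℝ) < 2.5) hlim.1)),
    t5.eventually (le_mem_nhds (lt_of_lt_of_le (by norm_num : (1 / 2 : ℝ) < 1) hb)),
    hx.dio hd hκ] with k e1 e2 e3 e4 e5 e6 e7 e8 e9
  refine ⟨hW, hs, P.ns, (res_symm _ _).trans e1, ⟨H, hH, hB, e2⟩, ?_, e3, e4, e5, ⟨j, e6⟩, e9⟩
  have h1 : 2 ≤ (W : ℝ) ^ 20 * |(F k).b - P.a| := by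
    rw [← StepA_sgn hs]
    exact e7.trans (mul_le_mul_of_nonneg_left (le_abs_self _) hZ0.le)
  have h2 : (2 : ℝ) * (1 / 2) ≤ ((W : ℝ) ^ 20 * |(F k).b - P.a|) *
      ((W : ℝ) ^ 20 * |(F k).b - P.b|) := mul_le_mul h1 e8 (by norm_num) (by linarith)
  have h3 : (W : ℝ) ^ 41 * |P.ev (F k).b| = (W * P.A) * (((W : ℝ) ^ 20 * |(F k).b - P.a|) *
      ((W : ℝ) ^ 20 * |(F k).b - P.b|)) := by
    rw [P.ev_eq, abs_mul, abs_mul, abs_of_pos P.Apos]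
    ring
  rw [h3]
  exact one_le_mul_of_one_le_of_one_le (one_le_mul_of_one_le_of_one_le hW1 P.one_le_A)
    (by linarith)

theorem shape {W : ℕ} {w s : ℝ} {P Q : QF} {O : Tr} (hw0 : 0 ≤ w) (hw : w ≤ W)
    (hw2 : ((W : ℝ) + 1) ^ 20 ≤ 2 * w ^ 20) (h : Inv W s P O) (h' : Inv (W + 1) (-s) Q P.toTr)
    (he : (W : ℝ) ^ 20 * |P.a - Q.a| ≤ 1 / 4) : Shape w P Q := by
  have hs := h.sgn
  have hz : 0 ≤ w ^ 20 := by positivity
  have h1 : w ^ 20 ≤ (W : ℝ) ^ 20 := pow_le_pow_left₀ hw0 hw 20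
  have h2 : (W : ℝ) ^ 20 ≤ ((W : ℝ) + 1) ^ 20 :=
    pow_le_pow_left₀ (Nat.cast_nonneg _) (by linarith) 20
  have h3 := h'.dlo
  have h4 := h'.dhi
  push_cast at h3 h4
  obtain ⟨d1, d2⟩ := StepA_rng hz h1 (h2.trans hw2) h.dlo h.dhi
  obtain ⟨d3, d4⟩ := StepA_rng hz (h1.trans h2) hw2 h3 h4
  have h5 : |w ^ 20 * (s * (P.a - Q.a))| ≤ 1 / 4 := by
    rw [abs_mul, abs_of_nonneg hz, StepA_sgn hs]
    exact (mul_le_mul_of_nonneg_right h1 (abs_nonneg _)).trans he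
  obtain ⟨d5, d6⟩ := abs_le.1 h5
  have a1 := StepA_abs h
  have a2 := StepA_abs h'
  have key : ∀ z : ℝ, 0 ≤ z → 1 ≤ z * (s * (P.b - P.a)) → z * (s * (P.b - P.a)) ≤ 4 →
      1 ≤ z * (-s * (Q.b - Q.a)) → z * (-s * (Q.b - Q.a)) ≤ 4 →
      -(1 / 4) ≤ z * (s * (P.a - Q.a)) → z * (s * (P.a - Q.a)) ≤ 1 / 4 →
      (1 / 2 ≤ z * |P.a - P.b| ∧ z * |P.a - P.b| ≤ 10) ∧
      (1 / 2 ≤ z * |Q.a - Q.b| ∧ z * |Q.a - Q.b| ≤ 10) ∧
      (1 / 2 ≤ z * |P.a - Q.b| ∧ z * |P.a - Q.b| ≤ 10) ∧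
      (1 / 2 ≤ z * |P.b - Q.a| ∧ z * |P.b - Q.a| ≤ 10) ∧
      (1 / 2 ≤ z * |P.b - Q.b| ∧ z * |P.b - Q.b| ≤ 10) := by
    intro z hz d1 d2 d3 d4 d5 d6
    rw [abs_sub_comm P.a P.b]
    exact ⟨StepA_two hs hz (by linarith) (by linarith), StepA_two hs hz (by linarith) (by linarith),
      StepA_two hs hz (by linarith) (by linarith), StepA_two hs hz (by linarith) (by linarith),
      StepA_two hs hz (by linarith) (by linarith)⟩
  obtain ⟨k1, k2, k3, k4, k5⟩ := key _ hz d1 d2 d3 d4 d5 d6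
  exact ⟨a1.1, a1.2, a2.1, a2.2, k1.1, k1.2, k2.1, k2.2, k3.1, k3.2, k4.1, k4.2, k5.1, k5.2⟩

end Pool.Agent.MP_06f5ad_nt.Q2
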